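import Pool.Agent.Lib.MTX.Clos

/-!
# MTV.Defs (MP_e46137_lc): weights of families of partial colourings
-/

namespace MTV

open Classical Finset MTX

variable {N : ℕ}

/-- the probability that a random colouring extends `U` -/
noncomputable def wt (U : PC N) : ℝ := (1 / 2) ^ size U

/-- the weight of a pair of different partial colourings with a common coloured vertex -/
noncomputable def pw (U V : PC N) : ℝ :=
  if U = V ∨ Disjoint (supp U) (supp V) then 0 else (1 / 2) ^ (supp U ∪ supp V).card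

/-- the value of a family: a lower bound for (minus the logarithm of) the probability that a random
colouring extends no member -/
noncomputable def val (𝒰 : Finset (PC N)) : ℝ := ∑ U ∈ 𝒰, (wt U - 2 * ∑ V ∈ 𝒰, pw U V)

/-- the partial colourings of size `1, …, w` which are extended by no member of `X` -/
noncomputable def Fam (w : ℕ) (X : Finset (Col N)) : Finset (PC N) :=
  univ.filter (fun U => 1 ≤ size U ∧ size U ≤ w ∧ ∀ χ ∈ X, ¬ Agree U χ)

theorem wt_pos (U : PC N) : 0 < wt U := by
  unfold wt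
  positivity

theorem pw_nonneg (U V : PC N) : 0 ≤ pw U V := by
  unfold pw
  split_ifs
  · exact le_rfl
  · positivity

theorem pw_symm (U V : PC N) : pw U V = pw V U := by
  unfold pw
  have h : (U = V ∨ Disjoint (supp U) (supp V)) ↔ (V = U ∨ Disjoint (supp V) (supp U)) := by
    rw [eq_comm, disjoint_comm]
  rw [union_comm (supp U) (supp V)]
  by_cases h1 : U = V ∨ Disjoint (supp U) (supp V)
  · rw [if_pos h1, if_pos (h.1 h1)]
  · rw [if_neg h1, if_neg (fun h2 => h1 (h.2 h2))]

theorem pw_self (U : PC N) : pw U U = 0 := by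
  unfold pw
  rw [if_pos (Or.inl rfl)]

theorem supp_card (U : PC N) : (supp U).card = size U := rfl

theorem mem_supp (U : PC N) (v : Fin N) : v ∈ supp U ↔ U v ≠ none := by
  unfold supp
  rw [mem_filter]
  exact ⟨fun h => h.2, fun h => ⟨mem_univ _, h⟩⟩

/-- `pw U V` as `wt U` times the conditional probability of the rest of `V` -/
theorem pw_eq (U V : PC N) (h : ¬ (U = V ∨ Disjoint (supp U) (supp V))) :
    pw U V = wt U * (1 / 2) ^ (supp V \ supp U).card := by
  unfold pw wt
  rw [if_neg h, ← pow_add, ← supp_card, ← card_union_of_disjoint disjoint_sdiff,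
    union_sdiff_self_eq_union]

/-- the value of a union of two disjoint families -/
theorem val_union {𝒰 𝒪 : Finset (PC N)} (h : Disjoint 𝒰 𝒪) :
    val (𝒰 ∪ 𝒪) = val 𝒰 + val 𝒪 - 4 * ∑ A ∈ 𝒪, ∑ U ∈ 𝒰, pw A U := by
  have h1 : ∑ U ∈ 𝒰, ∑ A ∈ 𝒪, pw U A = ∑ A ∈ 𝒪, ∑ U ∈ 𝒰, pw A U := by
    rw [sum_comm]
    exact sum_congr rfl fun A _ => sum_congr rfl fun U _ => pw_symm U A
  unfold val
  rw [sum_union h]
  have h2 : ∀ U : PC N, ∑ V ∈ 𝒰 ∪ 𝒪, pw U V = ∑ V ∈ 𝒰, pw U V + ∑ V ∈ 𝒪, pw U V :=
    fun U => sum_union h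
  simp only [h2, mul_add, sum_sub_distrib, sum_add_distrib, ← mul_sum]
  rw [h1]
  ring

/-- the value changes by `wt U - 4 * ∑ pw U V` if `U` is inserted -/
theorem val_insert {𝒰 : Finset (PC N)} {U : PC N} (h : U ∉ 𝒰) :
    val (insert U 𝒰) = val 𝒰 + wt U - 4 * ∑ V ∈ 𝒰, pw U V := by
  have h1 : Disjoint 𝒰 {U} := disjoint_singleton_right.2 h
  have h2 : insert U 𝒰 = 𝒰 ∪ {U} := by rw [union_comm]; rfl
  rw [h2, val_union h1, sum_singleton]
  have h3 : val ({U} : Finset (PC N)) = wt U := by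
    unfold val
    rw [sum_singleton, sum_singleton, pw_self]
    ring
  rw [h3]

theorem val_le (𝒰 : Finset (PC N)) : val 𝒰 ≤ ∑ U ∈ 𝒰, wt U := by
  unfold val
  refine sum_le_sum fun U _ => ?_
  have := sum_nonneg (s := 𝒰) (f := fun V => pw U V) fun V _ => pw_nonneg U V
  linarith

theorem val_empty : val (∅ : Finset (PC N)) = 0 := by
  unfold val
  exact sum_empty

end MTV
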