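import Pool.Agent.Lib.MTV.Defs

/-!
# MTV.Load (MP_e46137_lc): many vertices with small loads

Proof (greedy).  `L(V) = ∑_{U ∈ 𝒰} |U ∩ V| (1/2) ^ |U \ V|`, `μ = ∑ wt U`, `L(∅) = 0`.  If `V` has
`i < k` elements (so `2 (i + 1) ≤ N`) then adding a vertex `x ∉ V` changes the term of `U ∋ x` from
`j (1/2) ^ |U \ V|` to `2 (j + 1) (1/2) ^ |U \ V|`, i.e. by `(j + 2) (1/2) ^ |U \ V|`
(`j = |U ∩ V|`), the other terms do not change.  The sum over all `x ∉ V` of the increase is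
`∑_U |U \ V| (j + 2) (1/2) ^ |U \ V| ≤ w ∑_U (3 j (1/2) ^ |U \ V| + 2 wt U) = w (3 L + 2 μ)`, so
some `x` has increase at most `w (3 L + 2 μ) / (N - i) ≤ (6 w / N) L + (4 w / N) μ`.  With
`a = 6 w / N`, `b = 4 w / N`: there is `V` with `i` elements and `L(V) ≤ b μ i (1 + a) ^ i` for all
`i ≤ k`.  For `i = k`: `(1 + a) ^ k ≤ exp (a k) ≤ exp 1 ≤ 3`, `L(V) ≤ 12 w μ k / N`.
The load of `y ∈ V` is `ℓ(y) = ∑_{U ∋ y} (1/2) ^ |U \ V|`, `∑_{y ∈ V} ℓ(y) = L(V)`, so at most
`16 w L(V) ≤ 192 w ^ 2 μ k / N ≤ k / 2` vertices `y ∈ V` have load `> 1 / (16 w)`.  Remove them;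
loads only decrease if vertices are removed from `V`.
-/

namespace MTV

open Classical Finset MTX

variable {N : ℕ}

/-- the potential `L(V)` -/
private noncomputable def pot (𝒰 : Finset (PC N)) (V : Finset (Fin N)) : ℝ :=
  ∑ U ∈ 𝒰, ((supp U ∩ V).card : ℝ) * (1 / 2) ^ (supp U \ V).card

private theorem pot_nonneg (𝒰 : Finset (PC N)) (V : Finset (Fin N)) : 0 ≤ pot 𝒰 V := by
  unfold pot
  exact sum_nonneg fun U _ => by positivity

private theorem term_insert (S V : Finset (Fin N)) {x : Fin N} (hx : x ∉ V) :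
    ((S ∩ insert x V).card : ℝ) * (1 / 2) ^ (S \ insert x V).card =
      ((S ∩ V).card : ℝ) * (1 / 2) ^ (S \ V).card +
        if x ∈ S then (((S ∩ V).card : ℝ) + 2) * (1 / 2) ^ (S \ V).card else 0 := by
  by_cases h : x ∈ S
  · rw [if_pos h]
    have h1 : S ∩ insert x V = insert x (S ∩ V) := inter_insert_of_mem h
    have h2 : (S ∩ insert x V).card = (S ∩ V).card + 1 := by
      rw [h1, card_insert_of_notMem]
      exact fun h3 => hx (mem_inter.1 h3).2
    have h3 : (S \ V) = insert x (S \ insert x V) := by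
      ext y
      simp only [mem_sdiff, mem_insert, not_or]
      constructor
      · rintro ⟨h4, h5⟩
        by_cases h6 : y = x
        · exact Or.inl h6
        · exact Or.inr ⟨h4, h6, h5⟩
      · rintro (h4 | ⟨h4, -, h5⟩)
        · rw [h4]
          exact ⟨h, hx⟩
        · exact ⟨h4, h5⟩
    have h4 : (S \ V).card = (S \ insert x V).card + 1 := by
      rw [h3, card_insert_of_notMem]
      exact fun h5 => (mem_sdiff.1 h5).2 (mem_insert_self _ _)
    rw [h2, h4, pow_succ]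
    push_cast
    ring
  · rw [if_neg h, add_zero]
    have h1 : S ∩ insert x V = S ∩ V := inter_insert_of_notMem h
    have h2 : S \ insert x V = S \ V := by
      ext y
      simp only [mem_sdiff, mem_insert, not_or]
      constructor
      · rintro ⟨h4, -, h5⟩
        exact ⟨h4, h5⟩
      · rintro ⟨h4, h5⟩
        exact ⟨h4, fun h6 => h (h6 ▸ h4), h5⟩
    rw [h1, h2]

private theorem pot_step {w : ℕ} (hw : 1 ≤ w) (𝒰 : Finset (PC N)) (h1 : ∀ U ∈ 𝒰, size U ≤ w)
    (V : Finset (Fin N)) (hV : 2 * (V.card + 1) ≤ N) :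
    ∃ x, x ∉ V ∧ pot 𝒰 (insert x V) ≤
      (1 + 6 * w / N) * pot 𝒰 V + 4 * w / N * ∑ U ∈ 𝒰, wt U := by
  set μ := ∑ U ∈ 𝒰, wt U with hμ
  have hμ0 : 0 ≤ μ := sum_nonneg fun U _ => (wt_pos U).le
  have hN : (0 : ℝ) < N := by
    have : 0 < N := by omega
    exact_mod_cast this
  have hw0 : (0 : ℝ) ≤ w := by positivity
  have hcard : (univ \ V).card = N - V.card := by
    rw [card_sdiff_of_subset (subset_univ V), card_univ, Fintype.card_fin]
  have hne : (univ \ V).Nonempty := by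
    rw [← card_pos, hcard]
    omega
  have hL0 := pot_nonneg 𝒰 V
  -- the increases
  have hinc : ∀ x ∈ univ \ V, pot 𝒰 (insert x V) = pot 𝒰 V +
      ∑ U ∈ 𝒰, if x ∈ supp U then
        (((supp U ∩ V).card : ℝ) + 2) * (1 / 2) ^ (supp U \ V).card else 0 := by
    intro x hx
    have hx' : x ∉ V := (mem_sdiff.1 hx).2
    unfold pot
    rw [← sum_add_distrib]
    exact sum_congr rfl fun U _ => term_insert (supp U) V hx'
  -- the sum of the increases
  have hsum : ∑ x ∈ univ \ V, ∑ U ∈ 𝒰, (if x ∈ supp U then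
      (((supp U ∩ V).card : ℝ) + 2) * (1 / 2) ^ (supp U \ V).card else 0) ≤
        w * (3 * pot 𝒰 V + 2 * μ) := by
    rw [sum_comm, hμ]
    unfold pot
    rw [mul_sum, mul_sum, ← sum_add_distrib, mul_sum]
    refine sum_le_sum fun U hU => ?_
    rw [← sum_filter, sum_const, nsmul_eq_mul]
    have h2 : (univ \ V).filter (fun x => x ∈ supp U) = supp U \ V := by
      ext y
      simp only [mem_filter, mem_sdiff, mem_univ, true_and]
      exact and_comm
    rw [h2]
    have h3 : (supp U ∩ V).card + (supp U \ V).card = size U := by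
      rw [← supp_card]
      exact card_inter_add_card_sdiff _ _
    have h4 : (supp U ∩ V).card + (supp U \ V).card ≤ w := h3 ▸ h1 U hU
    have h5 : wt U = (1 / 2) ^ ((supp U ∩ V).card + (supp U \ V).card) := by
      unfold wt
      rw [h3]
    rw [h5]
    generalize (supp U ∩ V).card = j at *
    generalize (supp U \ V).card = r at *
    have h6 : (r : ℝ) ≤ w := by
      have : r ≤ w := by omega
      exact_mod_cast this
    have h7 : (0 : ℝ) < (1 / 2) ^ r := by positivity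
    rcases Nat.eq_zero_or_pos j with h8 | h8
    · subst h8
      simp only [Nat.cast_zero, zero_add, zero_mul, mul_zero]
      nlinarith
    · have h9 : (1 : ℝ) ≤ j := by exact_mod_cast h8
      have h10 : (0 : ℝ) < (1 / 2) ^ (j + r) := by positivity
      have h11 : (r : ℝ) * (((j : ℝ) + 2) * (1 / 2) ^ r) ≤ w * (3 * ((j : ℝ) * (1 / 2) ^ r)) := by
        have h12 : ((j : ℝ) + 2) * (1 / 2) ^ r ≤ 3 * ((j : ℝ) * (1 / 2) ^ r) := by nlinarith
        exact mul_le_mul h6 h12 (by positivity) hw0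
      have h13 : 0 ≤ (w : ℝ) * (2 * (1 / 2) ^ (j + r)) := by positivity
      linarith
  -- choose `x`
  have hex : ∃ x ∈ univ \ V, (∑ U ∈ 𝒰, if x ∈ supp U then
      (((supp U ∩ V).card : ℝ) + 2) * (1 / 2) ^ (supp U \ V).card else 0) ≤
        2 * w / N * (3 * pot 𝒰 V + 2 * μ) := by
    refine exists_le_of_sum_le hne ?_
    rw [sum_const, nsmul_eq_mul, hcard]
    refine hsum.trans ?_
    have h2 : (N : ℝ) / 2 ≤ ((N - V.card : ℕ) : ℝ) := by
      rw [Nat.cast_sub (by omega)]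
      have h3 : (2 : ℝ) * (V.card + 1) ≤ N := by exact_mod_cast hV
      linarith
    have h3 : (w : ℝ) * (3 * pot 𝒰 V + 2 * μ) = N / 2 * (2 * w / N * (3 * pot 𝒰 V + 2 * μ)) := by
      field_simp
    rw [h3]
    exact mul_le_mul_of_nonneg_right h2 (by positivity)
  obtain ⟨x, hx, hx2⟩ := hex
  refine ⟨x, (mem_sdiff.1 hx).2, ?_⟩
  rw [hinc x hx]
  have h2 : 2 * (w : ℝ) / N * (3 * pot 𝒰 V + 2 * μ) =
      6 * w / N * pot 𝒰 V + 4 * w / N * μ := by
    ring
  linarith

private theorem pot_iter {w k : ℕ} (hw : 1 ≤ w) (𝒰 : Finset (PC N)) (h1 : ∀ U ∈ 𝒰, size U ≤ w)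
    (hk : 6 * w * k ≤ N) : ∀ i, i ≤ k → ∃ V : Finset (Fin N), V.card = i ∧
      pot 𝒰 V ≤ 4 * w / N * (∑ U ∈ 𝒰, wt U) * i * (1 + 6 * w / N) ^ i := by
  intro i
  induction i with
  | zero =>
    intro _
    refine ⟨∅, card_empty, ?_⟩
    unfold pot
    simp
  | succ i ih =>
    intro hi
    obtain ⟨V, hV, hV2⟩ := ih (by omega)
    have h2 : 2 * (V.card + 1) ≤ N := by
      rw [hV]
      nlinarith
    obtain ⟨x, hx, hx2⟩ := pot_step hw 𝒰 h1 V h2
    refine ⟨insert x V, ?_, ?_⟩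
    · rw [card_insert_of_notMem hx, hV]
    have hμ0 : 0 ≤ ∑ U ∈ 𝒰, wt U := sum_nonneg fun U _ => (wt_pos U).le
    set μ := ∑ U ∈ 𝒰, wt U with hμ
    refine hx2.trans ?_
    have ha : (0 : ℝ) ≤ 6 * w / N := by positivity
    have hb : (0 : ℝ) ≤ 4 * w / N * μ := by positivity
    have h3 : (1 : ℝ) ≤ (1 + 6 * w / N) ^ (i + 1) := one_le_pow₀ (by linarith)
    have h4 : (1 + 6 * (w : ℝ) / N) * pot 𝒰 V ≤
        (1 + 6 * w / N) * (4 * w / N * μ * i * (1 + 6 * w / N) ^ i) :=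
      mul_le_mul_of_nonneg_left hV2 (by linarith)
    have h5 : (1 + 6 * (w : ℝ) / N) * (4 * w / N * μ * i * (1 + 6 * w / N) ^ i) =
        4 * w / N * μ * i * (1 + 6 * w / N) ^ (i + 1) := by
      rw [pow_succ]
      ring
    have h6 : 4 * (w : ℝ) / N * μ ≤ 4 * w / N * μ * (1 + 6 * w / N) ^ (i + 1) :=
      le_mul_of_one_le_right hb h3
    push_cast
    have h7 : 4 * (w : ℝ) / N * μ * ((i : ℝ) + 1) * (1 + 6 * w / N) ^ (i + 1) =
        4 * w / N * μ * i * (1 + 6 * w / N) ^ (i + 1) +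
          4 * w / N * μ * (1 + 6 * w / N) ^ (i + 1) := by
      ring
    rw [h7]
    linarith

theorem exists_load {w k : ℕ} (hw : 1 ≤ w) (𝒰 : Finset (PC N)) (h1 : ∀ U ∈ 𝒰, size U ≤ w)
    (hk : 6 * w * k ≤ N) (hμ : 384 * (w : ℝ) ^ 2 * ∑ U ∈ 𝒰, wt U ≤ N) :
    ∃ V : Finset (Fin N), k ≤ 2 * V.card ∧
      ∀ y ∈ V, ∑ U ∈ 𝒰.filter (fun U => U y ≠ none), (1 / 2 : ℝ) ^ (supp U \ V).card ≤
        1 / (16 * w) := by
  rcases Nat.eq_zero_or_pos k with hk0 | hk0
  · refine ⟨∅, by omega, fun y hy => absurd hy (notMem_empty y)⟩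
  have hN0 : 0 < N := lt_of_lt_of_le (by positivity) hk
  have hN : (0 : ℝ) < N := by exact_mod_cast hN0
  have hw0 : (0 : ℝ) < w := by exact_mod_cast hw
  have hkR : (0 : ℝ) < k := by exact_mod_cast hk0
  obtain ⟨V, hV, hV2⟩ := pot_iter hw 𝒰 h1 hk k le_rfl
  have hμ0 : 0 ≤ ∑ U ∈ 𝒰, wt U := sum_nonneg fun U _ => (wt_pos U).le
  set μ := ∑ U ∈ 𝒰, wt U with hμd
  have hk' : 6 * (w : ℝ) * k ≤ N := by exact_mod_cast hk
  have hexp : (1 + 6 * (w : ℝ) / N) ^ k ≤ 3 := by
    have h2 : 1 + 6 * (w : ℝ) / N ≤ Real.exp (6 * w / N) := by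
      have := Real.add_one_le_exp (6 * (w : ℝ) / N)
      linarith
    calc (1 + 6 * (w : ℝ) / N) ^ k ≤ (Real.exp (6 * w / N)) ^ k :=
          pow_le_pow_left₀ (by positivity) h2 k
      _ = Real.exp (k * (6 * w / N)) := by rw [← Real.exp_nat_mul]
      _ ≤ Real.exp 1 := by
          refine Real.exp_le_exp.2 ?_
          rw [← mul_div_assoc, div_le_one hN]
          linarith
      _ ≤ 3 := by
          have := Real.exp_one_lt_d9
          linarith
  have hpot : pot 𝒰 V ≤ 12 * w * μ * k / N := by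
    refine hV2.trans ?_
    have h2 : 4 * (w : ℝ) / N * μ * k * (1 + 6 * w / N) ^ k ≤ 4 * w / N * μ * k * 3 :=
      mul_le_mul_of_nonneg_left hexp (by positivity)
    refine h2.trans (le_of_eq ?_)
    ring
  -- loads
  set ld : Fin N → ℝ := fun y => ∑ U ∈ 𝒰.filter (fun U => U y ≠ none),
    (1 / 2 : ℝ) ^ (supp U \ V).card with hld
  have hld0 : ∀ y, 0 ≤ ld y := fun y => sum_nonneg fun U _ => by positivity
  have hldsum : ∑ y ∈ V, ld y = pot 𝒰 V := by
    have h2 : ∀ y ∈ V, ld y = ∑ U ∈ 𝒰, if y ∈ supp U then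
        (1 / 2 : ℝ) ^ (supp U \ V).card else 0 := by
      intro y _
      rw [hld]
      simp only
      rw [sum_filter]
      refine sum_congr rfl fun U _ => ?_
      by_cases h3 : y ∈ supp U
      · rw [if_pos h3, if_pos ((mem_supp U y).1 h3)]
      · rw [if_neg h3, if_neg (fun h4 => h3 ((mem_supp U y).2 h4))]
    rw [sum_congr rfl h2, sum_comm]
    unfold pot
    refine sum_congr rfl fun U _ => ?_
    rw [← sum_filter, sum_const, nsmul_eq_mul]
    have h3 : V.filter (fun y => y ∈ supp U) = supp U ∩ V := by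
      ext y
      simp only [mem_filter, mem_inter]
      exact and_comm
    rw [h3]
  set B := V.filter (fun y => 1 / (16 * (w : ℝ)) < ld y) with hB
  have hBV : B ⊆ V := filter_subset _ _
  have hBcard : (B.card : ℝ) * (1 / (16 * w)) ≤ pot 𝒰 V := by
    rw [← hldsum]
    calc (B.card : ℝ) * (1 / (16 * w)) = ∑ y ∈ B, (1 / (16 * (w : ℝ))) := by
          rw [sum_const, nsmul_eq_mul]
      _ ≤ ∑ y ∈ B, ld y := sum_le_sum fun y hy => (mem_filter.1 hy).2.le
      _ ≤ ∑ y ∈ V, ld y := sum_le_sum_of_subset_of_nonneg hBV fun y _ _ => hld0 y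
  have hB2 : 2 * B.card ≤ k := by
    have h2 : (B.card : ℝ) ≤ 16 * w * pot 𝒰 V := by
      have h3 : (B.card : ℝ) = 16 * w * ((B.card : ℝ) * (1 / (16 * w))) := by
        field_simp
      rw [h3]
      exact mul_le_mul_of_nonneg_left hBcard (by positivity)
    have h3 : 16 * (w : ℝ) * pot 𝒰 V ≤ 16 * w * (12 * w * μ * k / N) :=
      mul_le_mul_of_nonneg_left hpot (by positivity)
    have h4 : 16 * (w : ℝ) * (12 * w * μ * k / N) = k / 2 * (384 * w ^ 2 * μ / N) := by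
      ring
    have h5 : 384 * (w : ℝ) ^ 2 * μ / N ≤ 1 := by
      rw [div_le_one hN]
      exact hμ
    have h6 : (k : ℝ) / 2 * (384 * w ^ 2 * μ / N) ≤ k / 2 * 1 :=
      mul_le_mul_of_nonneg_left h5 (by positivity)
    have h7 : 2 * (B.card : ℝ) ≤ k := by linarith
    exact_mod_cast h7
  refine ⟨V \ B, ?_, ?_⟩
  · rw [card_sdiff_of_subset hBV, hV]
    omega
  · intro y hy
    obtain ⟨hy1, hy2⟩ := mem_sdiff.1 hy
    have h2 : ld y ≤ 1 / (16 * w) := by
      by_contra h3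
      exact hy2 (mem_filter.2 ⟨hy1, not_le.1 h3⟩)
    refine le_trans ?_ h2
    rw [hld]
    refine sum_le_sum fun U _ => ?_
    refine pow_le_pow_of_le_one (by norm_num) (by norm_num) ?_
    exact card_le_card (sdiff_subset_sdiff le_rfl sdiff_subset)

end MTV
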