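import Pool.Agent.Lib.MTV.Defs

/-!
# MTV.Spread (MP_e46137_lc): a spread family on vertices with small loads has large value

`𝒰`: a family (of the extremal pair), `V`: vertices with small loads, `ℳ`: a family of sets of size
`b` on `V` with `|ℳ| > B ^ b`, spread: at most `|ℳ| / B ^ |E|` members contain `E`.
Then some `𝒪 ⊆ ℳ` has `val (𝒰 ∪ 𝒪) ≥ val 𝒰 + 9 B / (2048 w)`.

Proof.  For `A` with `supp A ⊆ V`, `1 ≤ size A ≤ w`:
`∑_{U ∈ 𝒰, U meets A} (1/2) ^ |U \ A| ≤ ∑_{y ∈ A} ∑_{U ∋ y} (1/2) ^ |U \ V| ≤ w / (16 w) = 1/16`.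
Hence `A ∉ 𝒰` (else the term `U = A` is `1`) and `∑_{U ∈ 𝒰} pw A U ≤ wt A / 16` (`pw_eq`).
Let `𝒪 ⊆ ℳ` maximise `g(𝒪) = val 𝒪 - 4 ∑_{A ∈ 𝒪} ∑_{U ∈ 𝒰} pw A U` (`val_union`:
`val (𝒰 ∪ 𝒪) = val 𝒰 + g(𝒪)`), `μ = |𝒪| (1/2) ^ b`.
(1) `A ∈ ℳ \ 𝒪`: adding `A` does not increase `g` (`val_insert`):
    `wt A ≤ 4 ∑_{A' ∈ 𝒪} pw A A' + 4 ∑_U pw A U`, so `(3/4) wt A ≤ 4 ∑_{A' ∈ 𝒪} pw A A'`.
    Sum over `A ∈ ℳ \ 𝒪`: `(3/4) (1/2)^b |ℳ \ 𝒪| ≤ 4 ∑_{A' ∈ 𝒪} ∑_{A ∈ ℳ} pw A A'`.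
    For fixed `A'` (size `b`): `pw A A' ≤ (1/2) ^ (2 b) 2 ^ j` with `j = |A ∩ A'| ≥ 1`, and
    `2 ^ j ≤ 2 (2 ^ j - 1)` = twice the number of nonempty `Z ⊆ supp A ∩ supp A'`; so
    `∑_{A ∈ ℳ} pw A A' ≤ 2 (1/2)^(2b) ∑_{∅ ≠ Z ⊆ supp A'} #{A ∈ ℳ : Z ⊆ supp A}`, and
    `#{A ∈ ℳ : Z ⊆ supp A} ≤ 2 ^ |Z| |ℳ| / B ^ |Z|` (`2 ^ |Z|` colourings of `Z`).  Sum over `Z`:
    `((1 + 2 / B) ^ b - 1) |ℳ| ≤ (4 b / B) |ℳ|` (`2 b ≤ B`).  Together
    `∑_{A ∈ ℳ} pw A A' ≤ 8 b (1/2)^(2b) |ℳ| / B`.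
    If `2 |𝒪| ≤ |ℳ|`: `(3/8) (1/2)^b |ℳ| ≤ 32 b |𝒪| (1/2)^(2b) |ℳ| / B`, so `μ ≥ 3 B / (256 b)`.
    If `2 |𝒪| > |ℳ|`: `μ ≥ |ℳ| (1/2)^b / 2 ≥ (B/2)^b / 2 ≥ B / 4` (`B ≥ 2`).
    So `μ ≥ 3 B / (256 w)` in both cases.
(2) `A ∈ 𝒪`: removing `A` does not increase `g`: `wt A ≥ 4 ∑_{A' ∈ 𝒪} pw A A' + 4 ∑_U pw A U`.
    Sum over `A ∈ 𝒪`: with `Σ = ∑_{A, A' ∈ 𝒪} pw A A'`, `X = ∑_{A ∈ 𝒪} ∑_U pw A U ≤ μ / 16`:
    `μ ≥ 4 Σ + 4 X`, `g(𝒪) = μ - 2 Σ - 4 X ≥ μ - (μ - 4 X) / 2 - 4 X = μ / 2 - 2 X ≥ 3 μ / 8`.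
So `g(𝒪) ≥ (3/8) (3 B / (256 w)) = 9 B / (2048 w)`.
-/

namespace MTV

open Classical Finset MTX

variable {N : ℕ}

namespace SpreadAux

theorem load {w : ℕ} {𝒰 : Finset (PC N)} {V : Finset (Fin N)} (hw : 1 ≤ w)
    (hV : ∀ y ∈ V, ∑ U ∈ 𝒰.filter (fun U => U y ≠ none), (1 / 2 : ℝ) ^ (supp U \ V).card ≤
      1 / (16 * w)) {A : PC N} (hA : supp A ⊆ V) (hs : size A ≤ w) :
    ∑ U ∈ 𝒰.filter (fun U => ¬ Disjoint (supp A) (supp U)),
      (1 / 2 : ℝ) ^ (supp U \ supp A).card ≤ 1 / 16 := by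
  have hw0 : (0 : ℝ) < w := by exact_mod_cast hw
  have h1 : ∀ U ∈ 𝒰.filter (fun U => ¬ Disjoint (supp A) (supp U)),
      (1 / 2 : ℝ) ^ (supp U \ supp A).card ≤
        ∑ y ∈ supp A, if U y ≠ none then (1 / 2 : ℝ) ^ (supp U \ V).card else 0 := by
    intro U hU
    have hnd := (mem_filter.1 hU).2
    rw [Finset.not_disjoint_iff] at hnd
    obtain ⟨y, hyA, hyU⟩ := hnd
    have h2 : (1 / 2 : ℝ) ^ (supp U \ supp A).card ≤ (1 / 2 : ℝ) ^ (supp U \ V).card := by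
      apply pow_le_pow_of_le_one (by norm_num) (by norm_num)
      exact card_le_card (sdiff_subset_sdiff (subset_refl _) hA)
    refine h2.trans ?_
    have h3 := Finset.single_le_sum (s := supp A)
      (f := fun y => if U y ≠ none then (1 / 2 : ℝ) ^ (supp U \ V).card else 0)
      (fun i _ => by split_ifs <;> positivity) hyA
    rw [if_pos ((mem_supp U y).1 hyU)] at h3
    exact h3
  refine (sum_le_sum h1).trans ?_
  have h4 : ∑ U ∈ 𝒰.filter (fun U => ¬ Disjoint (supp A) (supp U)),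
      (∑ y ∈ supp A, if U y ≠ none then (1 / 2 : ℝ) ^ (supp U \ V).card else 0) ≤
      ∑ U ∈ 𝒰, (∑ y ∈ supp A, if U y ≠ none then (1 / 2 : ℝ) ^ (supp U \ V).card else 0) := by
    apply sum_le_sum_of_subset_of_nonneg (filter_subset _ _)
    intro U _ _
    exact sum_nonneg fun y _ => by split_ifs <;> positivity
  refine h4.trans ?_
  rw [sum_comm]
  have h5 : ∀ y ∈ supp A, (∑ U ∈ 𝒰, if U y ≠ none then (1 / 2 : ℝ) ^ (supp U \ V).card else 0) ≤
      1 / (16 * w) := by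
    intro y hy
    rw [← sum_filter]
    exact hV y (hA hy)
  refine (sum_le_sum h5).trans ?_
  rw [sum_const, nsmul_eq_mul, supp_card]
  have h6 : ((size A : ℕ) : ℝ) ≤ w := by exact_mod_cast hs
  rw [mul_one_div, div_le_div_iff₀ (by positivity) (by norm_num)]
  nlinarith

theorem load_pw {w : ℕ} {𝒰 : Finset (PC N)} {V : Finset (Fin N)} (hw : 1 ≤ w)
    (hV : ∀ y ∈ V, ∑ U ∈ 𝒰.filter (fun U => U y ≠ none), (1 / 2 : ℝ) ^ (supp U \ V).card ≤
      1 / (16 * w)) {A : PC N} (hA : supp A ⊆ V) (hs : size A ≤ w) :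
    ∑ U ∈ 𝒰, pw A U ≤ wt A / 16 := by
  have h1 : ∀ U ∈ 𝒰, pw A U ≤ if ¬ Disjoint (supp A) (supp U) then
      wt A * (1 / 2 : ℝ) ^ (supp U \ supp A).card else 0 := by
    intro U _
    by_cases hd : Disjoint (supp A) (supp U)
    · rw [if_neg (not_not.2 hd)]
      unfold pw
      rw [if_pos (Or.inr hd)]
    · rw [if_pos hd]
      by_cases he : A = U
      · unfold pw
        rw [if_pos (Or.inl he)]
        exact mul_nonneg (wt_pos A).le (by positivity)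
      · rw [pw_eq A U (by tauto)]
  refine (sum_le_sum h1).trans ?_
  rw [← sum_filter, ← mul_sum]
  have h2 := load hw hV hA hs
  have h3 := wt_pos A
  calc _ ≤ wt A * (1 / 16) := mul_le_mul_of_nonneg_left h2 h3.le
    _ = wt A / 16 := by ring

theorem not_mem {w : ℕ} {𝒰 : Finset (PC N)} {V : Finset (Fin N)} (hw : 1 ≤ w)
    (hV : ∀ y ∈ V, ∑ U ∈ 𝒰.filter (fun U => U y ≠ none), (1 / 2 : ℝ) ^ (supp U \ V).card ≤
      1 / (16 * w)) {A : PC N} (hA : supp A ⊆ V) (hs : size A ≤ w) (h1 : 1 ≤ size A) :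
    A ∉ 𝒰 := by
  intro hm
  have h2 := load hw hV hA hs
  have hne : ¬ Disjoint (supp A) (supp A) := by
    rw [disjoint_self]
    intro h
    have h3 : (supp A).card = 0 := by
      rw [show supp A = ∅ from h]
      exact card_empty
    rw [supp_card] at h3
    omega
  have h4 := Finset.single_le_sum
    (s := 𝒰.filter (fun U => ¬ Disjoint (supp A) (supp U)))
    (f := fun U => (1 / 2 : ℝ) ^ (supp U \ supp A).card)
    (fun i _ => by positivity) (mem_filter.2 ⟨hm, hne⟩)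
  rw [sdiff_self, Finset.bot_eq_empty, card_empty, pow_zero] at h4
  linarith

/-- the partial colouring of `Z` in which the vertices of `T` are `true` -/
noncomputable def E (Z T : Finset (Fin N)) : PC N :=
  fun v => if v ∈ Z then some (decide (v ∈ T)) else none

theorem supp_E (Z T : Finset (Fin N)) : supp (E Z T) = Z := by
  ext v
  rw [mem_supp]
  unfold E
  by_cases h : v ∈ Z
  · rw [if_pos h]
    simp [h]
  · rw [if_neg h]
    simp [h]

theorem size_E (Z T : Finset (Fin N)) : size (E Z T) = Z.card := by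
  rw [← supp_card, supp_E]

theorem count_Z {B : ℕ} {ℳ : Finset (PC N)} (hB : 1 ≤ B)
    (hspread : ∀ E : PC N, 1 ≤ size E →
      (ℳ.filter (fun A => Sub E A)).card * B ^ size E ≤ ℳ.card)
    {Z : Finset (Fin N)} (hZ : Z.Nonempty) :
    ((ℳ.filter (fun A => Z ⊆ supp A)).card : ℝ) ≤ (2 / B) ^ Z.card * ℳ.card := by
  have hsub : ℳ.filter (fun A => Z ⊆ supp A) ⊆
      Z.powerset.biUnion (fun T => ℳ.filter (fun A => Sub (E Z T) A)) := by
    intro A hA
    obtain ⟨hA1, hA2⟩ := mem_filter.1 hA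
    rw [mem_biUnion]
    refine ⟨Z.filter (fun v => A v = some true), mem_powerset.2 (filter_subset _ _),
      mem_filter.2 ⟨hA1, ?_⟩⟩
    intro v c hv
    unfold E at hv
    by_cases hvZ : v ∈ Z
    · rw [if_pos hvZ] at hv
      have hv' : decide (v ∈ Z.filter (fun v => A v = some true)) = c := by simpa using hv
      have hne : A v ≠ none := (mem_supp A v).1 (hA2 hvZ)
      obtain ⟨b, hb⟩ := Option.ne_none_iff_exists'.1 hne
      rw [hb]
      cases b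
      · rw [← hv']
        have : v ∉ Z.filter (fun v => A v = some true) := by
          intro h
          have := (mem_filter.1 h).2
          rw [hb] at this
          simp at this
        simp [this]
      · rw [← hv']
        have : v ∈ Z.filter (fun v => A v = some true) := mem_filter.2 ⟨hvZ, hb⟩
        simp [this]
    · rw [if_neg hvZ] at hv
      exact absurd hv (by simp)
  have h1 : (ℳ.filter (fun A => Z ⊆ supp A)).card * B ^ Z.card ≤ 2 ^ Z.card * ℳ.card := by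
    calc (ℳ.filter (fun A => Z ⊆ supp A)).card * B ^ Z.card
        ≤ (∑ T ∈ Z.powerset, (ℳ.filter (fun A => Sub (E Z T) A)).card) * B ^ Z.card :=
          Nat.mul_le_mul_right _ ((card_le_card hsub).trans card_biUnion_le)
      _ = ∑ T ∈ Z.powerset, (ℳ.filter (fun A => Sub (E Z T) A)).card * B ^ Z.card := by
          rw [sum_mul]
      _ ≤ ∑ T ∈ Z.powerset, ℳ.card := by
          apply sum_le_sum
          intro T _
          have h2 := hspread (E Z T) (by rw [size_E]; exact hZ.card_pos)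
          rw [size_E] at h2
          exact h2
      _ = 2 ^ Z.card * ℳ.card := by
          rw [sum_const, smul_eq_mul, card_powerset]
  have hBp : (0 : ℝ) < B := by exact_mod_cast hB
  have h3 : ((ℳ.filter (fun A => Z ⊆ supp A)).card : ℝ) * (B : ℝ) ^ Z.card ≤
      2 ^ Z.card * ℳ.card := by exact_mod_cast h1
  rw [div_pow, div_mul_eq_mul_div, le_div_iff₀ (by positivity)]
  exact h3

theorem pow_bound {b B : ℕ} (hB : 1 ≤ B) (hb : 2 * b ≤ B) :
    (1 + 2 / (B : ℝ)) ^ b - 1 ≤ 4 * b / B := by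
  have hBp : (0 : ℝ) < B := by exact_mod_cast hB
  set x : ℝ := 2 / B with hx
  have hx0 : 0 ≤ x := by positivity
  have hbx : (b : ℝ) * x ≤ 1 := by
    rw [hx, mul_div_assoc', div_le_one hBp]
    have : ((2 * b : ℕ) : ℝ) ≤ B := by exact_mod_cast hb
    push_cast at this
    linarith
  have hbx0 : 0 ≤ (b : ℝ) * x := by positivity
  have h1 : (1 + x) ^ b ≤ Real.exp (b * x) := by
    rw [Real.exp_nat_mul]
    apply pow_le_pow_left₀ (by positivity)
    have := Real.add_one_le_exp x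
    linarith
  have h2 := Real.abs_exp_sub_one_sub_id_le (x := (b : ℝ) * x) (by rw [abs_of_nonneg hbx0]; exact hbx)
  have h3 := (abs_le.1 h2).2
  have h4 : ((b : ℝ) * x) ^ 2 ≤ b * x := by
    nlinarith
  have h5 : 4 * (b : ℝ) / B = 2 * (b * x) := by
    rw [hx]
    ring
  rw [h5]
  linarith

theorem pair_bound {w b B : ℕ} {ℳ : Finset (PC N)} (hb : 1 ≤ b) (hbw : b ≤ w) (hB : 2 * w ≤ B)
    (hsz : ∀ A ∈ ℳ, size A = b)
    (hspread : ∀ E : PC N, 1 ≤ size E →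
      (ℳ.filter (fun A => Sub E A)).card * B ^ size E ≤ ℳ.card)
    {A' : PC N} (hA' : size A' = b) :
    ∑ A ∈ ℳ, pw A A' ≤ 8 * b / B * ((1 / 2) ^ (2 * b) * ℳ.card) := by
  have hB1 : 1 ≤ B := by omega
  have hBp : (0 : ℝ) < B := by exact_mod_cast hB1
  have h1 : ∀ A ∈ ℳ, pw A A' ≤ 2 * (1 / 2) ^ (2 * b) *
      ∑ Z ∈ (supp A').powerset.filter (fun Z => Z.Nonempty), if Z ⊆ supp A then (1 : ℝ) else 0 := by
    intro A hA
    have hnn : 0 ≤ 2 * (1 / 2 : ℝ) ^ (2 * b) *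
        ∑ Z ∈ (supp A').powerset.filter (fun Z => Z.Nonempty),
          if Z ⊆ supp A then (1 : ℝ) else 0 :=
      mul_nonneg (by positivity) (sum_nonneg fun Z _ => by split_ifs <;> norm_num)
    by_cases hc : A = A' ∨ Disjoint (supp A) (supp A')
    · unfold pw
      rw [if_pos hc]
      exact hnn
    · unfold pw
      rw [if_neg hc]
      push Not at hc
      have hnd := hc.2
      set I := supp A ∩ supp A' with hI
      have hIne : I.Nonempty := by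
        rw [Finset.not_disjoint_iff] at hnd
        obtain ⟨y, h1, h2⟩ := hnd
        exact ⟨y, mem_inter.2 ⟨h1, h2⟩⟩
      have hIpos : 1 ≤ I.card := hIne.card_pos
      have hcard : (supp A ∪ supp A').card + I.card = 2 * b := by
        rw [hI, card_union_add_card_inter, supp_card, supp_card, hsz A hA, hA']
        ring
      have hsum : ∑ Z ∈ (supp A').powerset.filter (fun Z => Z.Nonempty),
          (if Z ⊆ supp A then (1 : ℝ) else 0) = 2 ^ I.card - 1 := by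
        rw [← sum_filter, sum_const, nsmul_eq_mul, mul_one, filter_filter]
        have hset : (supp A').powerset.filter (fun Z => Z.Nonempty ∧ Z ⊆ supp A) =
            I.powerset.erase ∅ := by
          ext Z
          rw [mem_filter, mem_powerset, mem_erase, mem_powerset, hI, subset_inter_iff,
            nonempty_iff_ne_empty]
          tauto
        rw [hset, card_erase_of_mem (empty_mem_powerset _), card_powerset, Nat.cast_sub
          (Nat.one_le_two_pow)]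
        push_cast
        ring
      rw [hsum]
      have hp : (1 / 2 : ℝ) ^ (supp A ∪ supp A').card = (1 / 2) ^ (2 * b) * 2 ^ I.card := by
        rw [← hcard, pow_add, mul_assoc, ← mul_pow]
        norm_num
      rw [hp]
      have h2j : (2 : ℝ) ^ I.card ≤ 2 * (2 ^ I.card - 1) := by
        have : (2 : ℝ) ^ 1 ≤ 2 ^ I.card := pow_le_pow_right₀ (by norm_num) hIpos
        linarith
      calc (1 / 2 : ℝ) ^ (2 * b) * 2 ^ I.card ≤ (1 / 2) ^ (2 * b) * (2 * (2 ^ I.card - 1)) :=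
            mul_le_mul_of_nonneg_left h2j (by positivity)
        _ = 2 * (1 / 2) ^ (2 * b) * (2 ^ I.card - 1) := by ring
  refine (sum_le_sum h1).trans ?_
  rw [← mul_sum, sum_comm]
  have h2 : ∀ Z ∈ (supp A').powerset.filter (fun Z => Z.Nonempty),
      (∑ A ∈ ℳ, if Z ⊆ supp A then (1 : ℝ) else 0) ≤ (2 / B) ^ Z.card * ℳ.card := by
    intro Z hZ
    rw [← sum_filter, sum_const, nsmul_eq_mul, mul_one]
    exact count_Z hB1 hspread (mem_filter.1 hZ).2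
  have h3 : ∑ Z ∈ (supp A').powerset.filter (fun Z => Z.Nonempty), (2 / (B : ℝ)) ^ Z.card =
      (1 + 2 / (B : ℝ)) ^ b - 1 := by
    have h4 := Finset.sum_pow_mul_eq_add_pow (2 / (B : ℝ)) 1 (supp A')
    simp only [one_pow, mul_one] at h4
    rw [supp_card, hA'] at h4
    have h5 : (supp A').powerset.filter (fun Z => Z.Nonempty) = (supp A').powerset.erase ∅ := by
      ext Z
      rw [mem_filter, mem_erase, nonempty_iff_ne_empty]
      tauto
    rw [h5, add_comm 1 (2 / (B : ℝ)), ← h4,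
      ← add_sum_erase _ _ (empty_mem_powerset (supp A')), card_empty, pow_zero]
    ring
  calc 2 * (1 / 2) ^ (2 * b) * ∑ Z ∈ (supp A').powerset.filter (fun Z => Z.Nonempty),
        (∑ A ∈ ℳ, if Z ⊆ supp A then (1 : ℝ) else 0)
      ≤ 2 * (1 / 2) ^ (2 * b) * ∑ Z ∈ (supp A').powerset.filter (fun Z => Z.Nonempty),
        (2 / (B : ℝ)) ^ Z.card * (ℳ.card : ℝ) := by
        apply mul_le_mul_of_nonneg_left (sum_le_sum h2) (by positivity)
    _ = 2 * (1 / 2) ^ (2 * b) * (((1 + 2 / (B : ℝ)) ^ b - 1) * ℳ.card) := by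
        rw [← sum_mul, h3]
    _ ≤ 2 * (1 / 2) ^ (2 * b) * ((4 * b / B) * ℳ.card) := by
        apply mul_le_mul_of_nonneg_left _ (by positivity)
        exact mul_le_mul_of_nonneg_right (pow_bound hB1 (by omega)) (by positivity)
    _ = 8 * b / B * ((1 / 2) ^ (2 * b) * ℳ.card) := by ring

end SpreadAux

theorem spread {w b B : ℕ} {𝒰 : Finset (PC N)} {V : Finset (Fin N)} (hw : 1 ≤ w)
    (hV : ∀ y ∈ V, ∑ U ∈ 𝒰.filter (fun U => U y ≠ none), (1 / 2 : ℝ) ^ (supp U \ V).card ≤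
      1 / (16 * w))
    (ℳ : Finset (PC N)) (hb : 1 ≤ b) (hbw : b ≤ w) (hB : 2 * w ≤ B)
    (hsz : ∀ A ∈ ℳ, size A = b) (hsupp : ∀ A ∈ ℳ, supp A ⊆ V)
    (hspread : ∀ E : PC N, 1 ≤ size E →
      (ℳ.filter (fun A => Sub E A)).card * B ^ size E ≤ ℳ.card)
    (hcard : B ^ b < ℳ.card) :
    ∃ 𝒪 ⊆ ℳ, val 𝒰 + 9 * B / (2048 * w) ≤ val (𝒰 ∪ 𝒪) := by
  have hw0 : (0 : ℝ) < w := by exact_mod_cast hw
  have hB1 : 1 ≤ B := by omega
  have hBp : (0 : ℝ) < B := by exact_mod_cast hB1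
  have hb0 : (0 : ℝ) < b := by exact_mod_cast hb
  have hbw' : (b : ℝ) ≤ w := by exact_mod_cast hbw
  have hBw : 2 * (w : ℝ) ≤ B := by exact_mod_cast hB
  have hw1 : (1 : ℝ) ≤ w := by exact_mod_cast hw
  have hL : ∀ A ∈ ℳ, ∑ U ∈ 𝒰, pw A U ≤ wt A / 16 := fun A hA =>
    SpreadAux.load_pw hw hV (hsupp A hA) (by rw [hsz A hA]; exact hbw)
  have hnot : ∀ A ∈ ℳ, A ∉ 𝒰 := fun A hA =>
    SpreadAux.not_mem hw hV (hsupp A hA) (by rw [hsz A hA]; exact hbw) (by rw [hsz A hA]; exact hb)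
  have hwt : ∀ A ∈ ℳ, wt A = (1 / 2 : ℝ) ^ b := by
    intro A hA
    unfold wt
    rw [hsz A hA]
  obtain ⟨𝒪, h𝒪, hmax⟩ := Finset.exists_max_image ℳ.powerset (fun 𝒪 => val (𝒰 ∪ 𝒪))
    ⟨∅, empty_mem_powerset _⟩
  rw [mem_powerset] at h𝒪
  refine ⟨𝒪, h𝒪, ?_⟩
  have hdis : Disjoint 𝒰 𝒪 := by
    rw [Finset.disjoint_right]
    exact fun A hA => hnot A (h𝒪 hA)
  set μ : ℝ := 𝒪.card * (1 / 2 : ℝ) ^ b with hμ
  set X : ℝ := ∑ A ∈ 𝒪, ∑ U ∈ 𝒰, pw A U with hX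
  set S : ℝ := ∑ A ∈ 𝒪, ∑ A' ∈ 𝒪, pw A A' with hS
  have hsumwt : ∑ A ∈ 𝒪, wt A = μ := by
    rw [sum_congr rfl (fun A hA => hwt A (h𝒪 hA)), sum_const, nsmul_eq_mul]
  have hval : val (𝒰 ∪ 𝒪) = val 𝒰 + μ - 2 * S - 4 * X := by
    rw [val_union hdis]
    have : val 𝒪 = μ - 2 * S := by
      unfold val
      rw [sum_sub_distrib, hsumwt, ← mul_sum]
    rw [this]
    ring
  have hXle : X ≤ μ / 16 := by
    rw [← hsumwt, sum_div]
    exact sum_le_sum fun A hA => hL A (h𝒪 hA)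
  -- removing
  have hrem : 4 * S + 4 * X ≤ μ := by
    have h1 : ∀ A ∈ 𝒪, 4 * (∑ A' ∈ 𝒪, pw A A') + 4 * (∑ U ∈ 𝒰, pw A U) ≤ wt A := by
      intro A hA
      have hAn : A ∉ 𝒰 := hnot A (h𝒪 hA)
      have hm := hmax (𝒪.erase A) (mem_powerset.2 ((erase_subset _ _).trans h𝒪))
      have hAn2 : A ∉ 𝒰 ∪ 𝒪.erase A := by
        rw [mem_union, not_or]
        exact ⟨hAn, notMem_erase _ _⟩
      have hins : insert A (𝒰 ∪ 𝒪.erase A) = 𝒰 ∪ 𝒪 := by
        rw [← union_insert, insert_erase hA]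
      have hv := val_insert hAn2
      rw [hins] at hv
      have hd2 : Disjoint 𝒰 (𝒪.erase A) := Finset.disjoint_of_subset_right (erase_subset _ _) hdis
      rw [sum_union hd2] at hv
      have he : ∑ V ∈ 𝒪.erase A, pw A V = ∑ A' ∈ 𝒪, pw A A' := by
        rw [← add_sum_erase 𝒪 (fun V => pw A V) hA, pw_self, zero_add]
      rw [he] at hv
      linarith
    have h2 := sum_le_sum h1
    rw [sum_add_distrib, ← mul_sum, ← mul_sum, hsumwt] at h2
    exact h2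
  -- adding
  have hadd : 3 / 4 * ((1 / 2 : ℝ) ^ b * (ℳ.card - 𝒪.card)) ≤
      4 * (𝒪.card * (8 * b / B * ((1 / 2) ^ (2 * b) * ℳ.card))) := by
    have h1 : ∀ A ∈ ℳ \ 𝒪, 3 / 4 * (1 / 2 : ℝ) ^ b ≤ 4 * ∑ A' ∈ 𝒪, pw A A' := by
      intro A hA
      obtain ⟨hAM, hAO⟩ := mem_sdiff.1 hA
      have hAn : A ∉ 𝒰 := hnot A hAM
      have hm := hmax (insert A 𝒪) (mem_powerset.2 (insert_subset hAM h𝒪))
      have hAn2 : A ∉ 𝒰 ∪ 𝒪 := by
        rw [mem_union, not_or]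
        exact ⟨hAn, hAO⟩
      have hv := val_insert hAn2
      rw [← union_insert] at hv
      rw [sum_union hdis] at hv
      have h2 := hL A hAM
      rw [hwt A hAM] at h2 hv
      linarith
    have h2 := sum_le_sum h1
    rw [sum_const, nsmul_eq_mul, card_sdiff_of_subset h𝒪, Nat.cast_sub (card_le_card h𝒪),
      ← mul_sum, sum_comm] at h2
    have h3 : ∑ A' ∈ 𝒪, ∑ A ∈ ℳ \ 𝒪, pw A A' ≤
        ∑ A' ∈ 𝒪, 8 * b / B * ((1 / 2 : ℝ) ^ (2 * b) * ℳ.card) := by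
      apply sum_le_sum
      intro A' hA'
      refine (sum_le_sum_of_subset_of_nonneg sdiff_subset
        (fun A _ _ => pw_nonneg A A')).trans ?_
      exact SpreadAux.pair_bound hb hbw hB hsz hspread (hsz A' (h𝒪 hA'))
    rw [sum_const, nsmul_eq_mul] at h3
    calc _ = ((ℳ.card : ℝ) - 𝒪.card) * (3 / 4 * (1 / 2) ^ b) := by ring
      _ ≤ _ := h2
      _ ≤ _ := mul_le_mul_of_nonneg_left h3 (by norm_num)
  have hMpos : (0 : ℝ) < ℳ.card := by
    have : 0 < ℳ.card := lt_of_le_of_lt (Nat.zero_le _) hcard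
    exact_mod_cast this
  have hpb : (0 : ℝ) < (1 / 2 : ℝ) ^ b := by positivity
  have hμlow : 3 * B / (256 * w) ≤ μ := by
    by_cases hc : 2 * 𝒪.card ≤ ℳ.card
    · have hc' : 2 * (𝒪.card : ℝ) ≤ ℳ.card := by exact_mod_cast hc
      have h1 : 3 / 8 * ((1 / 2 : ℝ) ^ b * ℳ.card) ≤
          32 * b / B * μ * ((1 / 2 : ℝ) ^ b * ℳ.card) := by
        calc 3 / 8 * ((1 / 2 : ℝ) ^ b * ℳ.card)
            ≤ 3 / 4 * ((1 / 2 : ℝ) ^ b * (ℳ.card - 𝒪.card)) := by
              have : (ℳ.card : ℝ) / 2 ≤ ℳ.card - 𝒪.card := by linarith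
              have := mul_le_mul_of_nonneg_left this hpb.le
              linarith
          _ ≤ _ := hadd
          _ = 32 * b / B * μ * ((1 / 2 : ℝ) ^ b * ℳ.card) := by
              rw [hμ, two_mul, pow_add]
              ring
      have h2 : (3 / 8 : ℝ) ≤ 32 * b / B * μ :=
        le_of_mul_le_mul_right h1 (by positivity)
      have hμ0 : 0 ≤ μ := by positivity
      rw [div_le_iff₀ (by positivity)]
      have h3 : 3 / 8 * (B : ℝ) ≤ 32 * b * μ := by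
        have := mul_le_mul_of_nonneg_right h2 hBp.le
        calc 3 / 8 * (B : ℝ) ≤ 32 * b / B * μ * B := this
          _ = 32 * b * μ := by field_simp
      have h4 : 32 * (b : ℝ) * μ ≤ 32 * w * μ := by
        apply mul_le_mul_of_nonneg_right _ hμ0
        linarith
      linarith
    · have hc' : (ℳ.card : ℝ) ≤ 2 * 𝒪.card := by
        have : ℳ.card ≤ 2 * 𝒪.card := by omega
        exact_mod_cast this
      have hcard' : (B : ℝ) ^ b ≤ ℳ.card := by exact_mod_cast hcard.le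
      have h1 : ((B : ℝ) / 2) ^ b / 2 ≤ μ := by
        rw [hμ]
        have h2 : ((B : ℝ) / 2) ^ b = B ^ b * (1 / 2) ^ b := by
          rw [← mul_pow]
          ring_nf
        rw [h2]
        have h3 := mul_le_mul_of_nonneg_right (hcard'.trans hc') hpb.le
        linarith
      have h2 : (B : ℝ) / 2 ≤ ((B : ℝ) / 2) ^ b := by
        have hge : 1 ≤ (B : ℝ) / 2 := by linarith
        calc (B : ℝ) / 2 = ((B : ℝ) / 2) ^ 1 := (pow_one _).symm
          _ ≤ _ := pow_le_pow_right₀ hge hb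
      have h3 : 3 * (B : ℝ) / (256 * w) ≤ B / 4 := by
        rw [div_le_div_iff₀ (by positivity) (by norm_num)]
        nlinarith
      linarith
  have hfin : 9 * (B : ℝ) / (2048 * w) = 3 / 8 * (3 * B / (256 * w)) := by
    field_simp
    norm_num
  rw [hval, hfin]
  nlinarith

end MTV
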