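import Pool.Agent.Lib.MTV.Ext
import Pool.Agent.Lib.MTV.Spread
import Pool.Agent.Lib.MTV.Core

/-!
# MTV.Rel (MP_e46137_lc): few minimal extensions relative to the extremal set of colourings
-/

namespace MTV

open Classical Finset MTX

variable {N N' : ℕ}

namespace RelAux

/-- a partial colouring of `Fin N'` as a partial colouring of the image of `e` -/
noncomputable def push (e : Fin N' ↪ Fin N) (A : PC N') : PC N := fun v =>
  if h : ∃ x, e x = v then A h.choose else none

theorem push_apply (e : Fin N' ↪ Fin N) (A : PC N') (x : Fin N') : push e A (e x) = A x := by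
  unfold push
  have h : ∃ x', e x' = e x := ⟨x, rfl⟩
  rw [dif_pos h]
  exact congrArg A (e.injective h.choose_spec)

theorem push_none (e : Fin N' ↪ Fin N) (A : PC N') {v : Fin N} (h : ∀ x, e x ≠ v) :
    push e A v = none := by
  unfold push
  rw [dif_neg]
  rintro ⟨x, hx⟩
  exact h x hx

theorem push_inj (e : Fin N' ↪ Fin N) : Function.Injective (push e) := by
  intro A A' h
  funext x
  rw [← push_apply e A x, h, push_apply]

theorem supp_push (e : Fin N' ↪ Fin N) (A : PC N') : supp (push e A) = (supp A).map e := by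
  ext v
  rw [mem_supp, mem_map]
  constructor
  · intro h
    by_cases h1 : ∃ x, e x = v
    · obtain ⟨x, rfl⟩ := h1
      rw [push_apply] at h
      exact ⟨x, (mem_supp A x).2 h, rfl⟩
    · exact absurd (push_none e A fun x hx => h1 ⟨x, hx⟩) h
  · rintro ⟨x, hx, rfl⟩
    rw [push_apply]
    exact (mem_supp A x).1 hx

theorem size_push (e : Fin N' ↪ Fin N) (A : PC N') : size (push e A) = size A := by
  rw [← supp_card, supp_push, card_map, supp_card]

theorem agree_push (e : Fin N' ↪ Fin N) (A : PC N') (χ : Col N) :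
    Agree (push e A) χ ↔ Agree A (fun x => χ (e x)) := by
  constructor
  · intro h x c hc
    exact h (e x) c (by rw [push_apply]; exact hc)
  · intro h v c hc
    by_cases h1 : ∃ x, e x = v
    · obtain ⟨x, rfl⟩ := h1
      rw [push_apply] at hc
      exact h x c hc
    · rw [push_none e A fun x hx => h1 ⟨x, hx⟩] at hc
      exact absurd hc (by simp)

/-- the part of `A` outside `E` -/
noncomputable def diff (A E : PC N') : PC N' := fun v => if E v = none then A v else none

theorem diff_supp {A E : PC N'} : supp (diff A E) = supp A \ supp E := by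
  ext v
  rw [mem_sdiff, mem_supp, mem_supp, mem_supp]
  unfold diff
  by_cases h : E v = none
  · rw [if_pos h]
    exact ⟨fun h1 => ⟨h1, fun h2 => h2 h⟩, fun h1 => h1.1⟩
  · rw [if_neg h]
    exact ⟨fun h1 => absurd rfl h1, fun h1 => absurd h h1.2⟩

theorem supp_sub {A E : PC N'} (h : Sub E A) : supp E ⊆ supp A := by
  intro v hv
  rw [mem_supp] at hv ⊢
  obtain ⟨c, hc⟩ := Option.ne_none_iff_exists'.1 hv
  rw [h v c hc]
  simp

theorem size_diff {A E : PC N'} (h : Sub E A) : size (diff A E) = size A - size E := by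
  rw [← supp_card, diff_supp, card_sdiff_of_subset (supp_sub h), supp_card, supp_card]

theorem join_diff {A E : PC N'} (h : Sub E A) : join E (diff A E) = A := by
  funext v
  unfold join diff
  by_cases h1 : E v = none
  · rw [if_pos h1, if_pos h1]
  · rw [if_neg h1]
    obtain ⟨c, hc⟩ := Option.ne_none_iff_exists'.1 h1
    rw [hc, h v c hc]

theorem sub_eq_of_size {A E : PC N'} (h : Sub E A) (hs : size A ≤ size E) : E = A := by
  have h1 : supp E = supp A := eq_of_subset_of_card_le (supp_sub h) hs
  funext v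
  by_cases h2 : E v = none
  · have h3 : v ∉ supp A := by
      rw [← h1, mem_supp]
      exact fun h4 => h4 h2
    rw [mem_supp] at h3
    rw [h2]
    by_contra h4
    exact h3 fun h5 => h4 h5.symm
  · obtain ⟨c, hc⟩ := Option.ne_none_iff_exists'.1 h2
    rw [hc, h v c hc]

theorem size_join {D E : PC N'} (h : ∀ v, D v = none ∨ E v = none) :
    size (join D E) = size D + size E := by
  have h1 : supp (join D E) = supp D ∪ supp E := by
    ext v
    rw [mem_union, mem_supp, mem_supp, mem_supp]
    unfold join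
    by_cases h2 : D v = none
    · rw [if_pos h2]
      exact ⟨fun h3 => Or.inr h3, fun h3 => h3.resolve_left fun h4 => h4 h2⟩
    · rw [if_neg h2]
      exact ⟨fun h3 => Or.inl h3, fun _ => h2⟩
  have h2 : Disjoint (supp D) (supp E) := by
    rw [disjoint_left]
    intro v hv hv'
    rw [mem_supp] at hv hv'
    rcases h v with h3 | h3
    · exact hv h3
    · exact hv' h3
  rw [← supp_card, h1, card_union_of_disjoint h2, supp_card, supp_card]

end RelAux

open RelAux

/-- **Few minimal extensions**, relative to the extremal pair. -/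
theorem rel_ext {w L B θ : ℕ} (e : Fin N' ↪ Fin N) {X : Finset (Col N)} {𝒰 : Finset (PC N)}
    (hw : 1 ≤ w) (hL : 1 ≤ L) (hU : 𝒰 ⊆ Fam w X)
    (hext : ∀ X' ⊆ X, X'.Nonempty → ∀ 𝒱 ⊆ Fam w X',
      val 𝒱 + 3 * Real.log X'.card ≤ val 𝒰 + 3 * Real.log X.card)
    (hV : ∀ y ∈ (univ : Finset (Fin N')).map e, ∑ U ∈ 𝒰.filter (fun U => U y ≠ none),
      (1 / 2 : ℝ) ^ (supp U \ (univ : Finset (Fin N')).map e).card ≤ 1 / (16 * w))
    (hB : B = 512 * w * L) {X' : Finset (Col N)} (hX' : X' ⊆ X) {F : Finset (PC N')}
    {Err : Finset (Col N)} (hp : PairI (fun χ : Col N => fun x => χ (e x)) w θ X' F Err)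
    (hθ : X.card ≤ θ * 2 ^ L) : FewExt w B F := by
  intro D hD a ha haw
  by_contra hcon
  rw [not_le] at hcon
  obtain ⟨ℳ, hℳ⟩ : ∃ ℳ, ℳ = univ.filter (fun A : PC N' => MinExt F D A ∧ size A = a) := ⟨_, rfl⟩
  rw [← hℳ] at hcon
  have hmem : ∀ A, A ∈ ℳ ↔ MinExt F D A ∧ size A = a := by
    intro A
    rw [hℳ, mem_filter]
    exact ⟨fun h => h.2, fun h => ⟨mem_univ _, h⟩⟩
  have hB1 : 1 ≤ B := by
    rw [hB]
    exact Nat.succ_le_of_lt (by positivity)
  -- the core
  obtain ⟨E, -, hE⟩ := exists_max_image (univ : Finset (PC N'))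
    (fun E => (ℳ.filter (fun A => Sub E A)).card * B ^ size E) ⟨emp N', mem_univ _⟩
  have hmaxE : ∀ E', (ℳ.filter (fun A => Sub E' A)).card * B ^ size E' ≤
      (ℳ.filter (fun A => Sub E A)).card * B ^ size E := fun E' => hE E' (mem_univ _)
  have h0 : ℳ.card ≤ (ℳ.filter (fun A => Sub E A)).card * B ^ size E := by
    have h1 := hmaxE (emp N')
    rw [size_emp, pow_zero, mul_one] at h1
    refine le_trans (card_le_card fun A hA => ?_) h1
    exact mem_filter.2 ⟨hA, fun v c hc => absurd hc (by simp [emp])⟩
  have hne : (ℳ.filter (fun A => Sub E A)).Nonempty := by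
    rw [← card_pos]
    by_contra h1
    rw [Nat.eq_zero_of_not_pos h1, zero_mul] at h0
    omega
  obtain ⟨A₀, hA₀⟩ := hne
  obtain ⟨hA₀m, hEA₀⟩ := mem_filter.1 hA₀
  obtain ⟨hA₀1, hA₀2⟩ := (hmem A₀).1 hA₀m
  have hEa : size E < a := by
    have h1 := size_mono hEA₀
    rw [hA₀2] at h1
    rcases Nat.lt_or_ge (size E) a with h2 | h2
    · exact h2
    · exfalso
      have h3 : size E = a := le_antisymm h1 h2
      have h4 : (ℳ.filter (fun A => Sub E A)).card ≤ 1 := by
        rw [card_le_one]
        intro A hA A' hA'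
        obtain ⟨h5, h6⟩ := mem_filter.1 hA
        obtain ⟨h7, h8⟩ := mem_filter.1 hA'
        rw [← sub_eq_of_size h6 (by rw [((hmem A).1 h5).2, h3]),
          ← sub_eq_of_size h8 (by rw [((hmem A').1 h7).2, h3])]
      have h5 : (ℳ.filter (fun A => Sub E A)).card * B ^ size E ≤ 1 * B ^ a := by
        rw [h3]
        exact Nat.mul_le_mul_right _ h4
      omega
  obtain ⟨b, hb⟩ : ∃ b, b = a - size E := ⟨_, rfl⟩
  have hb1 : 1 ≤ b := by omega
  have hbw : b ≤ w := by omega
  have hDE : join D E ∉ F := by
    intro h1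
    have h2 := hA₀1.2.2 E hEA₀ h1
    rw [h2, hA₀2] at hEa
    omega
  have hDEw : size (join D E) ≤ w := by
    have := size_join_le D E
    omega
  -- the colourings which extend the core
  obtain ⟨X'', hX''⟩ : ∃ X'', X'' = X'.filter
    (fun χ => χ ∉ Err ∧ Agree (join D E) (fun x => χ (e x))) := ⟨_, rfl⟩
  have hX''θ : θ < X''.card := by
    by_contra h1
    refine hDE (hp.cl _ hDEw (le_trans (card_le_card fun χ hχ => ?_) (not_lt.1 h1)))
    rw [hX'']
    simp only [mem_filter] at hχ ⊢
    exact hχ
  have hX''X : X'' ⊆ X := by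
    rw [hX'']
    exact (filter_subset _ _).trans hX'
  have hX''ne : X''.Nonempty := card_pos.1 (by omega)
  -- the link
  obtain ⟨𝒩, h𝒩⟩ : ∃ 𝒩, 𝒩 = (ℳ.filter (fun A => Sub E A)).image
    (fun A => push e (diff A E)) := ⟨_, rfl⟩
  have hinj : Set.InjOn (fun A => push e (diff A E))
      ((ℳ.filter (fun A => Sub E A)) : Finset (PC N')) := by
    intro A hA A' hA' h
    have h1 : diff A E = diff A' E := push_inj e h
    rw [← join_diff (mem_filter.1 (mem_coe.1 hA)).2, h1,
      join_diff (mem_filter.1 (mem_coe.1 hA')).2]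
  have h𝒩card : 𝒩.card = (ℳ.filter (fun A => Sub E A)).card := by
    rw [h𝒩]
    exact card_image_of_injOn hinj
  have h𝒩mem : ∀ A'' ∈ 𝒩, ∃ A ∈ ℳ, Sub E A ∧ A'' = push e (diff A E) := by
    intro A'' hA''
    rw [h𝒩, mem_image] at hA''
    obtain ⟨A, hA, rfl⟩ := hA''
    exact ⟨A, (mem_filter.1 hA).1, (mem_filter.1 hA).2, rfl⟩
  have hspread := spread (w := w) (b := b) (B := B) (𝒰 := 𝒰) hw hV 𝒩 hb1 hbw
    (by
      rw [hB]
      calc 2 * w ≤ 512 * w := by omega
        _ = 512 * w * 1 := (mul_one _).symm
        _ ≤ 512 * w * L := Nat.mul_le_mul_left _ hL)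
    (by
      intro A'' hA''
      obtain ⟨A, hA, hEA, rfl⟩ := h𝒩mem A'' hA''
      rw [size_push, size_diff hEA, ((hmem A).1 hA).2, hb])
    (by
      intro A'' hA''
      obtain ⟨A, hA, hEA, rfl⟩ := h𝒩mem A'' hA''
      rw [supp_push]
      exact map_subset_map.2 (subset_univ _))
    (by
      intro E'' hE''
      rcases (𝒩.filter (fun A => Sub E'' A)).eq_empty_or_nonempty with h1 | ⟨A₁, hA₁⟩
      · rw [h1, card_empty, zero_mul]
        exact Nat.zero_le _
      obtain ⟨hA₁m, hA₁s⟩ := mem_filter.1 hA₁
      -- `E''` as a partial colouring of `Fin N'`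
      obtain ⟨E', hE'⟩ : ∃ E' : PC N', E' = fun x => E'' (e x) := ⟨_, rfl⟩
      have hpush : push e E' = E'' := by
        funext v
        by_cases h1 : ∃ x, e x = v
        · obtain ⟨x, rfl⟩ := h1
          rw [push_apply, hE']
        · rw [push_none e E' fun x hx => h1 ⟨x, hx⟩]
          by_contra h2
          have h2' : E'' v ≠ none := fun h3 => h2 h3.symm
          obtain ⟨c, hc⟩ := Option.ne_none_iff_exists'.1 h2'
          have h3 := hA₁s v c hc
          obtain ⟨A, -, -, rfl⟩ := h𝒩mem A₁ hA₁m
          rw [push_none e _ fun x hx => h1 ⟨x, hx⟩] at h3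
          exact absurd h3 (by simp)
      have hdisj : ∀ v, E v = none ∨ E' v = none := by
        intro v
        by_cases h1 : E v = none
        · exact Or.inl h1
        · right
          by_contra h2
          obtain ⟨c, hc⟩ := Option.ne_none_iff_exists'.1 h2
          have h3 := hA₁s (e v) c (by rw [← hpush, push_apply]; exact hc)
          obtain ⟨A, -, -, rfl⟩ := h𝒩mem A₁ hA₁m
          rw [push_apply] at h3
          unfold diff at h3
          rw [if_neg h1] at h3
          exact absurd h3 (by simp)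
      have hsz : size E'' = size E' := by rw [← hpush, size_push]
      have hcard : (𝒩.filter (fun A => Sub E'' A)).card ≤
          (ℳ.filter (fun A => Sub (join E E') A)).card := by
        have h1 : 𝒩.filter (fun A => Sub E'' A) ⊆
            (ℳ.filter (fun A => Sub (join E E') A)).image (fun A => push e (diff A E)) := by
          intro A'' hA''
          obtain ⟨h2, h3⟩ := mem_filter.1 hA''
          obtain ⟨A, hA, hEA, rfl⟩ := h𝒩mem A'' h2
          refine mem_image.2 ⟨A, mem_filter.2 ⟨hA, join_sub hEA ?_⟩, rfl⟩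
          intro v c hc
          have h4 := h3 (e v) c (by rw [← hpush, push_apply]; exact hc)
          rw [push_apply] at h4
          unfold diff at h4
          by_cases h5 : E v = none
          · rwa [if_pos h5] at h4
          · rw [if_neg h5] at h4
            exact absurd h4 (by simp)
        exact (card_le_card h1).trans card_image_le
      have h1 := hmaxE (join E E')
      rw [size_join hdisj, pow_add] at h1
      rw [h𝒩card, hsz]
      have h2 : 0 < B ^ size E := by positivity
      refine Nat.le_of_mul_le_mul_right (c := B ^ size E) ?_ h2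
      calc (𝒩.filter (fun A => Sub E'' A)).card * B ^ size E' * B ^ size E
          ≤ (ℳ.filter (fun A => Sub (join E E') A)).card * B ^ size E' * B ^ size E :=
            Nat.mul_le_mul_right _ (Nat.mul_le_mul_right _ hcard)
        _ = (ℳ.filter (fun A => Sub (join E E') A)).card * (B ^ size E * B ^ size E') := by ring
        _ ≤ _ := h1)
    (by
      rw [h𝒩card]
      have h1 : B ^ a = B ^ b * B ^ size E := by
        rw [← pow_add]
        congr 1
        omega
      have h2 : B ^ b * B ^ size E < (ℳ.filter (fun A => Sub E A)).card * B ^ size E := by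
        rw [← h1]
        omega
      exact Nat.lt_of_mul_lt_mul_right h2)
  obtain ⟨𝒪, h𝒪, hval⟩ := hspread
  have hfam : 𝒰 ∪ 𝒪 ⊆ Fam w X'' := by
    intro U hUm
    rcases mem_union.1 hUm with h1 | h1
    · exact Fam_mono hX''X (hU h1)
    · obtain ⟨A, hA, hEA, rfl⟩ := h𝒩mem U (h𝒪 h1)
      rw [mem_Fam, size_push, size_diff hEA, ((hmem A).1 hA).2]
      refine ⟨by omega, by omega, fun χ hχ hag => ?_⟩
      rw [hX''] at hχ
      obtain ⟨h2, h3, h4⟩ := mem_filter.1 hχ
      rw [agree_push] at hag
      refine hp.av χ h2 h3 ⟨join D A, ((hmem A).1 hA).1.2.1, fun v c hc => ?_⟩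
      unfold join at hc
      by_cases h5 : D v = none
      · rw [if_pos h5] at hc
        by_cases h6 : E v = none
        · exact hag v c (by unfold diff; rw [if_pos h6]; exact hc)
        · refine h4 v c ?_
          unfold join
          rw [if_pos h5]
          obtain ⟨c', hc'⟩ := Option.ne_none_iff_exists'.1 h6
          rw [hc']
          rw [hEA v c' hc'] at hc
          exact hc
      · rw [if_neg h5] at hc
        refine h4 v c ?_
        unfold join
        rw [if_neg h5]
        exact hc
  have h1 := hext X'' hX''X hX''ne _ hfam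
  -- the numbers
  have hXpos : (0 : ℝ) < X.card := by
    exact_mod_cast card_pos.2 (hX''ne.mono hX''X)
  have hX''pos : (0 : ℝ) < X''.card := by exact_mod_cast card_pos.2 hX''ne
  have h2 : (X.card : ℝ) ≤ X''.card * 2 ^ L := by
    have h3 : X.card ≤ X''.card * 2 ^ L := hθ.trans (Nat.mul_le_mul_right _ hX''θ.le)
    exact_mod_cast h3
  have h3 : Real.log X.card ≤ Real.log X''.card + L * Real.log 2 := by
    have h4 := Real.log_le_log hXpos h2
    rw [Real.log_mul (by positivity) (by positivity), Real.log_pow] at h4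
    exact h4
  have hlog2 : Real.log 2 < 0.7 := by
    have := Real.log_two_lt_d9
    linarith
  have hw0 : (0 : ℝ) < w := by exact_mod_cast hw
  have hL0 : (1 : ℝ) ≤ L := by exact_mod_cast hL
  have h4 : 9 * (B : ℝ) / (2048 * w) = 9 / 4 * L := by
    rw [hB]
    push_cast
    field_simp
    ring
  rw [h4] at hval
  nlinarith

end MTV
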