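import Pool.Agent.Lib.MTV.Root
import Pool.Agent.Lib.MTV.Rel
import Pool.Agent.Lib.MTV.Load
import Pool.Agent.Lib.MTU.Embed

/-!
# MTV.Embed (MP_e46137_lc): machines which may rely on the presence of many edges
-/

namespace MTV

open Classical Finset MTX MTU MTU.EmbedAux

namespace EmbedAux

variable {n r N N' : ℕ}

/-- One step of the machine, for paths through the image of `e`. -/
theorem baseV {W : Type} (M : Unreach.Mach n W) (K : Finset (Fin n × Fin n))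
    {y : Fin N → Fin n} (hy : Function.Injective y) {s t : Fin n} (hst : s ≠ t)
    (hs : ∀ x, y x ≠ s) (ht : ∀ x, y x ≠ t) (e : Fin N' ↪ Fin N) (X : Finset (Col N))
    (R : Col N → ℕ → W) {T : ℕ}
    (hK : ∀ χ ∈ X, ∀ e ∈ K, cutG y s χ e.1 e.2 = true)
    (hR : ∀ χ ∈ X, ∀ G : Fin n → Fin n → Bool, (∀ e ∈ K, G e.1 e.2 = true) →
      (∀ u v, G u v ≤ cutG y s χ u v) → M.Comp T G (R χ)) :
    ∀ τ < T, ∀ a (P : Pth r N'), Rch M K y s t τ a (P.trans e) →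
      ∃ q₀, ∀ q ≤ r, q ≠ q₀ → q ≠ q₀ + 1 → ∃ U : PC N', Sub U (UP P q) ∧ size U ≤ 3 ∧
        ∀ χ ∈ X, R χ τ = a → ¬ Rch M K y s t (τ + 1) (R χ (τ + 1)) (P.trans e) →
          ¬ Agree U (fun x => χ (e x)) := by
  intro τ hτ a P hreach
  obtain ⟨q₀, hq₀⟩ := base M K hy hst hs ht X R hK hR τ hτ a (P.trans e) hreach
  refine ⟨q₀, fun q hq h1 h2 => ?_⟩
  obtain ⟨U, hU1, hU2, hU3⟩ := hq₀ q hq h1 h2
  rw [sub_UP_iff] at hU1
  refine ⟨fun x => U (e x), ?_, ?_, fun χ hχ hRa hno hag => hU3 χ hχ hRa hno ?_⟩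
  · rw [sub_UP_iff]
    intro x c hc
    obtain ⟨j, hj, hcj⟩ := hU1 (e x) c hc
    exact ⟨j, e.injective hj, hcj⟩
  · refine le_trans ?_ hU2
    unfold size
    refine card_le_card_of_injOn e ?_ e.injective.injOn
    intro x hx
    exact mem_coe.2 (mem_filter.2 ⟨mem_univ _, (mem_filter.1 (mem_coe.1 hx)).2⟩)
  · intro v c hc
    obtain ⟨j, hj, -⟩ := hU1 v c hc
    have hj' : e (P j) = v := hj
    rw [← hj'] at hc ⊢
    exact hag (P j) c hc

/-- the most popular set of present arcs -/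
theorem exists_popular {α β : Type} [Fintype β] (Acc : Finset α) (K : α → Finset β) {m : ℕ}
    (hK : ∀ χ ∈ Acc, (K χ).card ≤ m) (hne : Acc.Nonempty) :
    ∃ (K₀ : Finset β) (X₀ : Finset α), (∀ χ ∈ X₀, χ ∈ Acc ∧ K χ = K₀) ∧ X₀.Nonempty ∧
      Acc.card ≤ (Fintype.card β + 1) ^ m * X₀.card := by
  obtain ⟨χ₀, hχ₀⟩ := hne
  obtain ⟨K₀, hK₀, hmax⟩ := exists_max_image ((univ : Finset (Finset β)).filter
    (fun K => K.card ≤ m)) (fun K₀ => (Acc.filter (fun χ => K χ = K₀)).card)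
    ⟨K χ₀, mem_filter.2 ⟨mem_univ _, hK χ₀ hχ₀⟩⟩
  refine ⟨K₀, Acc.filter (fun χ => K χ = K₀), fun χ hχ => mem_filter.1 hχ, ?_, ?_⟩
  · rw [← card_pos]
    refine lt_of_lt_of_le ?_ (hmax (K χ₀) (mem_filter.2 ⟨mem_univ _, hK χ₀ hχ₀⟩))
    exact card_pos.2 ⟨χ₀, mem_filter.2 ⟨hχ₀, rfl⟩⟩
  · have h1 : Acc ⊆ ((univ : Finset (Finset β)).filter
        (fun K => K.card ≤ m)).biUnion (fun K₀ => Acc.filter (fun χ => K χ = K₀)) := by
      intro χ hχ
      exact mem_biUnion.2 ⟨K χ, mem_filter.2 ⟨mem_univ _, hK χ hχ⟩, mem_filter.2 ⟨hχ, rfl⟩⟩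
    refine (card_le_card h1).trans (card_biUnion_le.trans ?_)
    refine (sum_le_card_nsmul _ _ _ hmax).trans ?_
    rw [smul_eq_mul]
    exact Nat.mul_le_mul_right _ (card_small_sets m)

end EmbedAux

open EmbedAux

/-- **Machines which may rely on the presence of many edges.** -/
theorem explicitV {n : ℕ} {W : Type} [Fintype W] {w w₁ k Q L T J r m M₀ k₁ b B : ℕ}
    (M : Unreach.Mach n W) {s t : Fin n} (hst : s ≠ t) (hr : 1 ≤ r)
    (hw : 2 * w₁ ≤ w) (hw3 : 3 ≤ w₁) (hL : 1 ≤ L) (hQ : 8 ≤ Q) (hB : B = 512 * w * L)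
    (hb : Fintype.card W * (2 * (n - 2) + 1) ^ w ≤ 2 ^ b)
    (hb' : (2 * (n - 2) + 1) ^ w ≤ 2 ^ b) (hLb : (J + 1) * b + 2 ≤ L)
    (hM₀ : (2 * (n * n + 1)) ^ m ≤ 2 ^ M₀) (hM₀' : 1152 * w ^ 2 * M₀ ≤ n - 2)
    (hLn : L + 2 * M₀ ≤ n - 2) (hk₁ : 6 * w * k₁ ≤ n - 2)
    (hκ : 8 * B * Q * (r + 1) + 2 * r ≤ k₁) (hT : 1 ≤ T) (hTJ : T ≤ 2 ^ J)
    (hk : 2 ^ k ≤ r + 1)
    (hF1 : ∀ N' ≤ n - 2, 4 * B * Q * (r + 1) ≤ N' - r →
      1 ≤ 2 ^ w₁ * Fk (4 * (B : ℝ) * Q / ((N' - r : ℕ) : ℝ)) k)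
    (hno : ∀ G : Fin n → Fin n → Bool, (∀ a b, G a b = G b a) →
      (∃ l ≤ r + 1, SharpTS.HasWalk G l s t) → ¬ M.AcceptsUsing T m G)
    (hacc : 1 ≤ Unreach.accCut M T m s t * 2 ^ m) :
    ∃ N' ≤ n - 2, k₁ ≤ 2 * N' ∧ (30 : ℝ) / 31 ≤ (2 / (1 - 2 / (Q : ℝ))) ^ J *
        Fk (4 * (B : ℝ) * Q / ((N' - r : ℕ) : ℝ)) k := by
  obtain ⟨y, hy, hs, ht, hsur⟩ := MTC.EmbedAAux.exists_y hst
  obtain ⟨Acc, hAcc⟩ : ∃ Acc, Acc = univ.filter
    (fun χ : Col (n - 2) => M.AcceptsUsing T m (cutG y s χ)) := ⟨_, rfl⟩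
  have hrun : ∀ χ : Col (n - 2), ∃ (R : ℕ → W) (K : Finset (Fin n × Fin n)), χ ∈ Acc →
      K.card ≤ m ∧ (∀ e ∈ K, cutG y s χ e.1 e.2 = true) ∧ M.acc (R T) ∧
      ∀ G : Fin n → Fin n → Bool, (∀ e ∈ K, G e.1 e.2 = true) →
        (∀ u v, G u v ≤ cutG y s χ u v) → M.Comp T G R := by
    intro χ
    by_cases h : χ ∈ Acc
    · have h1 := h
      rw [hAcc] at h1
      obtain ⟨-, R, K, h2⟩ := mem_filter.1 h1
      exact ⟨R, K, fun _ => h2⟩
    · exact ⟨fun _ => M.start, ∅, fun h1 => absurd h1 h⟩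
  choose R K hRK using hrun
  have e3 : ((SharpTS.cuts n s t).filter
      (fun C => M.AcceptsUsing T m (SharpTS.cutGraph C))).card = Acc.card := by
    rw [card_cuts hy hst hs ht hsur, hAcc]
    refine congrArg card (Finset.ext fun χ => ?_)
    simp only [mem_filter, cut_eq]
  have e4 : (SharpTS.cuts n s t).card = 2 ^ (n - 2) := by
    have h := card_cuts hy hst hs ht hsur (fun _ => True)
    simp only [filter_true, card_univ] at h
    rw [h]
    simp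
  have hAcc2 : 2 ^ (n - 2) ≤ Acc.card * 2 ^ m := by
    have e3' : (((SharpTS.cuts n s t).filter
        (fun C => M.AcceptsUsing T m (SharpTS.cutGraph C))).card : ℝ) =
        (Acc.card : ℝ) := by exact_mod_cast e3
    have e4' : ((SharpTS.cuts n s t).card : ℝ) = 2 ^ (n - 2) := by exact_mod_cast e4
    unfold Unreach.accCut at hacc
    rw [e3', e4'] at hacc
    have h2 : (0 : ℝ) < 2 ^ (n - 2) := by positivity
    have h3 : (2 : ℝ) ^ (n - 2) ≤ Acc.card * 2 ^ m := by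
      have h4 := mul_le_mul_of_nonneg_left hacc h2.le
      calc (2 : ℝ) ^ (n - 2) = 2 ^ (n - 2) * 1 := (mul_one _).symm
        _ ≤ 2 ^ (n - 2) * ((Acc.card : ℝ) / 2 ^ (n - 2) * 2 ^ m) := h4
        _ = Acc.card * 2 ^ m := by field_simp
    exact_mod_cast h3
  have hAccne : Acc.Nonempty := by
    rw [← card_pos]
    by_contra h1
    rw [Nat.eq_zero_of_not_pos h1, zero_mul] at hAcc2
    have : 0 < 2 ^ (n - 2) := by positivity
    omega
  -- the most popular set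
  obtain ⟨K₀, X₀, hXm, hK₀ne, hK₀⟩ :=
    exists_popular Acc K (m := m) (fun χ hχ => (hRK χ hχ).1) hAccne
  have hX₀M : 2 ^ (n - 2) ≤ X₀.card * 2 ^ M₀ := by
    rw [Fintype.card_prod, Fintype.card_fin] at hK₀
    calc 2 ^ (n - 2) ≤ Acc.card * 2 ^ m := hAcc2
      _ ≤ (n * n + 1) ^ m * X₀.card * 2 ^ m := Nat.mul_le_mul_right _ hK₀
      _ = X₀.card * (2 * (n * n + 1)) ^ m := by rw [mul_pow]; ring
      _ ≤ X₀.card * 2 ^ M₀ := Nat.mul_le_mul_left _ hM₀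
  -- the extremal pair
  obtain ⟨X, 𝒰, hXX₀, hXne, h𝒰, hext, hμ, hXlog⟩ := exists_ext w hK₀ne
  have hX₀pos : (0 : ℝ) < X₀.card := by exact_mod_cast card_pos.2 hK₀ne
  have hXpos : (0 : ℝ) < X.card := by exact_mod_cast card_pos.2 hXne
  have hlog2 : 0 < Real.log 2 := Real.log_pos (by norm_num)
  have hlog2' : Real.log 2 < 0.7 := by
    have := Real.log_two_lt_d9
    linarith
  have hX₀log : ((n - 2 : ℕ) : ℝ) * Real.log 2 - Real.log X₀.card ≤ M₀ * Real.log 2 := by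
    have h1 : ((2 : ℝ) ^ (n - 2)) ≤ X₀.card * 2 ^ M₀ := by exact_mod_cast hX₀M
    have h2 := Real.log_le_log (by positivity) h1
    rw [Real.log_mul (by positivity) (by positivity), Real.log_pow, Real.log_pow] at h2
    linarith
  have hM₀nn : (0 : ℝ) ≤ M₀ := Nat.cast_nonneg _
  have hμ' : ∑ U ∈ 𝒰, wt U ≤ 3 * M₀ := by
    refine hμ.trans ?_
    nlinarith
  -- the size of `X`
  have hXcard : 2 ^ (n - 2 - 2 * M₀) ≤ X.card := by
    have h1 : ((n - 2 - 2 * M₀ : ℕ) : ℝ) * Real.log 2 ≤ Real.log X.card := by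
      have e1 : ((n - 2 - 2 * M₀ : ℕ) : ℝ) = ((n - 2 : ℕ) : ℝ) - 2 * M₀ := by
        rw [Nat.cast_sub (by omega)]
        push_cast
        ring
      rw [e1]
      nlinarith
    rw [← Real.log_pow] at h1
    have h2 := (Real.log_le_log_iff (by positivity) hXpos).1 h1
    exact_mod_cast h2
  -- vertices with small loads
  have h3w : 3 ≤ w := by omega
  obtain ⟨V, hVk, hV⟩ := exists_load (w := w) (k := k₁) (by omega) 𝒰
    (fun U hU => (mem_Fam.1 (h𝒰 hU)).2.1) hk₁ (by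
      have h1 : (1152 * (w : ℝ) ^ 2 * M₀) ≤ ((n - 2 : ℕ) : ℝ) := by exact_mod_cast hM₀'
      have h2 : 384 * (w : ℝ) ^ 2 * ∑ U ∈ 𝒰, wt U ≤ 384 * (w : ℝ) ^ 2 * (3 * M₀) :=
        mul_le_mul_of_nonneg_left hμ' (by positivity)
      linarith)
  obtain ⟨N', hN'⟩ : ∃ N', N' = V.card := ⟨_, rfl⟩
  have hN'n : N' ≤ n - 2 := by
    have h1 := card_le_univ V
    rw [Fintype.card_fin] at h1
    omega
  obtain ⟨e, he⟩ : ∃ e : Fin N' ↪ Fin (n - 2), (univ : Finset (Fin N')).map e = V := by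
    subst hN'
    refine ⟨V.equivFin.symm.toEmbedding.trans (Function.Embedding.subtype _), ?_⟩
    ext v
    rw [mem_map]
    constructor
    · rintro ⟨x, -, rfl⟩
      exact (V.equivFin.symm x).2
    · intro hv
      exact ⟨V.equivFin ⟨v, hv⟩, mem_univ _, by simp⟩
  -- the thresholds
  obtain ⟨g, hg⟩ : ∃ g, g = Nat.log 2 X.card := ⟨_, rfl⟩
  have hg1 : 2 ^ g ≤ X.card := by
    rw [hg]
    exact Nat.pow_log_le_self 2 (by exact_mod_cast hXpos.ne')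
  have hg2 : X.card < 2 ^ (g + 1) := by
    rw [hg]
    exact Nat.lt_pow_succ_log_self (by norm_num) _
  have hgL : L ≤ g := by
    have h1 : n - 2 - 2 * M₀ < g + 1 := by
      have h2 : 2 ^ (n - 2 - 2 * M₀) < 2 ^ (g + 1) := lt_of_le_of_lt hXcard hg2
      exact (Nat.pow_lt_pow_iff_right (by norm_num : 1 < 2)).1 h2
    omega
  have hpw : (2 * N' + 1) ^ w ≤ (2 * (n - 2) + 1) ^ w := Nat.pow_le_pow_left (by omega) w
  have hθ0 : ∀ j, X.card ≤ 2 ^ (g + 1 - L + j * b) * 2 ^ L := by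
    intro j
    rw [← pow_add]
    exact hg2.le.trans (Nat.pow_le_pow_right (by norm_num) (by omega))
  have hθ : ∀ j, Fintype.card W * ((2 * N' + 1) ^ w * 2 ^ (g + 1 - L + j * b)) ≤
      2 ^ (g + 1 - L + (j + 1) * b) := by
    intro j
    calc Fintype.card W * ((2 * N' + 1) ^ w * 2 ^ (g + 1 - L + j * b))
        ≤ Fintype.card W * ((2 * (n - 2) + 1) ^ w * 2 ^ (g + 1 - L + j * b)) :=
          Nat.mul_le_mul_left _ (Nat.mul_le_mul_right _ hpw)
      _ = Fintype.card W * (2 * (n - 2) + 1) ^ w * 2 ^ (g + 1 - L + j * b) := by ring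
      _ ≤ 2 ^ b * 2 ^ (g + 1 - L + j * b) := Nat.mul_le_mul_right _ hb
      _ = 2 ^ (g + 1 - L + (j + 1) * b) := by
          rw [← pow_add]
          congr 1
          ring
  have hXJ : (2 * N' + 1) ^ w * 2 ^ (g + 1 - L + J * b) < X.card := by
    refine lt_of_lt_of_le ?_ hg1
    calc (2 * N' + 1) ^ w * 2 ^ (g + 1 - L + J * b)
        ≤ 2 ^ b * 2 ^ (g + 1 - L + J * b) := Nat.mul_le_mul_right _ (hpw.trans hb')
      _ = 2 ^ (b + (g + 1 - L + J * b)) := by rw [← pow_add]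
      _ < 2 ^ g := by
          apply Nat.pow_lt_pow_right (by norm_num)
          have h1 : (J + 1) * b = J * b + b := by ring
          omega
  have hB1 : 1 ≤ B := by
    rw [hB]
    exact Nat.succ_le_of_lt (by positivity)
  have hκ' : 4 * B * Q * (r + 1) ≤ N' - r := by
    have h1 : 8 * B * Q * (r + 1) = 2 * (4 * B * Q * (r + 1)) := by ring
    omega
  have hBQ : 1 ≤ 4 * B * Q := by
    have : 0 < Q := by omega
    exact Nat.succ_le_of_lt (by positivity)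
  have hrN : r < N' := by
    have h1 : 1 * (r + 1) ≤ 4 * B * Q * (r + 1) := Nat.mul_le_mul_right _ hBQ
    omega
  have hXK : ∀ χ ∈ X, K₀.card ≤ m ∧ (∀ e ∈ K₀, cutG y s χ e.1 e.2 = true) ∧ M.acc (R χ T) ∧
      ∀ G : Fin n → Fin n → Bool, (∀ e ∈ K₀, G e.1 e.2 = true) →
        (∀ u v, G u v ≤ cutG y s χ u v) → M.Comp T G (R χ) := by
    intro χ hχ
    obtain ⟨h1, h2⟩ := hXm χ (hXX₀ hχ)
    have h3 := hRK χ h1
    rw [h2] at h3
    exact h3
  refine ⟨N', hN'n, by omega, ?_⟩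
  refine root2 (r := r) (N := N') (W := W) (k := k) (T := T) (J := J)
    (fun j => 2 ^ (g + 1 - L + j * b)) hr hw hw3 hB1 hQ hθ hrN
    (le_trans (Nat.mul_le_mul_left _ (by omega)) hκ')
    (le_trans (Nat.mul_le_mul_left _ hk) hκ') (hF1 N' hN'n hκ')
    (fun χ : Col (n - 2) => fun x => χ (e x)) X
    (fun j X' hX' F Err hp => rel_ext e (by omega) hL h𝒰 hext (by rw [he]; exact hV) hB hX' hp
      (hθ0 j))
    R (fun τ a P => Rch M K₀ y s t τ a (P.trans e))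
    (baseV M K₀ hy hst hs ht e X R (fun χ hχ => (hXK χ hχ).2.1)
      (fun χ hχ => (hXK χ hχ).2.2.2)) hT hTJ hk M.start
    (fun χ hχ => ((hXK χ hχ).2.2.2 _ (hXK χ hχ).2.1 (fun _ _ => le_rfl)).1)
    (fun P => rch_zero M K₀ y s t (P.trans e)) ?_ hXJ
  rintro P χ hχ ⟨R', hR'T, hR'⟩
  refine hno (uniG K₀ y s t (P.trans e)) (uniG_symm K₀ y s t (P.trans e)) ⟨r + 1, le_rfl, ?_⟩
    ⟨R', K₀, (hXK χ hχ).1, ?_, ?_, fun G h1 h2 => hR' G h1 h2⟩
  · -- the walk along the path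
    have h1 := pathG_walk y s t (P.trans e)
    have key : ∀ (l : ℕ) (v : Fin n), SharpTS.HasWalk (pathG y s t (P.trans e)) l s v →
        SharpTS.HasWalk (uniG K₀ y s t (P.trans e)) l s v := by
      intro l
      induction l with
      | zero => intro v hv; exact hv
      | succ l ih =>
        rintro v ⟨u, hu, huv⟩
        refine ⟨u, ih u hu, ?_⟩
        unfold uniG
        rw [huv]
        rfl
    exact key _ _ h1
  · intro e he
    unfold uniG bg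
    rw [decide_eq_true (Or.inl he : (e.1, e.2) ∈ K₀ ∨ (e.2, e.1) ∈ K₀), Bool.or_true]
  · rw [hR'T]
    exact (hXK χ hχ).2.2.1

end MTV
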