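import Pool.Agent.Lib.MTV.Embed
import Pool.Agent.Lib.MTU.Expl

/-!
# MTV.Expl (MP_e46137_lc): choice of the parameters

`l = Nat.log 2 n + 1`, `w₁ = l ^ 2`, `w = 2 l ^ 2`, `Q = 4 (l ^ 2 + 2)`, `b = S + (l + 1) w` bits per
level, `L = (l ^ 2 + 1) b + 2`, `M₀ = (2 l + 1) m`, `k₁ = (n - 2) / (6 w)`, `r + 1 = 2 ^ k`.
-/

namespace MTV

open Classical Finset MTX MTU MTU.ExplAux

namespace ExplAux

/-- the numbers -/
theorem setupV {n S m k T c : ℕ} (hk0 : 1 ≤ k) (hS : 1 ≤ S) (hT : 1 ≤ T) (hc : c ≤ 2 ^ S)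
    (hT2 : T ≤ 2 ^ (Nat.log 2 n + 1) ^ 2)
    (hm : 10 ^ 5 * (Nat.log 2 n + 1) ^ 5 * m ≤ n)
    (hC : 10 ^ 9 * (Nat.log 2 n + 1) ^ 11 * S * 2 ^ (k + 1) ≤ n) :
    ∃ (w w₁ L Q J b M₀ k₁ : ℕ), 2 * w₁ ≤ w ∧ 3 ≤ w₁ ∧ 1 ≤ L ∧ 8 ≤ Q ∧
      c * (2 * (n - 2) + 1) ^ w ≤ 2 ^ b ∧ (2 * (n - 2) + 1) ^ w ≤ 2 ^ b ∧ (J + 1) * b + 2 ≤ L ∧
      (2 * (n * n + 1)) ^ m ≤ 2 ^ M₀ ∧ 1152 * w ^ 2 * M₀ ≤ n - 2 ∧ L + 2 * M₀ ≤ n - 2 ∧
      6 * w * k₁ ≤ n - 2 ∧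
      8 * (512 * w * L) * Q * (2 ^ (k + 1) - 1 + 1) + 2 * (2 ^ (k + 1) - 1) ≤ k₁ ∧ T ≤ 2 ^ J ∧
      (∀ N' ≤ n - 2, 4 * (512 * w * L) * Q * (2 ^ (k + 1) - 1 + 1) ≤ N' - (2 ^ (k + 1) - 1) →
        1 ≤ 2 ^ w₁ * Fk (4 * ((512 * w * L : ℕ) : ℝ) * Q /
          ((N' - (2 ^ (k + 1) - 1) : ℕ) : ℝ)) (k + 1)) ∧
      (∀ N', k₁ ≤ 2 * N' → (30 : ℝ) / 31 ≤ (2 / (1 - 2 / (Q : ℝ))) ^ J *
          Fk (4 * ((512 * w * L : ℕ) : ℝ) * Q /
            ((N' - (2 ^ (k + 1) - 1) : ℕ) : ℝ)) (k + 1) →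
        (n : ℝ) ^ k ≤ T * (10 ^ 9 * ((Nat.log 2 n + 1 : ℕ) : ℝ) ^ 11 * (S : ℝ)) ^ k *
            2 ^ ((k + 1) * (k + 2) / 2 + 1)) := by
  obtain ⟨l, hl⟩ : ∃ l, Nat.log 2 n + 1 = l := ⟨_, rfl⟩
  rw [hl] at hT2 hC hm ⊢
  have hl1 : 1 ≤ l := by omega
  have hn2 : n < 2 ^ l := by
    rw [← hl]
    exact Nat.lt_pow_succ_log_self (by norm_num) n
  obtain ⟨d, hd⟩ : ∃ d, d = 2 ^ (k + 1) := ⟨_, rfl⟩
  rw [← hd] at hC ⊢
  have hd2 : 2 ≤ d := by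
    rw [hd]
    calc 2 = 2 ^ 1 := by norm_num
      _ ≤ 2 ^ (k + 1) := Nat.pow_le_pow_right (by norm_num) (by omega)
  have hdd : d - 1 + 1 = d := by omega
  rw [hdd]
  -- powers of `l`
  have p50 : 1 ≤ l ^ 5 := Nat.one_le_pow _ _ hl1
  have p110 : 1 ≤ l ^ 11 := Nat.one_le_pow _ _ hl1
  have p511 : l ^ 5 ≤ l ^ 11 := Nat.pow_le_pow_right hl1 (by omega)
  have p211 : l ^ 2 ≤ l ^ 11 := Nat.pow_le_pow_right hl1 (by omega)
  -- the basic inequality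
  obtain ⟨X, hX⟩ : ∃ X, l ^ 11 * S * d = X := ⟨_, rfl⟩
  have hb : 10 ^ 9 * X ≤ n := by
    refine le_trans (le_of_eq ?_) hC
    rw [← hX]
    ring
  have hXd : d ≤ X := by
    rw [← hX]
    calc d = 1 * 1 * d := by ring
      _ ≤ l ^ 11 * S * d := Nat.mul_le_mul_right _ (Nat.mul_le_mul p110 hS)
  have hX2d : l ^ 2 * d ≤ X := by
    rw [← hX]
    calc l ^ 2 * d = l ^ 2 * 1 * d := by ring
      _ ≤ l ^ 11 * S * d := Nat.mul_le_mul_right _ (Nat.mul_le_mul p211 hS)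
  have hXS : l ^ 5 * S ≤ X := by
    rw [← hX]
    calc l ^ 5 * S = l ^ 5 * S * 1 := by ring
      _ ≤ l ^ 11 * S * d := Nat.mul_le_mul (Nat.mul_le_mul_right _ p511) (by omega)
  have hkl : k + 1 ≤ l := by
    have h1 : 2 ^ (k + 1) < 2 ^ l := by
      rw [← hd]
      omega
    exact ((Nat.pow_lt_pow_iff_right (by norm_num : 1 < 2)).1 h1).le
  have hl2 : 2 ≤ l := by omega
  -- the number of present edges
  obtain ⟨Y, hY⟩ : ∃ Y, l ^ 5 * m = Y := ⟨_, rfl⟩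
  have hYn : 10 ^ 5 * Y ≤ n := by
    refine le_trans (le_of_eq ?_) hm
    rw [← hY]
    ring
  have hlm : l * m ≤ Y := by
    rw [← hY]
    refine Nat.mul_le_mul_right _ ?_
    calc l = l ^ 1 := (pow_one l).symm
      _ ≤ l ^ 5 := Nat.pow_le_pow_right hl1 (by omega)
  -- the parameters
  obtain ⟨w, hw⟩ : ∃ w, w = 2 * l ^ 2 := ⟨_, rfl⟩
  obtain ⟨b, hb'⟩ : ∃ b, b = S + (l + 1) * w := ⟨_, rfl⟩
  obtain ⟨L, hL⟩ : ∃ L, L = (l ^ 2 + 1) * b + 2 := ⟨_, rfl⟩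
  obtain ⟨Q, hQ⟩ : ∃ Q, Q = 4 * (l ^ 2 + 2) := ⟨_, rfl⟩
  obtain ⟨J, hJ⟩ : ∃ J, J = Nat.clog 2 T := ⟨_, rfl⟩
  obtain ⟨M₀, hM₀⟩ : ∃ M₀, M₀ = (2 * l + 1) * m := ⟨_, rfl⟩
  obtain ⟨k₁, hk₁⟩ : ∃ k₁, k₁ = (n - 2) / (6 * w) := ⟨_, rfl⟩
  have hJl : J ≤ l ^ 2 := by
    rw [hJ]
    exact Nat.clog_le_of_le_pow hT2
  have hTJ : T ≤ 2 ^ J := by
    rw [hJ]
    exact Nat.le_pow_clog (by norm_num) T
  have hJT : 2 ^ J ≤ 2 * T := by
    rw [hJ]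
    rcases Nat.lt_or_ge 1 T with h1 | h1
    · have h2 := Nat.pow_pred_clog_lt_self (by norm_num : 1 < 2) h1
      have h3 : 0 < Nat.clog 2 T := Nat.clog_pos (by norm_num) h1
      have h4 : 2 ^ Nat.clog 2 T = 2 * 2 ^ (Nat.clog 2 T).pred := by
        rw [← pow_succ']
        congr 1
        exact (Nat.succ_pred_eq_of_pos h3).symm
      omega
    · have h2 : T = 1 := le_antisymm h1 hT
      subst h2
      simp
  have hw1 : 1 ≤ w := by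
    rw [hw]
    have : 1 ≤ l ^ 2 := Nat.one_le_pow _ _ hl1
    omega
  have hM₀Y : M₀ ≤ 3 * Y := by
    rw [hM₀]
    calc (2 * l + 1) * m ≤ (3 * l) * m := Nat.mul_le_mul_right _ (by omega)
      _ = 3 * (l * m) := by ring
      _ ≤ 3 * Y := Nat.mul_le_mul_left _ hlm
  have hbS : b ≤ 5 * (l ^ 3 * S) := by
    have e1 : (l + 1) * w ≤ 4 * l ^ 3 := by
      rw [hw]
      calc (l + 1) * (2 * l ^ 2) ≤ (l + l) * (2 * l ^ 2) := Nat.mul_le_mul_right _ (by omega)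
        _ = 4 * l ^ 3 := by ring
    have e2 : l ^ 3 ≤ l ^ 3 * S := Nat.le_mul_of_pos_right _ (by omega)
    have e3 : S ≤ l ^ 3 * S := Nat.le_mul_of_pos_left _ (by positivity)
    omega
  have hLle : L ≤ 12 * (l ^ 5 * S) := by
    have e1 : (l ^ 2 + 1) * b ≤ 10 * (l ^ 5 * S) := by
      calc (l ^ 2 + 1) * b ≤ (l ^ 2 + l ^ 2) * (5 * (l ^ 3 * S)) :=
            Nat.mul_le_mul (Nat.add_le_add_left (Nat.one_le_pow _ _ hl1) _) hbS
        _ = 10 * (l ^ 5 * S) := by ring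
    have e2 : 1 ≤ l ^ 5 * S := Nat.mul_pos (by omega) (by omega)
    omega
  have hK : 512 * w * L * Q ≤ 147456 * (l ^ 9 * S) := by
    calc 512 * w * L * Q ≤
          512 * (2 * l ^ 2) * (12 * (l ^ 5 * S)) * (4 * (3 * l ^ 2)) := by
          rw [hw, hQ]
          apply Nat.mul_le_mul
          · exact Nat.mul_le_mul_left _ hLle
          · have : 1 ≤ l ^ 2 := Nat.one_le_pow _ _ hl1
            exact Nat.mul_le_mul_left _ (by omega)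
      _ = 147456 * (l ^ 9 * S) := by ring
  obtain ⟨Z, hZ⟩ : ∃ Z, 512 * w * L * Q * d = Z := ⟨_, rfl⟩
  have hwZ : w * Z ≤ 294912 * X := by
    rw [← hZ, hw]
    calc 2 * l ^ 2 * (512 * (2 * l ^ 2) * L * Q * d) ≤ 2 * l ^ 2 * (147456 * (l ^ 9 * S) * d) := by
          rw [hw] at hK
          exact Nat.mul_le_mul_left _ (Nat.mul_le_mul_right _ hK)
      _ = 294912 * X := by rw [← hX]; ring
  have hL1 : 1 ≤ L := by omega
  have hQ1 : 1 ≤ Q := by omega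
  have hK1 : 1 ≤ 4 * (512 * w * L) * Q := Nat.succ_le_of_lt (by positivity)
  have hZd : d ≤ Z := by
    rw [← hZ]
    exact Nat.le_mul_of_pos_left _ (by positivity)
  -- `k₁`
  have hk₁le : 6 * w * k₁ ≤ n - 2 := by
    rw [hk₁]
    exact Nat.mul_div_le _ _
  have hk₁lt : n - 2 < 6 * w * k₁ + 6 * w := by
    rw [hk₁]
    have h1 := Nat.lt_div_mul_add (a := n - 2) (b := 6 * w) (by positivity)
    calc n - 2 < (n - 2) / (6 * w) * (6 * w) + 6 * w := h1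
      _ = 6 * w * ((n - 2) / (6 * w)) + 6 * w := by ring
  have hwd : w * d ≤ 2 * X := by
    rw [hw]
    calc 2 * l ^ 2 * d = 2 * (l ^ 2 * d) := by ring
      _ ≤ 2 * X := Nat.mul_le_mul_left _ hX2d
  have hwX : w ≤ X := by
    have h1 : w * 2 ≤ w * d := Nat.mul_le_mul_left _ hd2
    omega
  have hκ : 8 * Z + 2 * d ≤ k₁ := by
    by_contra h
    have h1 : k₁ + 1 ≤ 8 * Z + 2 * d := by omega
    have h2 : 6 * w * (k₁ + 1) ≤ 6 * w * (8 * Z + 2 * d) := Nat.mul_le_mul_left _ h1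
    have h3 : 6 * w * (k₁ + 1) = 6 * w * k₁ + 6 * w := by ring
    have h4 : 6 * w * (8 * Z + 2 * d) = 48 * (w * Z) + 12 * (w * d) := by ring
    omega
  have a1 : (2 * (n - 2) + 1) ^ w ≤ 2 ^ ((l + 1) * w) := by
    rw [pow_mul 2 (l + 1) w]
    apply Nat.pow_le_pow_left
    have : 2 ^ (l + 1) = 2 * 2 ^ l := by ring
    omega
  obtain ⟨K, hKdef⟩ : ∃ K : ℝ, K = 4 * ((512 * w * L : ℕ) : ℝ) * Q := ⟨_, rfl⟩
  have hKone : 1 ≤ K := by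
    rw [hKdef]
    exact_mod_cast hK1
  have hK0 : 0 < K := by linarith
  obtain ⟨e, he⟩ : ∃ e, e = (k + 1) * (k + 2) / 2 := ⟨_, rfl⟩
  have he1 : 1 ≤ e := by
    rw [he]
    have : 2 ≤ (k + 1) * (k + 2) := by nlinarith
    omega
  refine ⟨w, l ^ 2, L, Q, J, b, M₀, k₁, by omega, ?_, hL1, by omega, ?_, ?_, ?_, ?_, ?_, ?_,
    hk₁le, ?_, hTJ, ?_, ?_⟩
  · calc 3 ≤ 2 ^ 2 := by norm_num
      _ ≤ l ^ 2 := Nat.pow_le_pow_left hl2 2
  · calc c * (2 * (n - 2) + 1) ^ w ≤ 2 ^ S * 2 ^ ((l + 1) * w) := Nat.mul_le_mul hc a1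
      _ = 2 ^ b := by rw [← pow_add, hb']
  · refine a1.trans (Nat.pow_le_pow_right (by norm_num) ?_)
    omega
  · rw [hL]
    exact Nat.add_le_add_right (Nat.mul_le_mul_right _ (by omega)) _
  · rw [hM₀, pow_mul]
    apply Nat.pow_le_pow_left
    have h1 : n + 1 ≤ 2 ^ l := by omega
    calc 2 * (n * n + 1) ≤ 2 * ((n + 1) * (n + 1)) := by nlinarith
      _ ≤ 2 * (2 ^ l * 2 ^ l) := Nat.mul_le_mul_left _ (Nat.mul_le_mul h1 h1)
      _ = 2 ^ (2 * l + 1) := by ring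
  · have h1 : 1152 * w ^ 2 * M₀ ≤ 13824 * Y := by
      rw [hw, hM₀]
      calc 1152 * (2 * l ^ 2) ^ 2 * ((2 * l + 1) * m)
          ≤ 1152 * (2 * l ^ 2) ^ 2 * ((3 * l) * m) :=
            Nat.mul_le_mul_left _ (Nat.mul_le_mul_right _ (by omega))
        _ = 13824 * Y := by rw [← hY]; ring
    omega
  · omega
  · have h1 : 8 * (512 * w * L) * Q * d = 8 * Z := by rw [← hZ]; ring
    omega
  · intro N' hN' hR
    rw [← hKdef]
    obtain ⟨R, hRdef⟩ : ∃ R : ℝ, R = ((N' - (d - 1) : ℕ) : ℝ) := ⟨_, rfl⟩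
    rw [← hRdef]
    have hRpos : 0 < R := by
      rw [hRdef]
      have h1 : 1 ≤ N' - (d - 1) := by
        refine le_trans ?_ hR
        calc 1 = 1 * 1 := rfl
          _ ≤ 4 * (512 * w * L) * Q * d := Nat.mul_le_mul hK1 (by omega)
      exact_mod_cast h1
    have hRn : R ≤ 2 ^ l := by
      rw [hRdef]
      have : N' - (d - 1) ≤ 2 ^ l := by omega
      exact_mod_cast this
    have hFkeq : 2 * Fk (K / R) (k + 1) = (K / R) ^ k * 2 ^ e := by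
      rw [Fk_closed, he]
    have h1 : (K / R) ^ k ≤ Fk (K / R) (k + 1) := by
      have h2 : (2 : ℝ) ≤ 2 ^ e := by
        calc (2 : ℝ) = 2 ^ 1 := by norm_num
          _ ≤ 2 ^ e := pow_le_pow_right₀ (by norm_num) he1
      have h3 : 0 < (K / R) ^ k := by positivity
      nlinarith
    have h2 : (1 / 2 ^ l : ℝ) ^ k ≤ (K / R) ^ k := by
      apply pow_le_pow_left₀ (by positivity)
      rw [div_le_div_iff₀ (by positivity) hRpos]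
      nlinarith
    have h3 : (1 : ℝ) ≤ 2 ^ l ^ 2 * (1 / 2 ^ l) ^ k := by
      rw [div_pow, one_pow, ← pow_mul, mul_one_div, le_div_iff₀ (by positivity), one_mul]
      apply pow_le_pow_right₀ (by norm_num)
      calc l * k ≤ l * l := Nat.mul_le_mul_left _ (by omega)
        _ = l ^ 2 := by ring
    calc (1 : ℝ) ≤ 2 ^ l ^ 2 * (1 / 2 ^ l) ^ k := h3
      _ ≤ 2 ^ l ^ 2 * Fk (K / R) (k + 1) :=
        mul_le_mul_of_nonneg_left (h2.trans h1) (by positivity)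
  · intro N' hN' hmain
    rw [← hKdef] at hmain
    obtain ⟨R, hRdef⟩ : ∃ R : ℝ, R = ((N' - (d - 1) : ℕ) : ℝ) := ⟨_, rfl⟩
    rw [← hRdef] at hmain
    rw [← he]
    -- `n ≤ 32 w (N' - r)`
    have hnR : n ≤ 32 * w * (N' - (d - 1)) := by
      have h1 : k₁ ≤ 4 * (N' - (d - 1)) := by omega
      have h2 : 6 * w * k₁ ≤ 6 * w * (4 * (N' - (d - 1))) := Nat.mul_le_mul_left _ h1
      have h3 : 6 * w * (4 * (N' - (d - 1))) = 24 * (w * (N' - (d - 1))) := by ring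
      have h4 : 32 * w * (N' - (d - 1)) = 32 * (w * (N' - (d - 1))) := by ring
      omega
    have hRpos : 0 < R := by
      rw [hRdef]
      have h1 : 0 < N' - (d - 1) := by omega
      exact_mod_cast h1
    have hnR' : (n : ℝ) ≤ 32 * w * R := by
      rw [hRdef]
      exact_mod_cast hnR
    have hFkeq : 2 * Fk (K / R) (k + 1) = (K / R) ^ k * 2 ^ e := by
      rw [Fk_closed, he]
    have hκ0 : 0 < K / R := by positivity
    have hβ := beta_le hJl hQ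
    have hTpos : (1 : ℝ) ≤ T := by exact_mod_cast hT
    have hJT' : (2 : ℝ) ^ J ≤ 2 * T := by exact_mod_cast hJT
    have hFkpos := Fk_pos hκ0 (k + 1)
    have h1 : (30 : ℝ) / 31 ≤ 2 * T * ((K / R) ^ k * 2 ^ e) := by
      rw [← hFkeq]
      calc (30 : ℝ) / 31 ≤ (2 / (1 - 2 / (Q : ℝ))) ^ J * Fk (K / R) (k + 1) := hmain
        _ ≤ (2 * (2 * T)) * Fk (K / R) (k + 1) := by
            apply mul_le_mul_of_nonneg_right _ hFkpos.le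
            linarith
        _ = 2 * T * (2 * Fk (K / R) (k + 1)) := by ring
    have h2 : (30 : ℝ) / 31 * R ^ k ≤ 2 * T * (K ^ k * 2 ^ e) := by
      have e1 : 2 * (T : ℝ) * ((K / R) ^ k * 2 ^ e) * R ^ k = 2 * T * (K ^ k * 2 ^ e) := by
        rw [div_pow]
        field_simp
      have e2 := mul_le_mul_of_nonneg_right h1 (by positivity : (0 : ℝ) ≤ R ^ k)
      rwa [e1] at e2
    have h7 : (n : ℝ) ^ k ≤ (32 * w) ^ k * R ^ k := by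
      rw [← mul_pow]
      exact pow_le_pow_left₀ (Nat.cast_nonneg _) hnR' k
    have hKw : 2 * (32 * w * K) ≤ 10 ^ 9 * (l : ℝ) ^ 11 * (S : ℝ) := by
      have h3 : 2 * (32 * w * (4 * (512 * w * L) * Q)) ≤ 10 ^ 9 * l ^ 11 * S := by
        calc 2 * (32 * w * (4 * (512 * w * L) * Q)) = 256 * w * (512 * w * L * Q) := by ring
          _ ≤ 256 * w * (147456 * (l ^ 9 * S)) := Nat.mul_le_mul_left _ hK
          _ = 75497472 * (l ^ 11 * S) := by rw [hw]; ring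
          _ ≤ 10 ^ 9 * (l ^ 11 * S) := Nat.mul_le_mul_right _ (by norm_num)
          _ = 10 ^ 9 * l ^ 11 * S := by ring
      rw [hKdef]
      exact_mod_cast h3
    have hwpos : (0 : ℝ) < w := by exact_mod_cast hw1
    have h8 : 2 * ((32 * w) ^ k * K ^ k) ≤ (10 ^ 9 * (l : ℝ) ^ 11 * (S : ℝ)) ^ k := by
      have e1 : (2 * (32 * w * K)) ^ k ≤ (10 ^ 9 * (l : ℝ) ^ 11 * (S : ℝ)) ^ k :=
        pow_le_pow_left₀ (by positivity) hKw k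
      have e2 : (2 * (32 * w * K)) ^ k = 2 ^ k * ((32 * w) ^ k * K ^ k) := by
        rw [mul_pow, mul_pow]
      have e3 : (2 : ℝ) ≤ 2 ^ k := by
        calc (2 : ℝ) = 2 ^ 1 := by norm_num
          _ ≤ 2 ^ k := pow_le_pow_right₀ (by norm_num) hk0
      have e4 : (0 : ℝ) < (32 * w) ^ k * K ^ k := by positivity
      rw [e2] at e1
      nlinarith
    have h9 : (30 : ℝ) / 31 * (n : ℝ) ^ k ≤
        T * (10 ^ 9 * (l : ℝ) ^ 11 * (S : ℝ)) ^ k * 2 ^ e := by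
      calc (30 : ℝ) / 31 * (n : ℝ) ^ k ≤ 30 / 31 * ((32 * w) ^ k * R ^ k) :=
            mul_le_mul_of_nonneg_left h7 (by norm_num)
        _ = (32 * w) ^ k * (30 / 31 * R ^ k) := by ring
        _ ≤ (32 * w) ^ k * (2 * T * (K ^ k * 2 ^ e)) :=
            mul_le_mul_of_nonneg_left h2 (by positivity)
        _ = T * (2 * ((32 * w) ^ k * K ^ k)) * 2 ^ e := by ring
        _ ≤ T * (10 ^ 9 * (l : ℝ) ^ 11 * (S : ℝ)) ^ k * 2 ^ e := by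
            apply mul_le_mul_of_nonneg_right _ (by positivity)
            exact mul_le_mul_of_nonneg_left h8 (by linarith)
    obtain ⟨A, hA⟩ : ∃ A : ℝ, A = T * (10 ^ 9 * (l : ℝ) ^ 11 * (S : ℝ)) ^ k * 2 ^ e := ⟨_, rfl⟩
    have hA0 : 0 ≤ A := by rw [hA]; positivity
    rw [← hA] at h9
    calc (n : ℝ) ^ k ≤ 2 * A := by linarith
      _ = T * (10 ^ 9 * (l : ℝ) ^ 11 * (S : ℝ)) ^ k * 2 ^ (e + 1) := by rw [hA, pow_succ]; ring

end ExplAux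

open ExplAux

/-- Machines which may rely on the presence of `m` edges. -/
theorem explicitW {n S m d k T : ℕ} {s t : Fin n} {W : Type} [Fintype W] (hk : 1 ≤ k)
    (hst : s ≠ t) (hS : 1 ≤ S) (hT : 1 ≤ T) (M : Unreach.Mach n W)
    (hW : Fintype.card W ≤ 2 ^ S)
    (hno : ∀ G : Fin n → Fin n → Bool, (∀ a b, G a b = G b a) →
      (∃ l ≤ d, SharpTS.HasWalk G l s t) → ¬ M.AcceptsUsing T m G)
    (hacc : 1 ≤ Unreach.accCut M T m s t * 2 ^ m)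
    (hT2 : T ≤ 2 ^ (Nat.log 2 n + 1) ^ 2) (hkd : 2 ^ k ≤ d)
    (hm : 10 ^ 5 * (Nat.log 2 n + 1) ^ 5 * m ≤ n)
    (hC : 10 ^ 9 * (Nat.log 2 n + 1) ^ 11 * S * 2 ^ k ≤ n) :
    n ^ (k - 1) ≤
        T * (10 ^ 9 * (Nat.log 2 n + 1) ^ 11 * S) ^ (k - 1) * 2 ^ (k * (k + 1) / 2 + 1) := by
  obtain ⟨k, rfl⟩ : ∃ k', k = k' + 1 := ⟨k - 1, by omega⟩
  rw [Nat.add_sub_cancel]
  rcases Nat.eq_zero_or_pos k with hk0 | hk0
  · subst hk0
    rw [pow_zero, pow_zero, mul_one]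
    calc 1 = 1 * 1 := rfl
      _ ≤ T * 2 ^ ((0 + 1) * (0 + 1 + 1) / 2 + 1) :=
        Nat.mul_le_mul hT Nat.one_le_two_pow
  obtain ⟨w, w₁, L, Q, J, b, M₀, k₁, h1, h2, h3, h4, h5, h6, h7, h8, h9, h10, h11, h12, h13, h14,
    h15⟩ := setupV (n := n) (m := m) (c := Fintype.card W) hk0 hS hT hW hT2 hm hC
  have h2k : 2 ≤ 2 ^ (k + 1) := by
    calc 2 = 2 ^ 1 := by norm_num
      _ ≤ 2 ^ (k + 1) := Nat.pow_le_pow_right (by norm_num) (by omega)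
  obtain ⟨N', -, hN', hmain⟩ := explicitV (r := 2 ^ (k + 1) - 1) (k := k + 1) (m := m) (B := _)
    M hst (by omega) h1 h2 h3 h4 rfl h5 h6 h7 h8 h9 h10 h11 h12 hT h13 (by omega) h14
    (by
      rintro G hG ⟨l, hl, hw⟩
      exact hno G hG ⟨l, by omega, hw⟩)
    hacc
  have hfin := h15 N' hN' hmain
  have hmm : (k + 1) * (k + 1 + 1) / 2 + 1 = (k + 1) * (k + 2) / 2 + 1 := rfl
  rw [hmm]
  exact_mod_cast hfin

end MTV
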