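import Pool.Agent.Lib.MTV.Lll

/-!
# MTV.Ext (MP_e46137_lc): the extremal pair
-/

namespace MTV

open Classical Finset MTX

variable {N : ℕ}

theorem mem_Fam {w : ℕ} {X : Finset (Col N)} {U : PC N} :
    U ∈ Fam w X ↔ 1 ≤ size U ∧ size U ≤ w ∧ ∀ χ ∈ X, ¬ Agree U χ := by
  unfold Fam
  rw [mem_filter]
  exact ⟨fun h => h.2, fun h => ⟨mem_univ _, h⟩⟩

theorem Fam_mono {w : ℕ} {X X' : Finset (Col N)} (h : X' ⊆ X) : Fam w X ⊆ Fam w X' := by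
  intro U hU
  rw [mem_Fam] at hU ⊢
  exact ⟨hU.1, hU.2.1, fun χ hχ => hU.2.2 χ (h hχ)⟩

/-- The extremal pair: `X ⊆ X₀` and a family `𝒰` avoided by `X` which maximise
`val 𝒰 + 3 log |X|`. -/
theorem exists_ext (w : ℕ) {X₀ : Finset (Col N)} (hX₀ : X₀.Nonempty) :
    ∃ (X : Finset (Col N)) (𝒰 : Finset (PC N)), X ⊆ X₀ ∧ X.Nonempty ∧ 𝒰 ⊆ Fam w X ∧
      (∀ X' ⊆ X, X'.Nonempty → ∀ 𝒱 ⊆ Fam w X',
        val 𝒱 + 3 * Real.log X'.card ≤ val 𝒰 + 3 * Real.log X.card) ∧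
      ∑ U ∈ 𝒰, wt U ≤ 3 * (N * Real.log 2 - Real.log X₀.card) ∧
      2 * Real.log X₀.card - N * Real.log 2 ≤ Real.log X.card := by
  obtain ⟨T, hT⟩ : ∃ T : Finset (Finset (Col N) × Finset (PC N)), T =
      univ.filter (fun p => p.1 ⊆ X₀ ∧ p.1.Nonempty ∧ p.2 ⊆ Fam w p.1) := ⟨_, rfl⟩
  have hmem : ∀ p, p ∈ T ↔ p.1 ⊆ X₀ ∧ p.1.Nonempty ∧ p.2 ⊆ Fam w p.1 := by
    intro p
    rw [hT, mem_filter]
    exact ⟨fun h => h.2, fun h => ⟨mem_univ _, h⟩⟩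
  have h0 : (X₀, (∅ : Finset (PC N))) ∈ T :=
    (hmem _).2 ⟨Subset.refl _, hX₀, empty_subset _⟩
  obtain ⟨⟨X, 𝒰⟩, hXU, hmax⟩ := exists_max_image T
    (fun p => val p.2 + 3 * Real.log p.1.card) ⟨_, h0⟩
  obtain ⟨hX, hne, hU⟩ := (hmem _).1 hXU
  have hmax' : ∀ X' 𝒱, X' ⊆ X₀ → X'.Nonempty → 𝒱 ⊆ Fam w X' →
      val 𝒱 + 3 * Real.log X'.card ≤ val 𝒰 + 3 * Real.log X.card :=
    fun X' 𝒱 h1 h2 h3 => hmax (X', 𝒱) ((hmem _).2 ⟨h1, h2, h3⟩)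
  -- removing a member does not increase the value
  have hloc : ∀ U ∈ 𝒰, 4 * ∑ V ∈ 𝒰, pw U V ≤ wt U := by
    intro U hUm
    have h1 := hmax' X (𝒰.erase U) hX hne ((erase_subset _ _).trans hU)
    have h2 := val_insert (notMem_erase U 𝒰)
    rw [insert_erase hUm] at h2
    have h3 : ∑ V ∈ 𝒰, pw U V = ∑ V ∈ 𝒰.erase U, pw U V := by
      rw [← insert_erase hUm, sum_insert (notMem_erase U 𝒰), pw_self, zero_add,
        erase_insert (notMem_erase U 𝒰)]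
    rw [h3]
    linarith
  -- `X` avoids the family
  have hsub : X ⊆ univ.filter (fun χ : Col N => ∀ U ∈ 𝒰, ¬ Agree U χ) := by
    intro χ hχ
    rw [mem_filter]
    exact ⟨mem_univ _, fun U hUm => (mem_Fam.1 (hU hUm)).2.2 χ hχ⟩
  have h1 := lll (fun U hUm => (mem_Fam.1 (hU hUm)).1) hloc
  have hXpos : (0 : ℝ) < X.card := by exact_mod_cast card_pos.2 hne
  have h2 : (X.card : ℝ) ≤ 2 ^ N * Real.exp (-(2 / 3) * ∑ U ∈ 𝒰, wt U) := by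
    refine le_trans ?_ h1
    exact_mod_cast card_le_card hsub
  have h3 : Real.log X.card ≤ N * Real.log 2 - 2 / 3 * ∑ U ∈ 𝒰, wt U := by
    have h4 := Real.log_le_log hXpos h2
    rw [Real.log_mul (by positivity) (Real.exp_ne_zero _), Real.log_exp, Real.log_pow] at h4
    linarith
  have h5 := val_le 𝒰
  have h6 := hmax' X₀ ∅ (Subset.refl _) hX₀ (empty_subset _)
  rw [val_empty, zero_add] at h6
  refine ⟨X, 𝒰, hX, hne, hU, fun X' hX' hne' 𝒱 h𝒱 =>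
    hmax' X' 𝒱 (hX'.trans hX) hne' h𝒱, ?_, ?_⟩
  · linarith
  · linarith

end MTV
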