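import Pool.Agent.Lib.MTX.LowerN

/-!
# MTV.LowerN (MP_e46137_lc): numerics of the lower bound (pure analysis)

The file `MTX/LowerN.lean` with `(log n) ^ 11` instead of `(log n) ^ 7` in the side condition.
-/

namespace MTV

open MTX

namespace LowerNAux

/-- the real inequality -/
theorem coreV {C1 L LL Lam D ll κ k logT : ℝ} (hC1 : 0 ≤ C1) (hL : 2 ≤ L) (hLL : 1 ≤ LL)
    (hLL2 : LL ^ 2 ≤ 9 * L) (hLam0 : 0 ≤ Lam) (hLam : Lam ≤ L) (hll0 : 0 ≤ ll) (hll : ll ≤ 1 + LL)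
    (hD : 1 ≤ D) (hκ : κ = min D Lam) (hk1 : 1 ≤ k) (hkD : k ≤ D) (hkL : k ≤ Lam - (C1 + 11 * ll))
    (hk2 : D < k + 1 ∨ Lam - (C1 + 11 * ll) < k + 1)
    (hmain : (k - 1) * L ≤ logT + (k - 1) * (C1 + 11 * ll + (L - Lam)) + (k * (k + 1) / 2 + 1)) :
    κ * Lam - κ ^ 2 / 2 - (9 * (C1 + 23) ^ 2 + C1 + 40) * (L + κ * LL) ≤ logT := by
  have hα : 0 ≤ C1 + 11 * ll := by positivity
  have hκD : κ ≤ D := by rw [hκ]; exact min_le_left _ _
  have hκL : κ ≤ Lam := by rw [hκ]; exact min_le_right _ _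
  have hkκ : k ≤ κ := by
    rw [hκ]
    exact le_min hkD (by linarith)
  have hκ0 : 0 ≤ κ := by linarith
  have h1 : κ * Lam - κ ^ 2 / 2 - (k * Lam - k ^ 2 / 2) ≤ (9 * (C1 + 23) ^ 2 + 1) * L := by
    have e : κ * Lam - κ ^ 2 / 2 - (k * Lam - k ^ 2 / 2) = (κ - k) * (Lam - (κ + k) / 2) := by ring
    rw [e]
    rcases hk2 with h | h
    · have h2 : κ - k ≤ 1 := by linarith
      have h3 : 0 ≤ Lam - (κ + k) / 2 := by linarith
      have h4 : Lam - (κ + k) / 2 ≤ L := by linarith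
      have h5 : (κ - k) * (Lam - (κ + k) / 2) ≤ 1 * L :=
        mul_le_mul h2 h4 h3 (by norm_num)
      nlinarith [mul_nonneg (sq_nonneg (C1 + 23)) (by linarith : (0 : ℝ) ≤ L)]
    · have h2 : κ - k ≤ (C1 + 23) * LL := by nlinarith
      have h3 : 0 ≤ Lam - (κ + k) / 2 := by linarith
      have h6 : Lam - k ≤ (C1 + 23) * LL := by nlinarith
      have h4 : Lam - (κ + k) / 2 ≤ (C1 + 23) * LL := by linarith
      have h5 : (κ - k) * (Lam - (κ + k) / 2) ≤ ((C1 + 23) * LL) * ((C1 + 23) * LL) :=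
        mul_le_mul h2 h4 h3 (by positivity)
      have h7 : ((C1 + 23) * LL) * ((C1 + 23) * LL) = (C1 + 23) ^ 2 * LL ^ 2 := by ring
      have h8 : (C1 + 23) ^ 2 * LL ^ 2 ≤ (C1 + 23) ^ 2 * (9 * L) :=
        mul_le_mul_of_nonneg_left hLL2 (sq_nonneg _)
      nlinarith
  have h2 : k * Lam - k ^ 2 / 2 - logT ≤ Lam + (k - 1) * (C1 + 11 * ll) + k / 2 + 1 := by
    nlinarith
  have h3 : (k - 1) * (C1 + 11 * ll) ≤ κ * ((C1 + 22) * LL) := by
    have e1 : k - 1 ≤ κ := by linarith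
    have e2 : C1 + 11 * ll ≤ (C1 + 22) * LL := by nlinarith
    exact mul_le_mul e1 e2 (by positivity) hκ0
  have h4 : k / 2 ≤ κ * LL := by nlinarith
  have h5 : 0 ≤ κ * LL := by positivity
  nlinarith [mul_nonneg (sq_nonneg (C1 + 23)) h5]

end LowerNAux

/-- `hmain` = conclusion of `explicit2`.  Take `k` maximal with `2 ^ k ≤ d` and
`C l ^ 11 S 2 ^ k ≤ n`, `l = Nat.log 2 n + 1 ≤ 2 logb 2 n`.  `hmain` gives
`logb 2 T ≥ (k - 1) (Λ - logb 2 (C l ^ 11)) - k (k + 1) / 2 ≥ k Λ - k ^ 2 / 2 - Λ - k (11 loglog n + C')`.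
Either `2 ^ (k + 1) > d`: `κ - k ≤ 1`, or `C l ^ 11 S 2 ^ (k + 1) > n`:
`κ - k ≤ Λ - k ≤ 11 loglog n + C'`; in both cases the function `x ↦ x Λ - x ^ 2 / 2` with derivative
`Λ - x` changes by at most `(κ - k) (Λ - k) ≤ Λ` resp. `(11 loglog n + C') ^ 2` between `k` and `κ`,
and `(loglog n) ^ 2 ≤ C'' logb 2 n`.  If there is no such `k ≥ 1` then `κ ≤ 1` or
`Λ ≤ 11 loglog n + C'` and `phi ≤ κ Λ`. -/
theorem lower_num11 (C : ℕ) (hC : 1 ≤ C) : ∃ c : ℝ, 0 < c ∧ ∀ (n S d T : ℕ), 4 ≤ n → 1 ≤ S → S ≤ n →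
    2 ≤ d → d ≤ n → 1 ≤ T →
    (T ≤ 2 ^ (Nat.log 2 n + 1) ^ 2 → ∀ k, 1 ≤ k → 2 ^ k ≤ d →
      C * (Nat.log 2 n + 1) ^ 11 * S * 2 ^ k ≤ n →
      n ^ (k - 1) ≤ T * (C * (Nat.log 2 n + 1) ^ 11 * S) ^ (k - 1) * 2 ^ (k * (k + 1) / 2 + 1)) →
    phi n S d - c * err n S d ≤ Real.logb 2 T := by
  have hC0 : (1 : ℝ) ≤ C := by exact_mod_cast hC
  obtain ⟨C1, hC1⟩ : ∃ C1 : ℝ, C1 = Real.logb 2 C := ⟨_, rfl⟩
  have hC1p : 0 ≤ C1 := by
    rw [hC1]
    exact Real.logb_nonneg (by norm_num) hC0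
  refine ⟨9 * (C1 + 23) ^ 2 + C1 + 40, by positivity, ?_⟩
  intro n S d T hn hS hSn hd hdn hT hmain
  have hn0 : (0 : ℝ) < n := by
    have : (4 : ℝ) ≤ n := by exact_mod_cast hn
    linarith
  have hS0 : (0 : ℝ) < S := by exact_mod_cast hS
  have hT0 : (1 : ℝ) ≤ T := by exact_mod_cast hT
  have hd0 : (0 : ℝ) < d := by
    have : (2 : ℝ) ≤ d := by exact_mod_cast hd
    linarith
  unfold phi err
  obtain ⟨L, hL⟩ : ∃ L : ℝ, L = Real.logb 2 n := ⟨_, rfl⟩
  have hL2 : 2 ≤ L := by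
    rw [hL, Real.le_logb_iff_rpow_le (by norm_num) hn0]
    have : (4 : ℝ) ≤ n := by exact_mod_cast hn
    norm_num
    linarith
  obtain ⟨LL, hLL⟩ : ∃ LL : ℝ, LL = Real.logb 2 L := ⟨_, rfl⟩
  have hLL1 : 1 ≤ LL := by
    rw [hLL, Real.le_logb_iff_rpow_le (by norm_num) (by linarith)]
    rw [Real.rpow_one]
    exact hL2
  have hLLsq : LL ^ 2 ≤ 9 * L := by
    rw [hLL]
    exact MTX.LowerNAux.LL_sq hL2
  obtain ⟨l, hl⟩ : ∃ l : ℕ, l = Nat.log 2 n + 1 := ⟨_, rfl⟩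
  rw [← hl] at hmain
  have hlr : (l : ℝ) = (Nat.log 2 n : ℝ) + 1 := by rw [hl]; push_cast; rfl
  have hl1 : (1 : ℝ) ≤ l := by
    rw [hlr]
    have : (0 : ℝ) ≤ (Nat.log 2 n : ℝ) := Nat.cast_nonneg _
    linarith
  have hlup : (l : ℝ) ≤ 2 * L := by
    have h1 : ((Nat.log 2 n : ℕ) : ℝ) ≤ Real.logb 2 n := by
      have h2 := Real.natLog_le_logb n 2
      exact_mod_cast h2
    rw [hlr, hL]
    rw [hL] at hL2
    linarith
  have hllo : L ≤ l := by
    rw [hL, hl]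
    have h1 : n < 2 ^ (Nat.log 2 n + 1) := Nat.lt_pow_succ_log_self (by norm_num) n
    rw [Real.logb_le_iff_le_rpow (by norm_num) hn0, Real.rpow_natCast]
    exact_mod_cast h1.le
  obtain ⟨ll, hll⟩ : ∃ ll : ℝ, ll = Real.logb 2 l := ⟨_, rfl⟩
  have hll0 : 0 ≤ ll := by
    rw [hll]
    exact Real.logb_nonneg (by norm_num) hl1
  have hllup : ll ≤ 1 + LL := by
    have h1 : Real.logb 2 (2 * L) = 1 + LL := by
      rw [Real.logb_mul (by norm_num) (by linarith), hLL]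
      simp
    rw [hll, ← h1]
    exact Real.logb_le_logb_of_le (by norm_num) (by linarith) hlup
  have hlam : lam n S = L - Real.logb 2 S := by
    unfold lam
    rw [Real.logb_div hn0.ne' hS0.ne', hL]
  have hlogS : 0 ≤ Real.logb 2 S := Real.logb_nonneg (by norm_num) (by exact_mod_cast hS)
  have hlogS2 : Real.logb 2 S ≤ L := by
    rw [hL]
    exact MTX.LowerNAux.logb_natCast_pow_le hS hSn
  have hlam0 : 0 ≤ lam n S := by rw [hlam]; linarith
  have hlamL : lam n S ≤ L := by rw [hlam]; linarith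
  obtain ⟨D, hD⟩ : ∃ D : ℝ, D = Real.logb 2 d := ⟨_, rfl⟩
  have hD1 : 1 ≤ D := by
    rw [hD, Real.le_logb_iff_rpow_le (by norm_num) hd0, Real.rpow_one]
    exact_mod_cast hd
  have hkap : kap n S d = min D (lam n S) := by
    unfold kap
    rw [hD]
  have hκ0 : 0 ≤ kap n S d := by
    rw [hkap]
    exact le_min (by linarith) hlam0
  have hκlam : kap n S d ≤ lam n S := by
    rw [hkap]
    exact min_le_right _ _
  have hlogT : 0 ≤ Real.logb 2 T := Real.logb_nonneg (by norm_num) hT0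
  rw [← hL, ← hLL]
  have hpos : 0 ≤ (9 * (C1 + 23) ^ 2 + C1 + 40) * (L + kap n S d * LL) := by positivity
  by_cases hTl : T ≤ 2 ^ l ^ 2
  · have hm := hmain hTl
    by_cases hμ : lam n S - (C1 + 11 * ll) < 1
    · have h1 : kap n S d * lam n S ≤ kap n S d * ((C1 + 23) * LL) := by
        apply mul_le_mul_of_nonneg_left _ hκ0
        nlinarith
      nlinarith [mul_nonneg hκ0 (by linarith : (0 : ℝ) ≤ LL),
        mul_nonneg (sq_nonneg (C1 + 23)) (mul_nonneg hκ0 (by linarith : (0 : ℝ) ≤ LL)),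
        mul_nonneg (sq_nonneg (C1 + 23)) (by linarith : (0 : ℝ) ≤ L), sq_nonneg (kap n S d)]
    · push Not at hμ
      obtain ⟨k, hk⟩ : ∃ k : ℕ, k = ⌊min D (lam n S - (C1 + 11 * ll))⌋₊ := ⟨_, rfl⟩
      have hmin1 : 1 ≤ min D (lam n S - (C1 + 11 * ll)) := le_min hD1 hμ
      have hkle : (k : ℝ) ≤ min D (lam n S - (C1 + 11 * ll)) := by
        rw [hk]
        exact Nat.floor_le (by linarith)
      have hklt : min D (lam n S - (C1 + 11 * ll)) < k + 1 := by
        rw [hk]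
        exact Nat.lt_floor_add_one _
      have hk1 : 1 ≤ k := by
        rw [hk]
        exact Nat.le_floor (by exact_mod_cast hmin1)
      have hk1r : (1 : ℝ) ≤ k := by exact_mod_cast hk1
      have hkD : (k : ℝ) ≤ D := hkle.trans (min_le_left _ _)
      have hkL : (k : ℝ) ≤ lam n S - (C1 + 11 * ll) := hkle.trans (min_le_right _ _)
      have hl0 : (0 : ℝ) < l := by linarith
      have c1 : 2 ^ k ≤ d := by
        have h1 : ((2 : ℝ)) ^ (k : ℝ) ≤ d := by
          rw [← Real.le_logb_iff_rpow_le (by norm_num) hd0, ← hD]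
          exact hkD
        rw [Real.rpow_natCast] at h1
        exact_mod_cast h1
      have c2 : C * l ^ 11 * S * 2 ^ k ≤ n := by
        have hC00 : (0 : ℝ) < C := by linarith
        have h1 : Real.logb 2 ((C : ℝ) * l ^ 11 * S * 2 ^ k) = C1 + 11 * ll + Real.logb 2 S + k := by
          rw [Real.logb_mul (by positivity) (by positivity),
            Real.logb_mul (by positivity) (by positivity),
            Real.logb_mul (by positivity) (by positivity), Real.logb_pow, Real.logb_pow,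
            Real.logb_self_eq_one (by norm_num), ← hC1, ← hll]
          push_cast
          ring
        have h2 : (C : ℝ) * l ^ 11 * S * 2 ^ k ≤ n := by
          rw [← Real.logb_le_logb (b := 2) (by norm_num) (by positivity) hn0, h1, ← hL]
          rw [hlam] at hkL
          linarith
        exact_mod_cast h2
      have h3 := hm k hk1 c1 c2
      have hk2 : D < (k : ℝ) + 1 ∨ lam n S - (C1 + 11 * ll) < (k : ℝ) + 1 := by
        rcases min_lt_iff.1 hklt with h | h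
        · exact Or.inl h
        · exact Or.inr h
      refine LowerNAux.coreV (k := (k : ℝ)) hC1p hL2 hLL1 hLLsq hlam0 hlamL hll0 hllup hD1 hkap
        hk1r hkD hkL hk2 ?_
      have hC00 : (0 : ℝ) < C := by linarith
      have h4 : ((n : ℝ)) ^ (k - 1) ≤ (T : ℝ) * ((C : ℝ) * l ^ 11 * S) ^ (k - 1) *
          2 ^ (k * (k + 1) / 2 + 1) := by exact_mod_cast h3
      have h5 := Real.logb_le_logb_of_le (b := 2) (by norm_num) (by positivity) h4
      rw [Real.logb_pow, Real.logb_mul (by positivity) (by positivity),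
        Real.logb_mul (by positivity) (by positivity), Real.logb_pow, Real.logb_pow,
        Real.logb_mul (by positivity) (by positivity),
        Real.logb_mul (by positivity) (by positivity), Real.logb_pow,
        Real.logb_self_eq_one (by norm_num), ← hC1, ← hll, ← hL] at h5
      have h6 : ((k - 1 : ℕ) : ℝ) = (k : ℝ) - 1 := by
        rw [Nat.cast_sub hk1]
        simp
      have h7 : ((k * (k + 1) / 2 + 1 : ℕ) : ℝ) = (k : ℝ) * (k + 1) / 2 + 1 := by
        have h8 : 2 * (k * (k + 1) / 2) = k * (k + 1) :=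
          Nat.mul_div_cancel' (Nat.even_mul_succ_self k).two_dvd
        have h9 : (2 : ℝ) * ((k * (k + 1) / 2 : ℕ) : ℝ) = (k : ℝ) * (k + 1) := by
          exact_mod_cast h8
        rw [Nat.cast_add, Nat.cast_one]
        linarith
      rw [h6, h7] at h5
      rw [hlam]
      push_cast at h5
      nlinarith
  · push Not at hTl
    have h1 : (l : ℝ) ^ 2 ≤ Real.logb 2 T := by
      rw [Real.le_logb_iff_rpow_le (by norm_num) (by linarith)]
      have h2 : (2 : ℝ) ^ ((l : ℝ) ^ 2) = ((2 ^ l ^ 2 : ℕ) : ℝ) := by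
        have h3 : ((l : ℝ) ^ 2) = ((l ^ 2 : ℕ) : ℝ) := by
          rw [Nat.cast_pow]
        rw [h3, Real.rpow_natCast, Nat.cast_pow, Nat.cast_ofNat]
      rw [h2]
      exact_mod_cast hTl.le
    have h2 : kap n S d * lam n S ≤ L * L :=
      mul_le_mul (hκlam.trans hlamL) hlamL hlam0 (by linarith)
    have h3 : L * L ≤ (l : ℝ) ^ 2 := by nlinarith
    nlinarith [sq_nonneg (kap n S d)]

end MTV
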