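import Pool.Agent.Lib.MTV.Expl
import Pool.Agent.Lib.MTV.LowerN
import Pool.Agent.Lib.MTU.FinalD

/-!
# MTV.FinalV (MP_e46137_lc): machines which may rely on the presence of `n / (c (log n) ^ 5)` edges
-/

namespace MTV

open Classical Finset MTU MTU.FinalAux MTU.FinalCAux MTU.FinalDAux MTU.SimAux

/-- **Lower bound** for machines which may rely on the presence of many edges. -/
theorem posW : ∃ c : ℝ, 0 < c ∧ ∀ (n S m d T : ℕ) (s t : Fin n), 4 ≤ n → 1 ≤ S → S ≤ n →
    2 ≤ d → d ≤ n → s ≠ t → c * Real.logb 2 n ^ 5 * m ≤ n →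
    ∀ (W : Type) [Fintype W], Fintype.card W ≤ 2 ^ S → ∀ M : Unreach.Mach n W,
      (∀ G : Fin n → Fin n → Bool, (∀ a b, G a b = G b a) →
        (∃ l ≤ d, SharpTS.HasWalk G l s t) → ¬ M.AcceptsUsing T m G) →
      1 ≤ Unreach.accCut M T m s t * 2 ^ m →
      SharpTS.phi n S d - c * SharpTS.err n S d ≤ Real.logb 2 T := by
  obtain ⟨c, hc, hL⟩ := lower_num11 (10 ^ 9) (by norm_num)
  refine ⟨c + 10 ^ 7, by positivity, ?_⟩
  intro n S m d T s t hn hS hSn hd hdn hst hm W _ hW M hno hacc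
  have hlog2 := logb_two_le hn
  have hl := log_le hn
  have hm2 : 10 ^ 5 * (Nat.log 2 n + 1) ^ 5 * m ≤ n := by
    have h1 : (((Nat.log 2 n + 1 : ℕ) : ℝ)) ^ 5 ≤ (2 * Real.logb 2 n) ^ 5 :=
      pow_le_pow_left₀ (by positivity) hl 5
    have h2 : ((10 ^ 5 * (Nat.log 2 n + 1) ^ 5 * m : ℕ) : ℝ) ≤ (n : ℝ) := by
      refine le_trans ?_ hm
      calc ((10 ^ 5 * (Nat.log 2 n + 1) ^ 5 * m : ℕ) : ℝ)
          = 10 ^ 5 * (((Nat.log 2 n + 1 : ℕ) : ℝ)) ^ 5 * m := by
            push_cast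
            ring
        _ ≤ 10 ^ 5 * (2 * Real.logb 2 n) ^ 5 * m := by gcongr
        _ = (32 * 10 ^ 5) * Real.logb 2 n ^ 5 * m := by ring
        _ ≤ (c + 10 ^ 7) * Real.logb 2 n ^ 5 * m := by
            gcongr
            linarith
    exact_mod_cast h2
  have hT : 1 ≤ T := by
    rcases Nat.eq_zero_or_pos T with h | h
    · exfalso
      subst h
      have h1 : ¬ M.acc M.start := fun h1 => by
        refine hno (fun _ _ => true) (fun _ _ => rfl) ⟨1, by omega, s, rfl, rfl⟩ ?_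
        rw [accepts_zero]
        exact h1
      have h2 : Unreach.accCut M 0 m s t = 0 := by
        unfold Unreach.accCut
        have h3 : (SharpTS.cuts n s t).filter
            (fun C => M.AcceptsUsing 0 m (SharpTS.cutGraph C)) = ∅ := by
          rw [filter_eq_empty_iff]
          intro C _ h4
          rw [accepts_zero] at h4
          exact h1 h4
        rw [h3, card_empty, Nat.cast_zero, zero_div]
      rw [h2, zero_mul] at hacc
      linarith
    · exact h
  have hmain := hL n S d T hn hS hSn hd hdn hT (fun hT2 k hk hkd hkn =>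
    explicitW hk hst hS hT M hW hno hacc hT2 hkd hm2 hkn)
  have hE1 := err_ge_one hn hS hSn (by omega : 1 ≤ d)
  have e3 : SharpTS.phi n S d = MTX.phi n S d := rfl
  have e4 : SharpTS.err n S d = MTX.err n S d := rfl
  rw [← e3, ← e4] at hmain
  nlinarith

/-- **Lower bound** for machines which may rely on the presence of many edges. -/
theorem posV : ∃ c : ℝ, 0 < c ∧ ∀ (n S m d T : ℕ) (s t : Fin n), 4 ≤ n → 1 ≤ S → S ≤ n →
    2 ≤ d → d ≤ n → s ≠ t → c * Real.logb 2 n ^ 5 * m ≤ n →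
    ∀ (W : Type) [Fintype W], Fintype.card W ≤ 2 ^ S → ∀ M : Cert.Mach n W,
      (∀ G : Fin n → Fin n → Bool, (∀ a b, G a b = G b a) →
        (∃ l ≤ d, SharpTS.HasWalk G l s t) → ¬ M.AcceptsUsing T m G) →
      1 ≤ Cert.cutProb s t (M.AcceptsUsing T m) * 2 ^ m →
      SharpTS.phi n S d - c * SharpTS.err n S d ≤ Real.logb 2 T := by
  obtain ⟨c, hc, hL⟩ := posW
  refine ⟨c + 2, by linarith, ?_⟩
  intro n S m d T s t hn hS hSn hd hdn hst hm W _ hW M hno hacc
  have h3 := err_ge' (d := d) hn hS hSn (by omega)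
  have hκ0 : 0 ≤ SharpTS.kap n S d := kap_nonneg' hS hSn (by omega)
  have hlog2 := logb_two_le hn
  have hm2 : c * Real.logb 2 n ^ 5 * m ≤ n := by
    refine le_trans ?_ hm
    gcongr
    linarith
  have hlogT : 0 ≤ Real.logb 2 (T : ℝ) := by
    rcases Nat.eq_zero_or_pos T with h | h
    · rw [h, Nat.cast_zero, Real.logb_zero]
    · exact Real.logb_nonneg (by norm_num) (by exact_mod_cast h)
  by_cases h2S : S + S ≤ n
  · have hacc' : 1 ≤ Unreach.accCut (toI M) (2 * T) m s t * 2 ^ m := by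
      rw [cut_toI]
      exact hacc
    have hmain := hL n (S + S) m d (2 * T) s t hn (by omega) h2S hd hdn hst hm2 (W × W)
      (card_sq hW) (toI M) (by
        intro G hG hw h
        rw [toI_accepts] at h
        exact hno G hG hw h) hacc'
    obtain ⟨h1, h2⟩ := phi_double' hn hS h2S hd
    have h4 : c * SharpTS.err n (S + S) d ≤ c * SharpTS.err n S d :=
      mul_le_mul_of_nonneg_left h2 hc.le
    have h5 : Real.logb 2 (((2 * T : ℕ) : ℝ)) ≤ 1 + Real.logb 2 (T : ℝ) := by
      rcases Nat.eq_zero_or_pos T with h | h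
      · rw [h]
        simp
      · have e1 : ((2 * T : ℕ) : ℝ) = 2 * (T : ℝ) := by push_cast; ring
        have hT1 : (1 : ℝ) ≤ T := by exact_mod_cast h
        rw [e1, Real.logb_mul (by norm_num) (by positivity),
          Real.logb_self_eq_one (by norm_num)]
    nlinarith
  · have h1 := phi_small (S := S) hn hS hSn (by omega) (by omega : 1 ≤ d)
    nlinarith

/-- **Space lower bound** for machines without a clock, whatever the time. -/
theorem spaceV : ∃ c : ℝ, 0 < c ∧ ∀ (n m d : ℕ) (s t : Fin n), 4 ≤ n →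
    2 ≤ d → d ≤ n → s ≠ t → c * Real.logb 2 n ^ 5 * m ≤ n →
    ∀ (W : Type) [Fintype W] (M : Cert.Mach n W), M.Clockless →
      (∀ G : Fin n → Fin n → Bool, (∀ a b, G a b = G b a) →
        (∃ l ≤ d, SharpTS.HasWalk G l s t) → ∀ T, ¬ M.AcceptsUsing T m G) →
      1 ≤ Cert.cutProb s t (fun G => ∃ T, M.AcceptsUsing T m G) * 2 ^ m →
      SharpTS.phi n 1 d - c * SharpTS.err n 1 d ≤ Real.logb 2 (Fintype.card W) := by
  obtain ⟨c, hc, hL⟩ := posV
  refine ⟨c + 4, by linarith, ?_⟩
  intro n m d s t hn hd hdn hst hm W _ M hM hno hacc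
  have hn0 : (4 : ℝ) ≤ n := by exact_mod_cast hn
  have hW1 : 1 ≤ Fintype.card W := Fintype.card_pos_iff.2 ⟨M.start⟩
  have hW0 : (1 : ℝ) ≤ (Fintype.card W : ℝ) := by exact_mod_cast hW1
  have hlogW : 0 ≤ Real.logb 2 (Fintype.card W : ℝ) := Real.logb_nonneg (by norm_num) hW0
  obtain ⟨S, hS1, hWS, hSW⟩ := bits hW1
  have hS0 : (1 : ℝ) ≤ S := by exact_mod_cast hS1
  have hx := logb_two_le hn
  have hm2 : c * Real.logb 2 n ^ 5 * m ≤ n := by
    refine le_trans ?_ hm
    gcongr
    linarith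
  have hκ0 : 0 ≤ SharpTS.kap n 1 d := kap_nonneg' le_rfl (by omega) (by omega)
  have hlam0 : 0 ≤ SharpTS.lam n 1 := lam_nonneg' le_rfl (by omega)
  have hE := err_ge' (S := 1) (d := d) hn le_rfl (by omega) (by omega)
  have hll := MTX.loglog_ge hn
  have hEe : SharpTS.err n 1 d = Real.logb 2 n +
      SharpTS.kap n 1 d * Real.logb 2 (Real.logb 2 n) := rfl
  rcases lt_or_ge (Real.logb 2 n ^ 2) (S : ℝ) with hbig | hsmall
  · have h1 := phi_le_sq (n := n) (a := 1) (d := d)
    have h2 := lam_le (a := 1) hn le_rfl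
    have h3 : SharpTS.lam n 1 ^ 2 ≤ Real.logb 2 n ^ 2 := pow_le_pow_left₀ hlam0 h2 2
    nlinarith
  · have hlogS : Real.logb 2 (S : ℝ) ≤ 2 * Real.logb 2 (Real.logb 2 n) := by
      have h1 : Real.logb 2 (S : ℝ) ≤ Real.logb 2 (Real.logb 2 n ^ 2) :=
        Real.logb_le_logb_of_le (by norm_num) (by linarith) hsmall
      rw [Real.logb_pow] at h1
      exact_mod_cast h1
    by_cases hSn : S ≤ n
    · have hmain := hL n S m d (2 ^ S) s t hn hS1 hSn hd hdn hst hm2 W hWS (idle M) (by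
        intro G hG hw h
        obtain ⟨T, hT⟩ := of_idle hM h
        exact hno G hG hw T hT) (by
        refine hacc.trans (mul_le_mul_of_nonneg_right ?_ (by positivity))
        unfold Cert.cutProb
        apply div_le_div_of_nonneg_right _ (Nat.cast_nonneg _)
        exact_mod_cast card_le_card (fun C hC => by
          obtain ⟨h1, T, hT⟩ := mem_filter.1 hC
          exact mem_filter.2 ⟨h1, idle_of hM hWS hT⟩))
      have e : Real.logb 2 (((2 ^ S : ℕ) : ℝ)) = S := by
        push_cast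
        rw [← Real.rpow_natCast, Real.logb_rpow (by norm_num) (by norm_num)]
      rw [e] at hmain
      obtain ⟨h1, h2⟩ := phi_shift (a := 1) (b := S) (d := d) hn le_rfl hS1
      have h3 : Real.logb 2 ((S : ℝ) / ((1 : ℕ) : ℝ)) ≤ 2 * Real.logb 2 (Real.logb 2 n) := by
        rw [Nat.cast_one, div_one]
        exact hlogS
      have h5 : SharpTS.kap n 1 d * Real.logb 2 ((S : ℝ) / ((1 : ℕ) : ℝ)) ≤
          SharpTS.kap n 1 d * (2 * Real.logb 2 (Real.logb 2 n)) :=
        mul_le_mul_of_nonneg_left h3 hκ0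
      have h6 : c * SharpTS.err n S d ≤ c * SharpTS.err n 1 d :=
        mul_le_mul_of_nonneg_left h2 hc.le
      nlinarith
    · have h1 := phi_le_kap (n := n) (a := 1) (d := d)
      have h2 : SharpTS.lam n 1 ≤ 2 * Real.logb 2 (Real.logb 2 n) := by
        refine le_trans ?_ hlogS
        show Real.logb 2 ((n : ℝ) / ((1 : ℕ) : ℝ)) ≤ Real.logb 2 (S : ℝ)
        rw [Nat.cast_one, div_one]
        apply Real.logb_le_logb_of_le (by norm_num) (by positivity)
        exact_mod_cast (by omega : n ≤ S)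
      have h3 : SharpTS.kap n 1 d * SharpTS.lam n 1 ≤
          SharpTS.kap n 1 d * (2 * Real.logb 2 (Real.logb 2 n)) :=
        mul_le_mul_of_nonneg_left h2 hκ0
      nlinarith

end MTV
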