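import Pool.Agent.Lib.MTV.Defs

/-!
# MTV.Lll (MP_e46137_lc): a random colouring rarely avoids a sparse family

Proof (elementary; it is the proof of the local lemma).  For a finite family `S` of partial
colourings and a partial colouring `E` let `n(S; E)` be the number of colourings `χ` which extend `E`
and extend no member of `S`, `n(S) = n(S; emp)`.

(0) If no member of `S` has a common coloured vertex with `E` and `E'` has none with `E`, then
    `2 ^ size E * n(S; E ∪ E') = n(S; E')` (flip the colours of the vertices of `E` one by one; the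
    condition `S, E'` does not depend on them).
(*) From `h`: for `U ∈ 𝒰` the members `V ≠ U` of `𝒰` which meet `U` (common coloured vertex) satisfy
    `∑ (1/2) ^ |V \ U| ≤ 1/4` (this is `pw U V = wt U * (1/2) ^ (supp V \ supp U).card`), hence
    `∑ wt V ≤ 1/8` (`|V \ U| ≤ |V| - 1`).
(A) `S ⊆ 𝒰`, `E` any partial colouring with `∑ wt V ≤ 1/8` over the `V ∈ S` which meet `E`.  Then
    `3 * 2 ^ size E * n(S; E) ≤ 4 * n(S)`.  Induction on `S.card`: `S = S₁ ∪ S₂`, `S₁` the members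
    which meet `E`.  `n(S; E) ≤ n(S₂; E) = 2 ^ (- size E) n(S₂)` by (0).  For `V ∈ S₁` (if `S₁ ≠ ∅`,
    `S₂` is smaller) by induction with `E = V` and (*): `n(S₂; V) ≤ (4/3) wt V n(S₂)`, so
    `n(S) ≥ n(S₂) - ∑_{V ∈ S₁} n(S₂; V) ≥ (1 - (4/3)(1/8)) n(S₂) = (5/6) n(S₂)`.
(B) `S ⊆ 𝒰`, `U ∈ 𝒰 \ S`: `n(S; U) ≥ (2/3) wt U n(S)`.  `S₁` = members which meet `U`, `S₂` = rest.
    `n(S; U) ≥ n(S₂; U) - ∑_{V ∈ S₁} n(S₂; U ∪ V)` (only the `V` compatible with `U`),
    `n(S₂; U) = wt U n(S₂)`, `n(S₂; U ∪ V) = wt U n(S₂; V \ U)` by (0) (`S₂` does not meet `U`), and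
    by (A) with `E = V \ U` (the members of `S₂` which meet it meet `V`, and `V ∉ S₂`: (*)):
    `n(S₂; V \ U) ≤ (4/3) (1/2) ^ |V \ U| n(S₂)`.  So
    `n(S; U) ≥ wt U n(S₂) (1 - (4/3)(1/4)) ≥ (2/3) wt U n(S)`.
(C) `n(S ∪ {U}) = n(S) - n(S; U) ≤ n(S) (1 - (2/3) wt U) ≤ n(S) exp (- (2/3) wt U)`; induction over
    `𝒰`, `n(∅) = 2 ^ N`.
-/

namespace MTV

open Classical Finset MTX

variable {N : ℕ}

namespace LllAux

/-- the number of colourings which extend `E` and no member of `S` -/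
noncomputable def cn (S : Finset (PC N)) (E : PC N) : ℝ :=
  ((univ.filter (fun χ : Col N => Agree E χ ∧ ∀ V ∈ S, ¬ Agree V χ)).card : ℝ)

/-- the number of colourings which extend `E` and `E'` and no member of `S` -/
noncomputable def cn2 (S : Finset (PC N)) (E E' : PC N) : ℝ :=
  ((univ.filter (fun χ : Col N => Agree E χ ∧ Agree E' χ ∧ ∀ V ∈ S, ¬ Agree V χ)).card : ℝ)

theorem agree_emp (χ : Col N) : Agree (emp N) χ := fun v c h => by simp [emp] at h

theorem cn_nonneg (S : Finset (PC N)) (E : PC N) : 0 ≤ cn S E := Nat.cast_nonneg _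

theorem cnt_indep (E : PC N) (P : Col N → Prop)
    (hP : ∀ χ χ' : Col N, (∀ v, E v = none → χ v = χ' v) → (P χ → P χ')) :
    2 ^ size E * (univ.filter (fun χ : Col N => Agree E χ ∧ P χ)).card =
      (univ.filter (fun χ : Col N => P χ)).card := by
  set ov : Col N → Col N := fun χ v => (E v).getD (χ v) with hov
  have hmap : ∀ χ ∈ univ.filter (fun χ : Col N => P χ),
      ov χ ∈ univ.filter (fun χ : Col N => Agree E χ ∧ P χ) := by
    intro χ hχ
    rw [mem_filter] at hχ ⊢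
    refine ⟨mem_univ _, ?_, ?_⟩
    · intro v c hc
      simp [hov, hc]
    · refine hP χ _ ?_ hχ.2
      intro v hv
      simp [hov, hv]
  rw [card_eq_sum_card_fiberwise hmap, sum_congr rfl (g := fun _ => 2 ^ size E)]
  · rw [sum_const, smul_eq_mul, mul_comm]
  · intro χ0 hχ0
    rw [mem_filter] at hχ0
    obtain ⟨-, hA, hP0⟩ := hχ0
    have h1 : (univ.filter (fun χ : Col N => P χ)).filter (fun χ => ov χ = χ0) =
        Fintype.piFinset (fun v => if E v = none then ({χ0 v} : Finset Bool) else univ) := by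
      ext χ
      rw [mem_filter, mem_filter, Fintype.mem_piFinset]
      constructor
      · rintro ⟨⟨-, h2⟩, h3⟩ v
        by_cases hv : E v = none
        · rw [if_pos hv, mem_singleton, ← h3]
          simp [hov, hv]
        · rw [if_neg hv]
          exact mem_univ _
      · intro h2
        have h3 : ∀ v, E v = none → χ v = χ0 v := by
          intro v hv
          have h4 := h2 v
          rwa [if_pos hv, mem_singleton] at h4
        refine ⟨⟨mem_univ _, hP χ0 χ (fun v hv => (h3 v hv).symm) hP0⟩, ?_⟩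
        funext v
        cases hv : E v with
        | none => simp [hov, hv, h3 v hv]
        | some c => simp [hov, hv, hA v c hv]
    rw [h1, Fintype.card_piFinset]
    unfold size
    rw [← prod_const, prod_filter]
    refine prod_congr rfl fun v _ => ?_
    by_cases hv : E v = none
    · rw [if_pos hv, if_neg (by simp [hv]), card_singleton]
    · rw [if_neg hv, if_pos hv]
      simp

theorem cnt_indep' (E : PC N) (P : Col N → Prop)
    (hP : ∀ χ χ' : Col N, (∀ v, E v = none → χ v = χ' v) → (P χ → P χ')) :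
    (2 : ℝ) ^ size E * ((univ.filter (fun χ : Col N => Agree E χ ∧ P χ)).card : ℝ) =
      ((univ.filter (fun χ : Col N => P χ)).card : ℝ) := by
  exact_mod_cast cnt_indep E P hP

theorem agree_of {E V : PC N} (h : Disjoint (supp E) (supp V)) {χ χ' : Col N}
    (hχ : ∀ v, E v = none → χ v = χ' v) (h1 : Agree V χ) : Agree V χ' := by
  intro v c hc
  have h2 : v ∈ supp V := (mem_supp V v).2 (by rw [hc]; simp)
  have h3 : E v = none := by
    by_contra h4
    exact (disjoint_left.1 h ((mem_supp E v).2 h4)) h2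
  rw [← hχ v h3]
  exact h1 v c hc

theorem avoid_of {E : PC N} {S : Finset (PC N)} (h : ∀ V ∈ S, Disjoint (supp E) (supp V))
    {χ χ' : Col N} (hχ : ∀ v, E v = none → χ v = χ' v) (h1 : ∀ V ∈ S, ¬ Agree V χ) :
    ∀ V ∈ S, ¬ Agree V χ' :=
  fun V hV h2 => h1 V hV (agree_of (h V hV) (fun v hv => (hχ v hv).symm) h2)

theorem cn_emp (S : Finset (PC N)) : cn S (emp N) =
    ((univ.filter (fun χ : Col N => ∀ V ∈ S, ¬ Agree V χ)).card : ℝ) := by
  unfold cn
  congr 2
  ext χ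
  rw [mem_filter, mem_filter]
  exact ⟨fun h => ⟨h.1, h.2.2⟩, fun h => ⟨h.1, agree_emp χ, h.2⟩⟩

theorem cn_indep {E : PC N} {S : Finset (PC N)} (h : ∀ V ∈ S, Disjoint (supp E) (supp V)) :
    2 ^ size E * cn S E = cn S (emp N) := by
  rw [cn_emp]
  have h1 := cnt_indep' E (fun χ => ∀ V ∈ S, ¬ Agree V χ) (fun χ χ' hχ h2 => avoid_of h hχ h2)
  unfold cn
  convert h1

theorem cn2_indep {E E' : PC N} {S : Finset (PC N)}
    (h : ∀ V ∈ S, Disjoint (supp E) (supp V)) (h' : Disjoint (supp E) (supp E')) :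
    2 ^ size E * cn2 S E E' = cn S E' := by
  have h1 := cnt_indep' E (fun χ => Agree E' χ ∧ ∀ V ∈ S, ¬ Agree V χ)
    (fun χ χ' hχ h2 => ⟨agree_of h' hχ h2.1, avoid_of h hχ h2.2⟩)
  unfold cn cn2
  convert h1

theorem union_bound (S1 S2 : Finset (PC N)) (E : PC N) :
    cn S2 E ≤ cn (S1 ∪ S2) E + ∑ V ∈ S1, cn2 S2 E V := by
  have h1 : (univ.filter (fun χ : Col N => Agree E χ ∧ ∀ V ∈ S2, ¬ Agree V χ)) ⊆
      (univ.filter (fun χ : Col N => Agree E χ ∧ ∀ V ∈ S1 ∪ S2, ¬ Agree V χ)) ∪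
      S1.biUnion (fun V => univ.filter (fun χ : Col N => Agree E χ ∧ Agree V χ ∧
        ∀ W ∈ S2, ¬ Agree W χ)) := by
    intro χ hχ
    rw [mem_filter] at hχ
    rw [mem_union, mem_filter, mem_biUnion]
    by_cases hh : ∃ V ∈ S1, Agree V χ
    · obtain ⟨V, hV, hVχ⟩ := hh
      exact Or.inr ⟨V, hV, mem_filter.2 ⟨mem_univ _, hχ.2.1, hVχ, hχ.2.2⟩⟩
    · refine Or.inl ⟨mem_univ _, hχ.2.1, fun V hV => ?_⟩
      rcases mem_union.1 hV with hV | hV
      · exact fun h => hh ⟨V, hV, h⟩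
      · exact hχ.2.2 V hV
  have h2 := ((card_le_card h1).trans (card_union_le _ _)).trans
    (Nat.add_le_add_left card_biUnion_le _)
  unfold cn cn2
  exact_mod_cast h2

theorem cn_mono {S T : Finset (PC N)} (h : S ⊆ T) (E : PC N) : cn T E ≤ cn S E := by
  unfold cn
  refine Nat.cast_le.2 (card_le_card fun χ hχ => ?_)
  exact mem_filter.2 ⟨mem_univ _, (mem_filter.1 hχ).2.1,
    fun V hV => (mem_filter.1 hχ).2.2 V (h hV)⟩

theorem cn2_emp (S : Finset (PC N)) (V : PC N) : cn2 S (emp N) V = cn S V := by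
  unfold cn cn2
  congr 2
  ext χ
  rw [mem_filter, mem_filter]
  exact ⟨fun h => ⟨h.1, h.2.2⟩, fun h => ⟨h.1, agree_emp χ, h.2⟩⟩

theorem wt_mul (U : PC N) (r : ℝ) : wt U * (2 ^ size U * r) = r := by
  unfold wt
  rw [← mul_assoc, ← mul_pow]
  norm_num

theorem split_union (E : PC N) (S : Finset (PC N)) :
    S.filter (fun V => ¬ Disjoint (supp E) (supp V)) ∪
      S.filter (fun V => Disjoint (supp E) (supp V)) = S := by
  ext V
  rw [mem_union, mem_filter, mem_filter]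
  tauto

theorem lemA {𝒰 : Finset (PC N)}
    (hs : ∀ U ∈ 𝒰, ∑ V ∈ 𝒰.filter (fun V => V ≠ U ∧ ¬ Disjoint (supp U) (supp V)), wt V ≤ 1 / 8)
    (S : Finset (PC N)) : S ⊆ 𝒰 → ∀ E : PC N,
      ∑ V ∈ S.filter (fun V => ¬ Disjoint (supp E) (supp V)), wt V ≤ 1 / 8 →
      3 * (2 ^ size E * cn S E) ≤ 4 * cn S (emp N) := by
  induction S using Finset.strongInduction with
  | H S ih =>
    intro hS E hE
    set S1 := S.filter (fun V => ¬ Disjoint (supp E) (supp V)) with hS1
    set S2 := S.filter (fun V => Disjoint (supp E) (supp V)) with hS2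
    have hu : S1 ∪ S2 = S := split_union E S
    have hS2S : S2 ⊆ S := filter_subset _ _
    have h0 : 2 ^ size E * cn S2 E = cn S2 (emp N) :=
      cn_indep (fun V hV => (mem_filter.1 hV).2)
    have h1 : cn S E ≤ cn S2 E := cn_mono hS2S E
    have hp : (0 : ℝ) < 2 ^ size E := by positivity
    have h2 : 2 ^ size E * cn S E ≤ cn S2 (emp N) := by
      rw [← h0]
      exact mul_le_mul_of_nonneg_left h1 hp.le
    have h3 : ∀ V ∈ S1, cn2 S2 (emp N) V ≤ 4 / 3 * wt V * cn S2 (emp N) := by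
      intro V hV
      rw [cn2_emp]
      have hVS : V ∈ S := (mem_filter.1 hV).1
      have hV2 : V ∉ S2 := fun h => (mem_filter.1 hV).2 (mem_filter.1 h).2
      have hss : S2 ⊂ S := (ssubset_iff_of_subset hS2S).2 ⟨V, hVS, hV2⟩
      have h4 : ∑ W ∈ S2.filter (fun W => ¬ Disjoint (supp V) (supp W)), wt W ≤ 1 / 8 := by
        refine le_trans (sum_le_sum_of_subset_of_nonneg ?_ fun W _ _ => (wt_pos W).le)
          (hs V (hS hVS))
        intro W hW
        rw [mem_filter] at hW ⊢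
        exact ⟨hS (hS2S hW.1), fun h => hV2 (h ▸ hW.1), hW.2⟩
      have h5 := ih S2 hss (hS2S.trans hS) V h4
      have h6 := mul_le_mul_of_nonneg_left h5 (wt_pos V).le
      have h7 := wt_mul V (cn S2 V)
      nlinarith
    have h4 := union_bound S1 S2 (emp N)
    rw [hu] at h4
    have h5 := sum_le_sum h3
    rw [← sum_mul, ← mul_sum] at h5
    have h6 := cn_nonneg S2 (emp N)
    have h7 : 4 / 3 * (∑ V ∈ S1, wt V) * cn S2 (emp N) ≤ 1 / 6 * cn S2 (emp N) := by
      apply mul_le_mul_of_nonneg_right _ h6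
      linarith
    linarith

/-- the rest of `V` -/
noncomputable def rest (V U : PC N) : PC N := fun v => if U v = none then V v else none

theorem supp_rest (V U : PC N) : supp (rest V U) = supp V \ supp U := by
  ext v
  rw [mem_sdiff, mem_supp, mem_supp, mem_supp]
  unfold rest
  by_cases h : U v = none
  · simp [h]
  · simp [h]

theorem agree_rest {V : PC N} {χ : Col N} (U : PC N) (h : Agree V χ) :
    Agree (rest V U) χ := by
  intro v c hc
  apply h
  unfold rest at hc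
  by_cases h1 : U v = none
  · rwa [if_pos h1] at hc
  · rw [if_neg h1] at hc
    exact absurd hc (by simp)

theorem lemB {𝒰 : Finset (PC N)}
    (hs : ∀ U ∈ 𝒰, ∑ V ∈ 𝒰.filter (fun V => V ≠ U ∧ ¬ Disjoint (supp U) (supp V)), wt V ≤ 1 / 8)
    (hq : ∀ U ∈ 𝒰, ∑ V ∈ 𝒰.filter (fun V => V ≠ U ∧ ¬ Disjoint (supp U) (supp V)),
      (1 / 2 : ℝ) ^ (supp V \ supp U).card ≤ 1 / 4)
    {S : Finset (PC N)} (hS : S ⊆ 𝒰) {U : PC N} (hU : U ∈ 𝒰) (hUS : U ∉ S) :
    2 / 3 * wt U * cn S (emp N) ≤ cn S U := by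
  set S1 := S.filter (fun V => ¬ Disjoint (supp U) (supp V)) with hS1
  set S2 := S.filter (fun V => Disjoint (supp U) (supp V)) with hS2
  have hu : S1 ∪ S2 = S := split_union U S
  have hS2S : S2 ⊆ S := filter_subset _ _
  have h0 : 2 ^ size U * cn S2 U = cn S2 (emp N) :=
    cn_indep (fun V hV => (mem_filter.1 hV).2)
  have h0' : cn S2 U = wt U * cn S2 (emp N) := by
    rw [← h0, wt_mul]
  have h3 : ∀ V ∈ S1, cn2 S2 U V ≤
      4 / 3 * (1 / 2 : ℝ) ^ (supp V \ supp U).card * (wt U * cn S2 (emp N)) := by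
    intro V hV
    have hVS : V ∈ S := (mem_filter.1 hV).1
    have hV2 : V ∉ S2 := fun h => (mem_filter.1 hV).2 (mem_filter.1 h).2
    have h4 : ∑ W ∈ S2.filter (fun W => ¬ Disjoint (supp (rest V U)) (supp W)), wt W
        ≤ 1 / 8 := by
      refine le_trans (sum_le_sum_of_subset_of_nonneg ?_ fun W _ _ => (wt_pos W).le)
        (hs V (hS hVS))
      intro W hW
      rw [mem_filter] at hW ⊢
      refine ⟨hS (hS2S hW.1), fun h => hV2 (h ▸ hW.1), fun h => hW.2 ?_⟩
      rw [supp_rest]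
      exact disjoint_of_subset_left sdiff_subset h
    have h5 := lemA hs S2 (hS2S.trans hS) (rest V U) h4
    have h6 : cn2 S2 U V ≤ cn2 S2 U (rest V U) := by
      unfold cn2
      refine Nat.cast_le.2 (card_le_card fun χ hχ => ?_)
      exact mem_filter.2 ⟨mem_univ _, (mem_filter.1 hχ).2.1,
        agree_rest U (mem_filter.1 hχ).2.2.1, (mem_filter.1 hχ).2.2.2⟩
    have h7 : 2 ^ size U * cn2 S2 U (rest V U) = cn S2 (rest V U) := by
      apply cn2_indep (fun V hV => (mem_filter.1 hV).2)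
      rw [supp_rest]
      exact disjoint_sdiff
    have h8 : cn2 S2 U (rest V U) = wt U * cn S2 (rest V U) := by
      rw [← h7, wt_mul]
    have h9 : size (rest V U) = (supp V \ supp U).card := by
      rw [← supp_card, supp_rest]
    have h10 := wt_mul (rest V U) (cn S2 (rest V U))
    have h11 : wt (rest V U) = (1 / 2 : ℝ) ^ (supp V \ supp U).card := by
      unfold wt
      rw [h9]
    have h12 : cn S2 (rest V U) ≤ 4 / 3 * wt (rest V U) * cn S2 (emp N) := by
      have h13 := mul_le_mul_of_nonneg_left h5 (wt_pos (rest V U)).le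
      nlinarith
    calc cn2 S2 U V ≤ wt U * cn S2 (rest V U) := by rw [← h8]; exact h6
      _ ≤ wt U * (4 / 3 * wt (rest V U) * cn S2 (emp N)) :=
        mul_le_mul_of_nonneg_left h12 (wt_pos U).le
      _ = _ := by
        rw [h11]
        ring
  have h4 := union_bound S1 S2 U
  rw [hu] at h4
  have h5 := sum_le_sum h3
  rw [← sum_mul, ← mul_sum] at h5
  have h6 : 0 ≤ wt U * cn S2 (emp N) := mul_nonneg (wt_pos U).le (cn_nonneg S2 (emp N))
  have h7 : ∑ V ∈ S1, (1 / 2 : ℝ) ^ (supp V \ supp U).card ≤ 1 / 4 := by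
    refine le_trans (sum_le_sum_of_subset_of_nonneg ?_ fun W _ _ => by positivity) (hq U hU)
    intro W hW
    rw [mem_filter] at hW ⊢
    exact ⟨hS hW.1, fun h => hUS (h ▸ hW.1), hW.2⟩
  have h8 : 4 / 3 * (∑ V ∈ S1, (1 / 2 : ℝ) ^ (supp V \ supp U).card) *
      (wt U * cn S2 (emp N)) ≤ 1 / 3 * (wt U * cn S2 (emp N)) := by
    apply mul_le_mul_of_nonneg_right _ h6
    linarith
  have h9 : wt U * cn S (emp N) ≤ wt U * cn S2 (emp N) :=
    mul_le_mul_of_nonneg_left (cn_mono hS2S _) (wt_pos U).le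
  linarith

theorem cn_insert (S : Finset (PC N)) (U : PC N) :
    cn (insert U S) (emp N) = cn S (emp N) - cn S U := by
  have h1 : (univ.filter (fun χ : Col N => Agree (emp N) χ ∧ ∀ V ∈ insert U S, ¬ Agree V χ)) =
      (univ.filter (fun χ : Col N => Agree (emp N) χ ∧ ∀ V ∈ S, ¬ Agree V χ)) \
      (univ.filter (fun χ : Col N => Agree U χ ∧ ∀ V ∈ S, ¬ Agree V χ)) := by
    ext χ
    rw [mem_sdiff, mem_filter, mem_filter, mem_filter]
    constructor
    · rintro ⟨-, h2, h3⟩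
      exact ⟨⟨mem_univ _, h2, fun V hV => h3 V (mem_insert_of_mem hV)⟩,
        fun h4 => h3 U (mem_insert_self U S) h4.2.1⟩
    · rintro ⟨⟨-, h2, h3⟩, h4⟩
      refine ⟨mem_univ _, h2, fun V hV => ?_⟩
      rcases mem_insert.1 hV with rfl | hV
      · exact fun h5 => h4 ⟨mem_univ _, h5, h3⟩
      · exact h3 V hV
  have h2 : (univ.filter (fun χ : Col N => Agree U χ ∧ ∀ V ∈ S, ¬ Agree V χ)) ⊆
      (univ.filter (fun χ : Col N => Agree (emp N) χ ∧ ∀ V ∈ S, ¬ Agree V χ)) := by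
    intro χ hχ
    exact mem_filter.2 ⟨mem_univ _, agree_emp χ, (mem_filter.1 hχ).2.2⟩
  unfold cn
  rw [h1, card_sdiff_of_subset h2, Nat.cast_sub (card_le_card h2)]

theorem lemC {𝒰 : Finset (PC N)}
    (hs : ∀ U ∈ 𝒰, ∑ V ∈ 𝒰.filter (fun V => V ≠ U ∧ ¬ Disjoint (supp U) (supp V)), wt V ≤ 1 / 8)
    (hq : ∀ U ∈ 𝒰, ∑ V ∈ 𝒰.filter (fun V => V ≠ U ∧ ¬ Disjoint (supp U) (supp V)),
      (1 / 2 : ℝ) ^ (supp V \ supp U).card ≤ 1 / 4)
    (S : Finset (PC N)) : S ⊆ 𝒰 →
    cn S (emp N) ≤ 2 ^ N * Real.exp (-(2 / 3) * ∑ U ∈ S, wt U) := by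
  induction S using Finset.induction_on with
  | empty =>
    intro _
    rw [sum_empty, mul_zero, Real.exp_zero, mul_one, cn_emp]
    have h1 : (univ.filter (fun χ : Col N => ∀ V ∈ (∅ : Finset (PC N)), ¬ Agree V χ)).card ≤
        2 ^ N := by
      refine (card_le_univ _).trans ?_
      rw [Fintype.card_fun, Fintype.card_bool, Fintype.card_fin]
    exact_mod_cast h1
  | insert U S hUS ih =>
    intro hS
    have hU : U ∈ 𝒰 := hS (mem_insert_self U S)
    have hS' : S ⊆ 𝒰 := (subset_insert U S).trans hS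
    have h1 := lemB hs hq hS' hU hUS
    have h2 := ih hS'
    rw [cn_insert, sum_insert hUS, mul_add, Real.exp_add]
    have h3 : 1 - 2 / 3 * wt U ≤ Real.exp (-(2 / 3) * wt U) := by
      have h4 := Real.add_one_le_exp (-(2 / 3) * wt U)
      linarith
    have h4 := cn_nonneg S (emp N)
    have h5 : (0 : ℝ) ≤ Real.exp (-(2 / 3) * wt U) := (Real.exp_pos _).le
    calc cn S (emp N) - cn S U ≤ (1 - 2 / 3 * wt U) * cn S (emp N) := by linarith
      _ ≤ Real.exp (-(2 / 3) * wt U) * cn S (emp N) := mul_le_mul_of_nonneg_right h3 h4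
      _ ≤ Real.exp (-(2 / 3) * wt U) * (2 ^ N * Real.exp (-(2 / 3) * ∑ U ∈ S, wt U)) :=
        mul_le_mul_of_nonneg_left h2 h5
      _ = _ := by ring

theorem cond_q {𝒰 : Finset (PC N)} (h : ∀ U ∈ 𝒰, 4 * ∑ V ∈ 𝒰, pw U V ≤ wt U) :
    ∀ U ∈ 𝒰, ∑ V ∈ 𝒰.filter (fun V => V ≠ U ∧ ¬ Disjoint (supp U) (supp V)),
      (1 / 2 : ℝ) ^ (supp V \ supp U).card ≤ 1 / 4 := by
  intro U hU
  have h1 : ∑ V ∈ 𝒰.filter (fun V => V ≠ U ∧ ¬ Disjoint (supp U) (supp V)),
      wt U * (1 / 2 : ℝ) ^ (supp V \ supp U).card ≤ ∑ V ∈ 𝒰, pw U V := by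
    rw [sum_congr rfl (g := fun V => pw U V)]
    · exact sum_le_sum_of_subset_of_nonneg (filter_subset _ _) fun V _ _ => pw_nonneg U V
    · intro V hV
      rw [mem_filter] at hV
      rw [pw_eq]
      rintro (h2 | h2)
      · exact hV.2.1 h2.symm
      · exact hV.2.2 h2
  rw [← mul_sum] at h1
  have h2 := h U hU
  have h3 := wt_pos U
  by_contra h4
  push Not at h4
  have h5 := mul_lt_mul_of_pos_left h4 h3
  linarith

theorem cond_s {𝒰 : Finset (PC N)}
    (hq : ∀ U ∈ 𝒰, ∑ V ∈ 𝒰.filter (fun V => V ≠ U ∧ ¬ Disjoint (supp U) (supp V)),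
      (1 / 2 : ℝ) ^ (supp V \ supp U).card ≤ 1 / 4) :
    ∀ U ∈ 𝒰, ∑ V ∈ 𝒰.filter (fun V => V ≠ U ∧ ¬ Disjoint (supp U) (supp V)), wt V
      ≤ 1 / 8 := by
  intro U hU
  have h2 : ∀ V ∈ 𝒰.filter (fun V => V ≠ U ∧ ¬ Disjoint (supp U) (supp V)),
      wt V ≤ 1 / 2 * (1 / 2 : ℝ) ^ (supp V \ supp U).card := by
    intro V hV
    rw [mem_filter] at hV
    have h3 : (supp V \ supp U).card + 1 ≤ size V := by
      rw [← supp_card]
      apply Nat.succ_le_of_lt
      apply card_lt_card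
      rw [ssubset_iff_of_subset sdiff_subset]
      obtain ⟨v, hv1, hv2⟩ := not_disjoint_iff.1 hV.2.2
      exact ⟨v, hv2, fun h4 => (mem_sdiff.1 h4).2 hv1⟩
    unfold wt
    rw [← pow_succ']
    exact pow_le_pow_of_le_one (by norm_num) (by norm_num) h3
  have h3 := sum_le_sum h2
  rw [← mul_sum] at h3
  have h4 := hq U hU
  linarith

end LllAux

theorem lll {𝒰 : Finset (PC N)} (h1 : ∀ U ∈ 𝒰, 1 ≤ size U)
    (h : ∀ U ∈ 𝒰, 4 * ∑ V ∈ 𝒰, pw U V ≤ wt U) :
    ((univ.filter (fun χ : Col N => ∀ U ∈ 𝒰, ¬ Agree U χ)).card : ℝ) ≤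
      2 ^ N * Real.exp (-(2 / 3) * ∑ U ∈ 𝒰, wt U) := by
  have hq := LllAux.cond_q h
  have hs := LllAux.cond_s hq
  have h2 := LllAux.lemC hs hq 𝒰 (Subset.refl _)
  rw [LllAux.cn_emp] at h2
  exact h2

end MTV
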