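import Pool.Agent.Lib.MTV.FinalV
import Pool.Agent.Lib.MTU.Main

/-!
# MTV.Main (MP_e46137_lc): the theorem
-/

namespace MTV

open Classical Finset MTU MTU.FinalAux MTU.FinalCAux MTU.FinalDAux MTU.MainAux

/-- **The theorem.** -/
theorem main : ∃ c : ℝ, 0 < c ∧ ∀ (n d : ℕ) (s t : Fin n), 4 ≤ n → 2 ≤ d → d ≤ n → s ≠ t →
    (∀ m : ℕ, c * Real.logb 2 n ^ 5 * m ≤ n → ∀ (W : Type) [Fintype W] (M : Cert.Mach n W),
      M.Clockless →
      (∀ G : Fin n → Fin n → Bool, (∀ a b, G a b = G b a) →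
        (∃ l ≤ d, SharpTS.HasWalk G l s t) → ∀ T, ¬ M.AcceptsUsing T m G) →
      1 ≤ Cert.cutProb s t (fun G => ∃ T, M.AcceptsUsing T m G) * 2 ^ m →
      SharpTS.phi n 1 d - c * SharpTS.err n 1 d ≤ Real.logb 2 (Fintype.card W)) ∧
    (∃ (W : Type) (_ : Fintype W) (M : Cert.Mach n W), M.Clockless ∧
      Real.logb 2 (Fintype.card W) ≤ SharpTS.phi n 1 d + c * SharpTS.err n 1 d ∧
      ∀ G : Fin n → Fin n → Bool,
        ((∃ l ≤ d, SharpTS.HasWalk G l s t) → ∀ T, ¬ M.Accepts T G) ∧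
        (¬ SharpTS.Reach G s t → ∃ T, M.AcceptsUsing T 0 G)) ∧
    (∃ (W : Type) (_ : Fintype W) (M : Cert.Mach n W), M.Clockless ∧
      Real.logb 2 (Fintype.card W) ≤ c * Real.logb 2 n ∧
      ∀ G : Fin n → Fin n → Bool,
        (SharpTS.Reach G s t → ∀ T, ¬ M.Accepts T G) ∧
        (¬ SharpTS.Reach G s t → ∃ T, M.AcceptsUsing T (n - 1) G)) ∧
    (∀ S m T : ℕ, 1 ≤ S → S ≤ n → c * Real.logb 2 n ^ 5 * m ≤ n →
      ∀ (W : Type) [Fintype W] (M : Cert.Mach n W), Fintype.card W ≤ 2 ^ S →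
      (∀ G : Fin n → Fin n → Bool, (∀ a b, G a b = G b a) →
        (∃ l ≤ d, SharpTS.HasWalk G l s t) → ¬ M.AcceptsUsing T m G) →
      1 ≤ Cert.cutProb s t (M.AcceptsUsing T m) * 2 ^ m →
      SharpTS.phi n S d - c * SharpTS.err n S d ≤ Real.logb 2 T) ∧
    (∀ S : ℕ, 1 ≤ S → S ≤ n →
      (∀ (T : ℕ) (W : Type) [Fintype W] (Ω : Type) [Fintype Ω] (p : Ω → ℝ)
        (M : Ω → Cert.Mach n W) (δ : ℝ), Fintype.card W ≤ 2 ^ S → (∀ ω, 0 ≤ p ω) →
        ∑ ω, p ω = 1 → 0 < δ → Cert.Certifies p M T d s t δ →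
        SharpTS.phi n S d - c * SharpTS.err n S d ≤ Real.logb 2 (T / δ)) ∧
      (c * Real.logb 2 n ^ 9 * S * d ≤ n →
        ∀ (T : ℕ) (W : Type) [Fintype W] (M : Cert.Mach n W), Fintype.card W ≤ 2 ^ S →
        Cert.cutProb s t (M.AcceptsUsing T 0) ≤ Cert.pathProb d s t (M.AcceptsUsing T 0) +
          T * (2 : ℝ) ^ (-(SharpTS.phi n S d - c * SharpTS.err n S d))) ∧
      (c * Real.logb 2 n ≤ S → ∃ S' ≤ S, ∃ (M : SharpTS.Mach n S') (out : Fin S') (T : ℕ),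
        1 ≤ T ∧ M.Simple ∧ SharpTS.Decides M out T d s t ∧
        Real.logb 2 T ≤ SharpTS.phi n S d + c * SharpTS.err n S d) ∧
      SharpTS.phi n S n = SharpTS.lam n S ^ 2 / 2) ∧
    (∀ (S : ℕ) (M : SharpTS.Mach n S) (out : Fin S),
      ∃ M' : Cert.Mach n (Fin S → Bool), ∀ (T : ℕ) (G : Fin n → Fin n → Bool),
        (M'.AcceptsUsing T 0 G ↔ M.run G T out = false) ∧
        (M'.Accepts T G ↔ M.run G T out = false)) := by
  obtain ⟨c₁, hc₁, h1⟩ := spaceV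
  obtain ⟨c₂, hc₂, h2⟩ := upper0
  obtain ⟨c₃, hc₃, h3⟩ := upperIS
  obtain ⟨c₄, hc₄, h4⟩ := posV
  obtain ⟨c₅, hc₅, h5⟩ := MTU.main
  obtain ⟨c, hc⟩ : ∃ c, c = c₁ + c₂ + c₃ + c₄ + c₅ := ⟨_, rfl⟩
  refine ⟨c, by linarith, ?_⟩
  intro n d s t hn hd hdn hst
  have hlog : 2 ≤ Real.logb 2 (n : ℝ) := logb_two_le hn
  have herr : ∀ S, 1 ≤ S → S ≤ n → 0 ≤ SharpTS.err n S d := fun S hS hSn =>
    MTX.err_nonneg hn hS hSn (by omega)
  have hmul : ∀ S, 1 ≤ S → S ≤ n → ∀ c', c' ≤ c →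
      c' * SharpTS.err n S d ≤ c * SharpTS.err n S d := fun S hS hSn c' h =>
    mul_le_mul_of_nonneg_right h (herr S hS hSn)
  obtain ⟨-, -, -, k4, k5⟩ := h5 n d s t hn hd hdn hst
  refine ⟨?_, ?_, ?_, ?_, ?_, k5⟩
  · intro m hm W _ M hM hno hacc
    have := h1 n m d s t hn hd hdn hst (le_trans (by gcongr; linarith) hm) W M hM hno hacc
    have := hmul 1 le_rfl (by omega) c₁ (by linarith)
    linarith
  · obtain ⟨W, hW, M, k1, k2, k3⟩ := h2 n d s t hn hd hdn hst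
    have := hmul 1 le_rfl (by omega) c₂ (by linarith)
    exact ⟨W, hW, M, k1, by linarith, k3⟩
  · obtain ⟨W, hW, M, k1, k2, k3⟩ := h3 n s t hn hst
    exact ⟨W, hW, M, k1, k2.trans (mul_le_mul_of_nonneg_right (by linarith) (by linarith)), k3⟩
  · intro S m T hS hSn hm W _ M hW hno hacc
    have := h4 n S m d T s t hn hS hSn hd hdn hst (le_trans (by gcongr; linarith) hm) W hW M hno
      hacc
    have := hmul S hS hSn c₄ (by linarith)
    linarith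
  · intro S hS hSn
    obtain ⟨j1, j2, j3, j4⟩ := k4 S hS hSn
    refine ⟨?_, ?_, ?_, j4⟩
    · intro T W _ Ω _ p M δ hW hp0 hp1 hδ hM
      have := j1 T W Ω p M δ hW hp0 hp1 hδ hM
      have := hmul S hS hSn c₅ (by linarith)
      linarith
    · intro hC T W _ M hW
      refine (j2 (le_trans (by gcongr; linarith) hC) T W M hW).trans ?_
      apply add_le_add_right
      apply mul_le_mul_of_nonneg_left _ (Nat.cast_nonneg _)
      apply Real.rpow_le_rpow_of_exponent_le (by norm_num)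
      have := hmul S hS hSn c₅ (by linarith)
      linarith
    · intro hS2
      obtain ⟨S', hS', M, out, T, hT, hM1, hM2, hM3⟩ := j3
        ((mul_le_mul_of_nonneg_right (by linarith : c₅ ≤ c) (by linarith)).trans hS2)
      have := hmul S hS hSn c₅ (by linarith)
      exact ⟨S', hS', M, out, T, hT, hM1, hM2, by linarith⟩

end MTV
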