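import Pool.Agent.Lib.MTX.Clos

/-!
# MTV.Pair (MP_e46137_lc): maximal pairs, with an index set of colourings

As `MTU/Pair.lean`, for an index set `ι` and a map `c` from `ι` to the colourings.
-/

namespace MTV

open Classical Finset MTX

variable {N : ℕ} {ι : Type}

structure PairI (c : ι → Col N) (w θ : ℕ) (X : Finset ι) (F : Finset (PC N)) (Err : Finset ι) :
    Prop where
  sz : ∀ U ∈ F, size U ≤ w
  err : Err.card ≤ (2 * N + 1) ^ w * θ
  av : ∀ χ ∈ X, χ ∉ Err → ¬ Hits F (c χ)
  cl : ∀ U : PC N, size U ≤ w → (X.filter (fun χ => χ ∉ Err ∧ Agree U (c χ))).card ≤ θ → U ∈ F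

theorem PairI.up {c : ι → Col N} {w θ : ℕ} {X : Finset ι} {F : Finset (PC N)} {Err : Finset ι}
    (h : PairI c w θ X F Err) {U V : PC N} (hU : U ∈ F) (hUV : Sub U V) (hV : size V ≤ w) :
    V ∈ F := by
  refine h.cl V hV (le_trans (le_of_eq ?_) (Nat.zero_le θ))
  rw [card_eq_zero, filter_eq_empty_iff]
  rintro χ hχ ⟨h1, h2⟩
  exact h.av χ hχ h1 ⟨U, hU, fun v x hx => h2 v x (hUV v x hx)⟩

theorem exists_pair [Fintype ι] (c : ι → Col N) (w θ : ℕ) (X : Finset ι) :
    ∃ F Err, PairI c w θ X F Err := by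
  let Q : Finset (PC N) × Finset ι → Prop := fun x =>
    (∀ U ∈ x.1, size U ≤ w) ∧ x.2.card ≤ x.1.card * θ ∧ ∀ χ ∈ X, χ ∉ x.2 → ¬ Hits x.1 (c χ)
  have h0 : ((∅, ∅) : Finset (PC N) × Finset ι) ∈ univ.filter Q := by
    rw [mem_filter]
    refine ⟨mem_univ _, fun U hU => absurd hU (notMem_empty _), ?_, ?_⟩
    · rw [card_empty]
      exact Nat.zero_le _
    · rintro χ - - ⟨U, hU, -⟩
      exact absurd hU (notMem_empty _)
  obtain ⟨⟨F, E⟩, hFE, hmax⟩ := exists_max_image (univ.filter Q) (fun x => x.1.card) ⟨_, h0⟩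
  rw [mem_filter] at hFE
  obtain ⟨-, hsz, hE, hR⟩ := hFE
  refine ⟨F, E, hsz, ?_, hR, ?_⟩
  · refine hE.trans (Nat.mul_le_mul_right _ ?_)
    refine le_trans (card_le_card ?_) (card_small (N := N) w)
    intro U hU
    exact mem_filter.2 ⟨mem_univ _, hsz U hU⟩
  · intro U hU hθ
    by_contra hUF
    have hin : ((insert U F, E ∪ X.filter (fun χ => χ ∉ E ∧ Agree U (c χ))) :
        Finset (PC N) × Finset ι) ∈ univ.filter Q := by
      rw [mem_filter]
      refine ⟨mem_univ _, ?_, ?_, ?_⟩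
      · intro V hV
        rcases mem_insert.1 hV with rfl | h
        · exact hU
        · exact hsz V h
      · show (E ∪ X.filter (fun χ => χ ∉ E ∧ Agree U (c χ))).card ≤ (insert U F).card * θ
        rw [card_insert_of_notMem hUF, add_mul, one_mul]
        exact (card_union_le _ _).trans (Nat.add_le_add hE hθ)
      · rintro χ hχ hχE ⟨V, hV, hag⟩
        have hχE' : χ ∉ E ∪ X.filter (fun χ => χ ∉ E ∧ Agree U (c χ)) := hχE
        rw [mem_union, not_or, mem_filter] at hχE'
        rcases mem_insert.1 hV with rfl | h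
        · exact hχE'.2 ⟨hχ, hχE'.1, hag⟩
        · exact hR χ hχ hχE'.1 ⟨V, h, hag⟩
    have h2 : (insert U F).card ≤ F.card := hmax _ hin
    rw [card_insert_of_notMem hUF] at h2
    omega

/-- If more than `M * ((2 N + 1) ^ w * θ')` members of `X` extend `D`, and the states of the members
of `X` at a time are from a set of `M` states, then for some state `u` the family of the members
with state `u` does not contain `D`. -/
theorem exists_state {W : Type} [Fintype W] {c : ι → Col N} {w θ θ' : ℕ} {X : Finset ι}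
    {F : Finset (PC N)} {Err : Finset ι} (h : PairI c w θ X F Err)
    (hθ : Fintype.card W * ((2 * N + 1) ^ w * θ') ≤ θ) (S : ι → W) {D : PC N}
    (hD : size D ≤ w) (hDF : D ∉ F) :
    ∃ u, ∀ F' Err', PairI c w θ' (X.filter (fun χ => S χ = u)) F' Err' → D ∉ F' := by
  by_contra hcon
  push Not at hcon
  have h1 : θ < (X.filter (fun χ => χ ∉ Err ∧ Agree D (c χ))).card := by
    by_contra h2
    exact hDF (h.cl D hD (not_lt.1 h2))
  have h2 : (X.filter (fun χ => χ ∉ Err ∧ Agree D (c χ))).card ≤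
      Fintype.card W * ((2 * N + 1) ^ w * θ') := by
    have h3 : X.filter (fun χ => χ ∉ Err ∧ Agree D (c χ)) ⊆
        (univ : Finset W).biUnion (fun u => (X.filter (fun χ => S χ = u)).filter
          (fun χ => Agree D (c χ))) := by
      intro χ hχ
      obtain ⟨h4, h5, h6⟩ := mem_filter.1 hχ
      exact mem_biUnion.2 ⟨S χ, mem_univ _, mem_filter.2 ⟨mem_filter.2 ⟨h4, rfl⟩, h6⟩⟩
    refine (card_le_card h3).trans (card_biUnion_le.trans ?_)
    refine (sum_le_card_nsmul univ _ ((2 * N + 1) ^ w * θ') fun u _ => ?_).trans ?_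
    · obtain ⟨F', Err', hp, hDF'⟩ := hcon u
      refine le_trans (card_le_card ?_) hp.err
      intro χ hχ
      obtain ⟨h4, h5⟩ := mem_filter.1 hχ
      by_contra h6
      exact hp.av χ h4 h6 ⟨D, hDF', h5⟩
    · rw [card_univ, smul_eq_mul]
  omega

end MTV
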