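import Pool.Agent.Lib.MTV.Core
import Pool.Agent.Lib.MTU.Root

/-!
# MTV.Root (MP_e46137_lc): the whole time interval, relative to a set of colourings
-/

namespace MTV

open Classical Finset MTX MTU

variable {r N : ℕ} {ι : Type}

namespace RootAux

theorem few_of {w B : ℕ} {F : Finset (PC N)} (h : FewExt w B F) : MTN.Few w B F := by
  intro D a hDa
  have h1 : (univ.filter (fun A : PC N => MTQ.MinExt F D A ∧ MTQ.size A = a)).card ≤
      (univ.filter (fun A : PC N => MinExt F D A ∧ size A = a)).card := by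
    refine card_le_card fun A hA => ?_
    obtain ⟨-, h2, h3⟩ := mem_filter.1 hA
    rw [ExtAux.size_eq] at h3
    exact mem_filter.2 ⟨mem_univ _, (ExtAux.minExt_iff F D A).2 h2, h3⟩
  refine h1.trans ?_
  rw [ExtAux.size_eq] at hDa
  rcases Nat.eq_zero_or_pos a with ha | ha
  · subst ha
    rw [pow_zero, card_le_one]
    intro A hA A' hA'
    rw [size_eq_zero (mem_filter.1 hA).2.2, size_eq_zero (mem_filter.1 hA').2.2]
  · by_cases hD : D ∈ F
    · have h2 : (univ.filter (fun A : PC N => MinExt F D A ∧ size A = a)) = ∅ := by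
        rw [filter_eq_empty_iff]
        rintro A - ⟨⟨-, -, h3⟩, h4⟩
        have h5 := h3 (emp N) (fun v c hc => absurd hc (by simp [emp])) (by rwa [join_emp])
        rw [← h5, size_emp] at h4
        omega
      rw [h2, card_empty]
      exact Nat.zero_le _
    · exact h D hD a ha hDa

/-- if the empty colouring is not a member, then few paths have a blocked arc -/
theorem few_blocked {w B : ℕ} (hr : 1 ≤ r) (F : Finset (PC N)) (hF : ∀ U ∈ F, size U ≤ w)
    (hfew : FewExt w B F) (hB : 1 ≤ B) (hN : 32 * B * r ≤ N - r) (hemp : emp N ∉ F) :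
    31 * ((univ.filter (fun P : Pth r N => ∃ q, ∃ U ∈ F, Sub U (UP P q))).card : ℝ) ≤
      (Fintype.card (Pth r N) : ℝ) := by
  have hNr := MTN.BadAux.pos_sub hB hN hr
  have h1 := MTN.BadAux.union_le (a₀ := 1) F (few_of hfew) hN hNr hr
    ((MTN.inj r N).filter (fun P => ∃ c, ∃ U ∈ F, MTQ.Sub U (MTN.col P c))) (by
      intro P hP
      obtain ⟨hinj, c, U, hU, hUP⟩ := mem_filter.1 hP
      obtain ⟨V, hV, hVU, hmin⟩ := MTN.exists_min_sub hU
      have hVP : MTQ.Sub V (MTN.col P c) := fun j x h => hUP j x (hVU j x h)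
      refine mem_biUnion.2 ⟨MTQ.size V, mem_Icc.2 ⟨?_, ?_⟩, ?_⟩
      · rw [ExtAux.size_eq]
        by_contra h0
        have h2 : V = emp N := size_eq_zero (by omega)
        rw [h2] at hV
        exact hemp hV
      · rw [ExtAux.size_eq]
        exact hF V hV
      · unfold MTN.BadAux.cov
        rw [mem_biUnion]
        exact ⟨V, mem_filter.2 ⟨mem_univ _, hmin, rfl⟩, mem_filter.2 ⟨hinj, fun v hv =>
          MTN.exists_pos hVP hv⟩⟩)
  have h2 : ((univ.filter (fun P : Pth r N => ∃ q, ∃ U ∈ F, Sub U (UP P q))).card : ℝ) ≤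
      (((MTN.inj r N).filter (fun P => ∃ c, ∃ U ∈ F, MTQ.Sub U (MTN.col P c))).card : ℝ) := by
    exact_mod_cast MTU.RootAux.blocked_le F
  rw [MTU.RootAux.card_inj] at h1
  linarith

end RootAux

open RootAux

/-- **The core** if no path is accepted, relative to the set `X` of colourings. -/
theorem root2 [Fintype ι] {W : Type} [Fintype W] {w w₁ k B Q T J : ℕ} (θ : ℕ → ℕ) (hr : 1 ≤ r)
    (hw : 2 * w₁ ≤ w) (hw3 : 3 ≤ w₁) (hB1 : 1 ≤ B) (hQ : 8 ≤ Q)
    (hθ : ∀ j, Fintype.card W * ((2 * N + 1) ^ w * θ j) ≤ θ (j + 1))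
    (hrN : r < N) (hμ : 4 * B * Q * r ≤ N - r)
    (hκ : 4 * B * Q * 2 ^ k ≤ N - r)
    (hF1 : 1 ≤ 2 ^ w₁ * Fk (4 * (B : ℝ) * Q / ((N - r : ℕ) : ℝ)) k)
    (cl : ι → Col N) (X : Finset ι)
    (hQS : ∀ j, ∀ X' ⊆ X, ∀ F Err, PairI cl w (θ j) X' F Err → FewExt w B F)
    (R : ι → ℕ → W) (reach : ℕ → W → Pth r N → Prop)
    (hbase : ∀ t < T, ∀ a P, reach t a P → ∃ q₀, ∀ q ≤ r, q ≠ q₀ → q ≠ q₀ + 1 →
      ∃ U, Sub U (UP P q) ∧ size U ≤ 3 ∧
        ∀ χ ∈ X, R χ t = a → ¬ reach (t + 1) (R χ (t + 1)) P → ¬ Agree U (cl χ))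
    (hT : 1 ≤ T) (hTJ : T ≤ 2 ^ J) (hk : 2 ^ k ≤ r + 1) (start : W)
    (hR0 : ∀ χ ∈ X, R χ 0 = start) (hreach0 : ∀ P, reach 0 start P)
    (hno : ∀ P, ∀ χ ∈ X, ¬ reach T (R χ T) P) (hX : (2 * N + 1) ^ w * θ J < X.card) :
    (30 : ℝ) / 31 ≤ (2 / (1 - 2 / (Q : ℝ))) ^ J *
        Fk (4 * (B : ℝ) * Q / ((N - r : ℕ) : ℝ)) k := by
  obtain ⟨F, Err, hp⟩ := exists_pair cl w (θ J) X
  have hemp : emp N ∉ F := by
    intro h
    have h1 : X ⊆ Err := by
      intro χ hχ
      by_contra h2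
      exact hp.av χ hχ h2 ⟨emp N, h, fun v c hc => absurd hc (by simp [emp])⟩
    have h2 := (card_le_card h1).trans hp.err
    omega
  obtain ⟨κ, hκdef⟩ : ∃ κ : ℝ, κ = 4 * (B : ℝ) * Q / ((N - r : ℕ) : ℝ) := ⟨_, rfl⟩
  rw [← hκdef]
  set ρ : PA r N := fun _ => none with hρ
  have hasz : asz ρ = 0 := by
    unfold asz
    rw [card_eq_zero, filter_eq_empty_iff]
    intro j _ h
    exact h rfl
  have hOm : Om ρ = (univ : Finset (Pth r N)) := by
    unfold Om
    refine filter_true_of_mem fun P _ j v h => ?_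
    rw [hρ] at h
    exact absurd h (by simp)
  have h1 := claim (T := T) θ hw hw3 hB1 (by omega : 6 ≤ Q) hθ hrN hμ hκ hF1 cl X hQS R reach
    hbase J 0 T (by omega) le_rfl (by omega) start X (Subset.refl _) hR0 F Err hp ρ 0 k le_rfl
    (by omega) (fun j _ _ => rfl)
  rw [← hκdef, hasz, pow_zero, mul_one, hOm, card_univ] at h1
  have h2 : (univ : Finset (Pth r N)) ⊆ EN (NdI reach R X start 0 T) (blk w₁ F) ρ 0 k ∪
      univ.filter (fun P : Pth r N => ∃ q, ∃ U ∈ F, Sub U (UP P q)) := by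
    intro P _
    rw [mem_union]
    by_cases hb : ∃ q, ∃ U ∈ F, Sub U (UP P q)
    · right
      exact mem_filter.2 ⟨mem_univ _, hb⟩
    · left
      refine mem_filter.2 ⟨mem_NdI.2 ⟨hreach0 P, hno P⟩, ?_, ?_⟩
      · rw [hOm]
        exact mem_univ _
      · rintro q - - ⟨U, hU, -, hUP⟩
        exact hb ⟨q, U, hU, hUP⟩
  have h3 := few_blocked hr F hp.sz (hQS J X (Subset.refl _) F Err hp) hB1 (by
    refine le_trans ?_ hμ
    calc 32 * B * r = 4 * B * 8 * r := by ring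
      _ ≤ 4 * B * Q * r := Nat.mul_le_mul_right _ (Nat.mul_le_mul_left _ hQ)) hemp
  have h5 : (Fintype.card (Pth r N) : ℝ) ≤
      ((EN (NdI reach R X start 0 T) (blk w₁ F) ρ 0 k).card : ℝ) +
      ((univ.filter (fun P : Pth r N => ∃ q, ∃ U ∈ F, Sub U (UP P q))).card : ℝ) := by
    rw [← card_univ]
    exact_mod_cast (card_le_card h2).trans (card_union_le _ _)
  have hpos : (0 : ℝ) < (Fintype.card (Pth r N) : ℝ) := by
    have h1 : Fintype.card (Fin r) ≤ Fintype.card (Fin N) := by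
      rw [Fintype.card_fin, Fintype.card_fin]
      omega
    obtain ⟨f⟩ := Function.Embedding.nonempty_of_card_le h1
    exact_mod_cast Fintype.card_pos_iff.2 ⟨f⟩
  have h6 : (30 : ℝ) / 31 * (Fintype.card (Pth r N) : ℝ) ≤
      ((2 / (1 - 2 / (Q : ℝ))) ^ J * Fk κ k) * (Fintype.card (Pth r N) : ℝ) := by
    linarith
  exact le_of_mul_le_mul_right h6 hpos

end MTV
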